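import Pool.Agent.H27.L1.Fin2
import Pool.Agent.H27.L1.H46.GHY.DBK
import Pool.Agent.H27.L1.H62.GHY.SPL
import Pool.Agent.H27.L1.H68.GHK.UNW
import Pool.Agent.H27.L1.H17.GHK.M3
import Pool.Agent.H27.L1.H34.GHY.GBI
import Pool.Agent.H27.L1.H34.GHK.All
import Pool.Agent.H47.THN.All
import Pool.Agent.H47.THN.WIN
import Pool.Agent.H34.ZN.All
import Pool.Agent.H12.ZN.DYA

/-!
# The second and the fourth moment, the values and the zeros of the L-functions of the cuspidal
representations of GL(m) over the rationals: the Lindelöf hypothesis on average in the conductor, the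
component at infinity and windows of the height, for every `m ≥ 2` (MP_52e316_nt)

A form of level `N` is a bounded continuous function `F` on
`GL_m(ℤ) \ (GL_m(ℝ) × {primitive vectors modulo N})`, invariant under the positive scalars, an
eigenfunction of ALL Hecke operators, cuspidal, and primitive at `N` (its Fourier coefficients at the
vectors which are not primitive vanish). The functions on
`GL_m(ℤ) \ (GL_m(ℝ) × {primitive vectors})` are the functions on `GL_m(ℚ) \ GL_m(𝔸)` invariant under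
`{k : k e_m = e_m mod N}`, which is conjugate (by `g ↦ g^(-T)`) to the mirahoric subgroup of the theory of
newforms, so every cuspidal representation `π` of conductor `N` with central character trivial on the
positive reals has such a form `F` (the newform at the primes, any smooth vector at infinity), and
`L(s, F) = L(s, π)`: spherical Maass forms, even and odd, all principal and generalised principal series,
holomorphic forms of every weight for `m = 2`, and so on. THERE IS NO CONDITION ON `F` AT INFINITY except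
the size: the size `P_F` is a Lipschitz constant of `F` in `L²`, for the right translations (for a spherical
`F` with parameters `μ_j` one can take `1 + ∑ |μ_j|`, and this is proved; for a vector of the minimal
`K`-type it is at most a constant times `1 + ∑ |μ_j|`, by Casimir's operator).

Let `m ≥ 2` and let `S_N` be finite orthonormal sets of forms of conductor `N`, for all `N ≥ 1` (some of
them may be empty). Every `F` has a weight `w_F ≥ 0`, for which one of the following holds: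

* `w_F ≤ 1`;
* `F` is spherical with parameters `μ_j`, and `w_F ≤ ∏_(i < j) (1 + |Im μ_i - Im μ_j|)`, which is, up to a
  constant, a majorant of the density of Plancherel's measure at the tempered parameters `μ`;
* all translates of `F` are orthogonal to the other forms of `S_N` (for instance, these belong to other
  representations), and `w_F ≤ 1 / H_F`, where `H_F` is the integral of `|⟨F(· g), F⟩|²` over the `g` with
  `|g - 1| ≤ 1 / (2 m)`.

Let `δ > 0`. The theorem gives a constant `B(m, δ)`, and constants `C(m, δ, ε)` for all `ε > 0`, with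

* for `k = 1` and `k = 2`, all `H ≥ 1` and real `t₀`, with `U = H + |t₀|`:
  `∑ over F in S_N with P_F ≤ H of w_F ∫ over |t - t₀| ≤ H of |L(1/2 + it, F)| ^ (2 k) ≤
  C (N U) ^ ε (N ^ m H ^ (m ^ 2) + (N U ^ m) ^ (k m / 2))`, and the same for sums over `1`-spaced points `t` of
  the window, a different set for every `F`. For `k = 2`, `t₀ = 0` and `H = P` the right side is
  `2 C (N P) ^ ε N ^ m P ^ (m ^ 2)`;
* `∑ over all F with N R_F ≤ X of |L(1/2 + i t_F, F)|⁴ ≤ C X ^ (m + 1 + ε)`, for all real `t_F` with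
  `|t_F| ≤ P_F`, where `R_F = (P_F ^ (m ^ 2) / w_F) ^ (1 / (m + 1))` if `1 ≤ w_F ≤ P_F ^ (m (m - 1) / 2)`. For
  spherical `F`, `m ≤ 3` and `P_F = 1 + ∑ |μ_j|` one can take `R_F = ∏ (1 + |μ_j|)`, so that `N R_F` is the
  analytic conductor;
* for all `η ≥ 0`, for all these `F` with at most `C X ^ (m + 1 - 4 η + ε)` exceptions, and for all real `t`
  with `|t| ≤ P_F` at once: `|L(1/2 + it, F)| ≤ X ^ η`, and `L(s, F)` has at most `B (1 + η log X)` zeros,
  counted with multiplicity, with real part at least `1/2 + δ` and imaginary part within `1` of `t`.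

There are about `N ^ m H ^ (m ^ 2 - 1)` orthonormal forms of conductor `N` and size at most `H` (Weyl's law,
all `K`-types), the window of the `t` has the length `2 H`, and `N U ^ m` is the analytic conductor of
`L(1/2 + it, F)` for general `F` of size `H` and `|t - t₀| ≤ H`. So the first bound with `w_F = 1` is what the
Lindelöf hypothesis gives, on average over a basis, whenever the number `N ^ m H ^ (m ^ 2)` of the pairs
`(F, t)` is at least the power `k m / 2` of the conductor: for `k = 2` if `|t₀| ≤ H` (the sizes of `F` and of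
`t` are the same), and for `k = 1` if `|t₀| ≤ N ^ (1 / m) H ²`, that is for thin families: of the forms
whose size is only the square root of the height, in windows of this length. The other weights give the sum
over the representations
`π` themselves. A spherical `π` has one form `F`; there are about `N ^ m P ^ ((m - 1) (m + 2) / 2)` of them of
conductor `N` and size about `P`, nearly all with `|μ_i - μ_j|` of size `P`, where the weight is about
`P ^ (m (m - 1) / 2)`; so the sum over these `π` of the fourth moment is at most a constant times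
`(N P) ^ ε N ^ m P ^ (m (m + 1) / 2)`, the number of the `π` times `P`. For `m ≤ 3` the second bound is over the
universal family of the spherical cuspidal representations in the order of the analytic conductor: there
are about `X ^ (m + 1)` of them of analytic conductor at most `X`. For a `π` which is not spherical one takes
one vector `F` in the space of `π`, with the weight `1 / H_F`; for suitable vectors and `π` in general
position it is again about `P ^ (m (m - 1) / 2)`.

By Backlund's theorem the Lindelöf hypothesis says that for every `δ > 0` the number of the zeros with real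
part at least `1/2 + δ` and imaginary part within `1` of `t` is `o(log)` of the analytic conductor at the
height `t`; the number of all the zeros with imaginary part within `1` of `t` is comparable with this
logarithm. So by the third statement, for small `η`, nearly all the zeros with `|Im| ≤ P_F` of nearly all
these L-functions have real part less than `1/2 + δ`, and more than `1/2 - δ` by the functional equation.
For `m ≥ 3` this is not known for a single representation, in the variable `t`. (The remarks on numbers,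
conductors, `π`, and Backlund's theorem are not part of the theorem.)

Idea of the proof. Gallagher's inequality reduces the moments of the Dirichlet polynomials to sums over the
`n` (`k = 1`) or over the pairs `n₁ n₂` (`k = 2`) in short windows. These are eigenvalues of sums of Hecke
operators, or of products of two of them; by
Bessel's inequality their squares are bounded by the Hilbert-Schmidt norm of the operator composed with a
bump function of radius `1 / P`, on the part of the fundamental domain which carries half of the mass of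
every form. This is a count of pairs of integer matrices which are close at the scale `1 / P`, weighted by
the squares of the numbers of intermediate lattices; an inequality for the shapes of three lattices, with a
shift, shows that its loss in the cusp is compensated by the Haar measure. For the weights `1 / H_F` the
inequality is applied, by duality, to all the translates of the forms by the `g` in a small ball of fixed
radius: as the spaces generated by the forms are orthogonal, only diagonal terms survive, and they are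
bounded by `H_F`. For spherical forms `⟨F(· g), F⟩` is a spherical function, and an oscillatory integral
over the orthogonal group gives `H_F ≤ C / ∏_(i < j) (1 + |Im μ_i - Im μ_j|)`. The approximate functional
equation comes from Poisson summation over the integer matrices `α` with `α x = y`. Its two local factors
are given by coefficient functions of `F`, have the same absolute value on the critical line and are bounded
entire functions on discs of radius `c P`; by Jensen's formula the local factor is there a product of a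
bounded number of linear factors and of a function bounded from above and below, the linear factors
compensate each other in the approximate functional equation up to factors `min(1, |s - z_i|)`, and these
are removed by Cauchy's formula on a circle which avoids the `z_i`. So nothing has to be known about the
representation at infinity. For the zeros, the fourth moment at the heights `|u| ≤ R P_F` for all `R ≥ 1`
shows that `|L(1/2 + iu, F)| ≤ X ^ η (1 + |u - t|) ^ K` for all `|t| ≤ P_F` and all real `u`, with few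
exceptions `F`. The Mellin transform of a suitable coefficient function of `F`, a local factor times
`L(s, F)`, is bounded on vertical strips, and near height `t` the local factor is as above; by the principle
of Phragmén and Lindelöf `|L(s, F)| ≤ C X ^ η` for the `s` with real part at least `1/2 + δ/2` near height
`t`, first up to the linear factors, which are removed by Cauchy's formula. Jensen's formula for discs in
this half plane gives the bound for the number of the zeros.
-/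

set_option autoImplicit false

namespace Pool.Agent.Results.MP_52e316_nt.HybridFamilyFourthMoment

open MeasureTheory

/-- real `m × m` matrices -/
abbrev Mat (m : ℕ) := Matrix (Fin m) (Fin m) ℝ

/-- the same space, with Lebesgue measure and the maximum norm -/
abbrev V (m : ℕ) := Fin m → Fin m → ℝ

/-- integer `m × m` matrices -/
abbrev ZM (m : ℕ) := Matrix (Fin m) (Fin m) ℤ

/-- vectors modulo `N` -/
abbrev VecMod (m N : ℕ) := Fin m → ZMod N

/-- the matrix of a point of `V m` -/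
abbrev mt {m : ℕ} (z : V m) : Mat m := Matrix.of z

/-- the maximum of the absolute values of the entries -/
noncomputable def sz {m : ℕ} (z : Mat m) : ℝ := ‖((fun i j => z i j) : V m)‖

/-- the integer matrix `α` as a real matrix -/
noncomputable def toReal {m : ℕ} (α : ZM m) : Mat m := α.map (fun n : ℤ => (n : ℝ))

/-- the product of the integer matrix `α` and the column vector `x` modulo `N` -/
def act {m : ℕ} (N : ℕ) (α : ZM m) (x : VecMod m N) : VecMod m N :=
  (α.map (fun n : ℤ => (n : ZMod N))).mulVec x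

/-- the scalar product modulo `N` -/
def dot {m N : ℕ} (v y : VecMod m N) : ZMod N := ∑ i, v i * y i

/-- primitive vectors modulo `N` -/
def IsPrimitive {m N : ℕ} (x : VecMod m N) : Prop := ∃ u : VecMod m N, dot u x = 1

/-- `|det z| ^ (1 / m)` -/
noncomputable def aN {m : ℕ} (z : Mat m) : ℝ := |z.det| ^ (1 / (m : ℝ))

/-- the Haar measure `|det z| ^ (-m) dz` of `GL_m(ℝ)` -/
noncomputable def hm (m : ℕ) : Measure (V m) :=
  (volume : Measure (V m)).withDensity (fun z => ENNReal.ofReal ((|(mt z).det| ^ m)⁻¹))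

/-- `T n` is a set of representatives of the classes `GL_m(ℤ) α` of the integer matrices `α` with
`|det α| = n` -/
structure IsReps (m : ℕ) (T : ℕ → Finset (ZM m)) : Prop where
  mem : ∀ n : ℕ, 1 ≤ n → ∀ α ∈ T n, α.det.natAbs = n
  uniq : ∀ n : ℕ, 1 ≤ n → ∀ β : ZM m, β.det.natAbs = n →
    ∃! α, α ∈ T n ∧ ∃ γ : ZM m, IsUnit γ ∧ β = γ * α

/-- `D` is a fundamental domain of `GL_m(ℤ)` (acting from the left) on the shell
`1 ≤ |det z| ^ (1 / m) < e` -/
structure IsDomain (m : ℕ) (D : Set (V m)) : Prop where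
  meas : MeasurableSet D
  shell : ∀ z ∈ D, 1 ≤ aN (mt z) ∧ aN (mt z) < Real.exp 1
  fund : ∀ z : V m, 1 ≤ aN (mt z) → aN (mt z) < Real.exp 1 →
    ∃! γ : ZM m, IsUnit γ ∧ ((fun i j => (toReal γ * mt z) i j) : V m) ∈ D

/-- the leading principal minors of `zᵀ z` -/
noncomputable def mnr {m : ℕ} (z : Mat m) (j : ℕ) : ℝ :=
  if h : j ≤ m then ((z.transpose * z).submatrix (Fin.castLE h) (Fin.castLE h)).det else 0

/-- the power function `∏_j a_j ^ (-μ_j + (2j - m - 1) / 2)` of `z = k a`, `k` orthogonal, `a` upper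
triangular with positive diagonal `a_1, …, a_m`: `a_1² ⋯ a_j²` is the minor `mnr z j`. With this
normalisation the integral of `exp (-π ∑ z_ij²) |det z| ^ (s + (m - 1) / 2)` times the power function
is `∏_j Γ_ℝ(s - μ_j)` up to a constant. -/
noncomputable def pw {m : ℕ} (mu : Fin m → ℂ) (z : Mat m) : ℂ :=
  ∏ j : Fin m, ((mnr z ((j : ℕ) + 1) / mnr z (j : ℕ) : ℝ) : ℂ) ^
    ((-(mu j) + (2 * ((j : ℕ) + 1 : ℂ) - m - 1) / 2) / 2)

/-- test functions: continuous, compactly supported in `GL_m(ℝ)`, bi-invariant under the orthogonal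
group -/
structure IsTest (m : ℕ) (k : Mat m → ℂ) : Prop where
  cont : Continuous k
  supp : ∃ c : ℝ, 0 < c ∧ ∀ z, k z ≠ 0 → sz z ≤ c ∧ c⁻¹ ≤ |z.det|
  left : ∀ u : Mat m, u * u.transpose = 1 → ∀ z, k (u * z) = k z
  right : ∀ u : Mat m, u * u.transpose = 1 → ∀ z, k (z * u) = k z

/-- the additive character `a ↦ e(a / N)` of `ℤ / N` -/
noncomputable def chr (N : ℕ) (a : ZMod N) : ℂ :=
  Complex.exp (2 * Real.pi * Complex.I * (((a.val : ℝ) / N : ℝ) : ℂ))

/-- the block of the rows `≥ k` and the columns `< k` of `u` (rows and columns are numbered from `0`),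
the other entries are `0` -/
noncomputable def block {m : ℕ} (k : ℕ) (u : V m) : Mat m :=
  Matrix.of fun i j => if (j : ℕ) < k ∧ k ≤ (i : ℕ) then u i j else 0

/-- `F` is a form of conductor `N` with the Hecke eigenvalues `n ^ ((m - 1) / 2) λ(n)`: a bounded
continuous function on `GL_m(ℤ) \ (GL_m(ℝ) × {primitive vectors modulo N})`, invariant under `ℝ_{>0}`, an
eigenfunction of all Hecke operators;
primitive at `N`: for every `g` the Fourier coefficients of `F g` at all vectors which are not primitive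
vanish (`F` comes from no smaller level);
cuspidal: for `0 < k < m` its integral over the unipotent group of the matrices
`(1, 0; N u, 1)`, `u` a `(m - k) × k` matrix modulo `1`, vanishes at all `g`, `x`.
There is no condition at infinity. -/
structure IsForm (m N : ℕ) [NeZero N] (T : ℕ → Finset (ZM m)) (F : Mat m → VecMod m N → ℂ)
    (lam : ℕ → ℂ) : Prop where
  cont : ∀ x, ContinuousOn (fun g => F g x) {g | g.det ≠ 0}
  supp : ∀ g x, ¬ IsPrimitive x → F g x = 0
  auto : ∀ γ : ZM m, IsUnit γ → ∀ g x, g.det ≠ 0 → F (toReal γ * g) (act N γ x) = F g x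
  scal : ∀ r : ℝ, 0 < r → ∀ g x, g.det ≠ 0 → F (r • g) x = F g x
  hecke : ∀ n : ℕ, 1 ≤ n → ∀ g x, g.det ≠ 0 →
    ∑ α ∈ T n, F (toReal α * g) (act N α x) = (n : ℂ) ^ (((m : ℂ) - 1) / 2) * lam n * F g x
  bdd : ∃ B : ℝ, ∀ g x, g.det ≠ 0 → ‖F g x‖ ≤ B
  prim : ∀ v : VecMod m N, ¬ IsPrimitive v → ∀ g, g.det ≠ 0 → ∑ y, chr N (dot v y) * F g y = 0
  cusp : ∀ k : ℕ, 0 < k → k < m → ∀ g x, g.det ≠ 0 →
    ∫ u in Set.Icc (0 : V m) 1, F ((1 + (N : ℝ) • block k u) * g) x = 0

/-- `F` is spherical at infinity with the parameters `μ_j`: invariant under the orthogonal group and an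
eigenfunction of the convolutions with the test functions; `∏_j Γ_ℝ(s - μ_j)` is the factor at infinity
of its L-function -/
structure IsSpherical {m N : ℕ} (F : Mat m → VecMod m N → ℂ) (mu : Fin m → ℂ) : Prop where
  orth : ∀ k : Mat m, k * k.transpose = 1 → ∀ g x, g.det ≠ 0 → F (g * k) x = F g x
  sum_mu : ∑ j, mu j = 0
  arch : ∀ k : Mat m → ℂ, IsTest m k → ∀ g x, g.det ≠ 0 →
    ∫ z, k (mt z) * F (g * (mt z)⁻¹) x ∂(hm m) = F g x * ∫ z, k (mt z) * pw mu (mt z) ∂(hm m)

/-- `Q` is a Lipschitz constant of `F` in `L²(D × {vectors modulo N})` for the right translations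
near `1` -/
def IsLipschitz {m N : ℕ} [NeZero N] (D : Set (V m)) (F : Mat m → VecMod m N → ℂ) (Q : ℝ) : Prop :=
  ∀ w : Mat m, 2 * m * sz (w - 1) ≤ 1 →
    ∑ x, ∫ (z : V m) in D, ‖F ((mt z : Mat m) * w) x - F (mt z) x‖ ^ 2 ∂(hm m) ≤
      (Q * sz (w - 1)) ^ 2

/-- `F` has size at most `Q`: `Q ≥ 1` is a Lipschitz constant of `F` in `L²`, or `F` is spherical with
parameters `μ_j` and `1 + ∑ |μ_j| ≤ Q` -/
def IsSize {m N : ℕ} [NeZero N] (D : Set (V m)) (F : Mat m → VecMod m N → ℂ) (Q : ℝ) : Prop :=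
  1 ≤ Q ∧ (IsLipschitz D F Q ∨ ∃ mu : Fin m → ℂ, IsSpherical F mu ∧ 1 + ∑ j, ‖mu j‖ ≤ Q)

/-- the scalar product of the right translate of `F` by `g` with `G`, over `D × {vectors modulo N}` -/
noncomputable def translateInner {m N : ℕ} [NeZero N] (D : Set (V m)) (F G : Mat m → VecMod m N → ℂ)
    (g : Mat m) : ℂ :=
  ∑ x, ∫ z in D, F (mt z * g) x * (starRingEnd ℂ) (G (mt z) x) ∂(hm m)

/-- `H_F`: the integral of `|⟨F(· g), F⟩|²` over the `g` with `|g - 1| ≤ 1 / (2 m)` (Lebesgue measure,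
maximum norm) -/
noncomputable def meanCoefficient {m N : ℕ} [NeZero N] (D : Set (V m))
    (F : Mat m → VecMod m N → ℂ) : ℝ :=
  ∫ g in {g : V m | sz (mt g - 1) ≤ 1 / (2 * (m : ℝ))}, ‖translateInner D F F (mt g)‖ ^ 2

/-- `∏_(i < j) (1 + |Im μ_i - Im μ_j|)`, up to a constant a majorant of the density of Plancherel's measure
at the tempered parameters `μ` -/
noncomputable def plancherel {m : ℕ} (mu : Fin m → ℂ) : ℝ :=
  ∏ i, ∏ j, (1 + max 0 ((mu i).im - (mu j).im))

/-- `w ≥ 0` is an admissible weight of the form `F i` of the family `F`: `w ≤ 1`; or `F i` is spherical with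
parameters `μ_j` and `w ≤ ∏_(i < j) (1 + |Im μ_i - Im μ_j|)`; or all translates of `F i` are orthogonal to the
other forms of the family (for instance because these belong to other representations) and
`w ≤ 1 / H_(F i)` -/
def IsWeight {m N : ℕ} [NeZero N] {S : Type} (D : Set (V m)) (F : S → Mat m → VecMod m N → ℂ) (i : S)
    (w : ℝ) : Prop :=
  0 ≤ w ∧ (w ≤ 1 ∨ (∃ mu : Fin m → ℂ, IsSpherical (F i) mu ∧ w ≤ plancherel mu) ∨
    ((∀ j, j ≠ i → ∀ g : Mat m, g.det ≠ 0 → translateInner D (F i) (F j) g = 0) ∧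
      w ≤ (meanCoefficient D (F i))⁻¹))

/-- the order `N R` of the form `F` of level `N`, size `Q` and weight `w` is at most `X`: either
`1 ≤ w ≤ Q ^ (m (m - 1) / 2)` and `N ^ (m + 1) Q ^ (m ^ 2) ≤ w X ^ (m + 1)`; or `m ≤ 3`, `F` is spherical with
parameters `μ_j`, `Q = 1 + ∑ |μ_j|`, and the analytic conductor `N ∏ (1 + |μ_j|)` is at most `X` (the weight
is not used in this case) -/
def OrderLe {m N : ℕ} (F : Mat m → VecMod m N → ℂ) (Q w X : ℝ) : Prop :=
  (1 ≤ w ∧ w ≤ Q ^ (m * (m - 1) / 2) ∧ (N : ℝ) ^ (m + 1) * Q ^ (m ^ 2) ≤ w * X ^ (m + 1)) ∨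
    (m ≤ 3 ∧ ∃ mu : Fin m → ℂ, IsSpherical F mu ∧ Q = 1 + ∑ j, ‖mu j‖ ∧
      N * ∏ j, (1 + ‖mu j‖) ≤ X)

/-- well spaced points -/
def IsSpaced (J : Finset ℝ) : Prop := ∀ t ∈ J, ∀ u ∈ J, t ≠ u → 1 ≤ |t - u|

/-- the bound for the moment of order `2 k` in the window `|t - t₀| ≤ H` over the forms of conductor `N` and
size at most `H`: there are about `N ^ m H ^ (m ^ 2 - 1)` orthonormal forms, and `N (H + |t₀|) ^ m` is the
analytic conductor of their L-functions in the window -/
noncomputable def windowSize (m k N : ℕ) (H t₀ : ℝ) : ℝ :=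
  N ^ m * H ^ (m ^ 2) + (N * (H + |t₀|) ^ m) ^ ((k : ℝ) * m / 2)

/-- `L` has more than `b` zeros, counted with multiplicity, with real part at least `1/2 + d` and with
imaginary part within `1` of `t` -/
def ManyZeros (L : ℂ → ℂ) (d t b : ℝ) : Prop :=
  ∃ Z : Finset ℂ, (∀ ρ ∈ Z, 1 / 2 + d ≤ ρ.re ∧ |ρ.im - t| ≤ 1) ∧
    b < ∑ ρ ∈ Z, (analyticOrderNatAt L ρ : ℝ)

/-- the `F i` are orthonormal in `L²(D × {vectors modulo N})` -/
def IsOrthonormal {m N : ℕ} [NeZero N] {S : Type} [DecidableEq S] (D : Set (V m))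
    (F : S → Mat m → VecMod m N → ℂ) : Prop :=
  (∀ i j x, IntegrableOn (fun z => F i (mt z) x * (starRingEnd ℂ) (F j (mt z) x)) D (hm m)) ∧
  ∀ i j, ∑ x : VecMod m N, ∫ z in D, F i (mt z) x * (starRingEnd ℂ) (F j (mt z) x) ∂(hm m) =
    if i = j then 1 else 0

/-- `L` is the L-function `∑ λ(n) n ^ (-s)`, and it is entire -/
def IsLFunction (m : ℕ) (lam : ℕ → ℂ) (L : ℂ → ℂ) : Prop :=
  Differentiable ℂ L ∧ ∀ s : ℂ, (m : ℝ) + 2 < s.re →
    HasSum (fun n : ℕ => if 1 ≤ n then lam n * (n : ℂ) ^ (-s) else 0) (L s)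

section conversions

variable {m N : ℕ}

lemma cv_reps {T : ℕ → Finset (ZM m)} (h : IsReps m T) : Pool.Agent.H27.L1.H34.GZ.RepsZ m T :=
  ⟨h.mem, h.uniq⟩

lemma cv_dom {D : Set (V m)} (h : IsDomain m D) : Pool.Agent.H27.L1.H34.GZ.DomZ m D :=
  ⟨h.meas, h.shell, h.fund⟩

lemma cv_tst {k : Mat m → ℂ} (h : Pool.Agent.H27.L1.H34.GM.Tst m k) : IsTest m k :=
  ⟨h.cont, h.supp, h.left, h.right⟩

lemma cv_form [NeZero N] {T : ℕ → Finset (ZM m)} {F : Mat m → VecMod m N → ℂ} {lam : ℕ → ℂ}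
    (h : IsForm m N T F lam) : Pool.Agent.H27.L1.H34.GA.CusB m N T F lam where
  cont := h.cont
  supp := h.supp
  auto := h.auto
  scal := h.scal
  hecke := h.hecke
  bdd := h.bdd
  prim := h.prim
  cusp := h.cusp

lemma cv_sph [NeZero N] {T : ℕ → Finset (ZM m)} {F : Mat m → VecMod m N → ℂ} {lam : ℕ → ℂ}
    {mu : Fin m → ℂ} (h : IsForm m N T F lam) (h' : IsSpherical F mu) :
    Pool.Agent.H27.L1.H34.GU.CuspU m N T F lam mu where
  cont := h.cont
  supp := h.supp
  auto := h.auto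
  scal := h.scal
  orth := h'.orth
  hecke := h.hecke
  tr0 := h'.sum_mu
  arch := fun k hk => h'.arch k (cv_tst hk)
  bdd := h.bdd
  prim := h.prim
  cusp := h.cusp

lemma cv_l {lam : ℕ → ℂ} {L : ℂ → ℂ} (h : Pool.Agent.H27.L1.H34.GM.IsL m 1 lam L) :
    IsLFunction m lam L := by
  refine ⟨h.1, fun s hs => ?_⟩
  have h1 := h.2 s hs
  simpa using h1

/-- the L-function is unique -/
lemma l_uniq {lam : ℕ → ℂ} {L L' : ℂ → ℂ} (h : Pool.Agent.H27.L1.H34.GM.IsL m 1 lam L)
    (h' : Pool.Agent.H27.L1.H34.GM.IsL m 1 lam L') : L = L' := by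
  have ha : AnalyticOnNhd ℂ L Set.univ := h.1.differentiableOn.analyticOnNhd isOpen_univ
  have ha' : AnalyticOnNhd ℂ L' Set.univ := h'.1.differentiableOn.analyticOnNhd isOpen_univ
  refine ha.eq_of_eventuallyEq ha' (z₀ := ((m : ℝ) + 3 : ℝ)) ?_
  have hO : IsOpen {s : ℂ | (m : ℝ) + 2 < s.re} := isOpen_lt continuous_const Complex.continuous_re
  have hm : (((m : ℝ) + 3 : ℝ) : ℂ) ∈ {s : ℂ | (m : ℝ) + 2 < s.re} := by
    show (m : ℝ) + 2 < (((m : ℝ) + 3 : ℝ) : ℂ).re
    rw [Complex.ofReal_re]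
    linarith
  filter_upwards [hO.mem_nhds hm] with s hs
  exact (h.2 s hs).unique (h'.2 s hs)

/-- larger Lipschitz constants are Lipschitz constants -/
lemma lip_mono [NeZero N] {D : Set (V m)} {F : Mat m → VecMod m N → ℂ} {Q Q' : ℝ}
    (h : IsLipschitz D F Q) (h0 : 0 ≤ Q) (hQ : Q ≤ Q') : Pool.Agent.H27.L1.H34.GA.Lip D F Q' := by
  intro w hw
  have h1 : 0 ≤ sz (w - 1) := norm_nonneg _
  exact (h w hw).trans (pow_le_pow_left₀ (by positivity) (mul_le_mul_of_nonneg_right hQ h1) 2)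

/-- larger sizes -/
lemma size_mono [NeZero N] {D : Set (V m)} {F : Mat m → VecMod m N → ℂ} {Q Q' : ℝ}
    (h : IsSize D F Q) (hQ : Q ≤ Q') : IsSize D F Q' := by
  refine ⟨h.1.trans hQ, ?_⟩
  rcases h.2 with h1 | ⟨mu, h1, h2⟩
  · left
    intro w hw
    have h3 : 0 ≤ sz (w - 1) := norm_nonneg _
    have h4 : 0 ≤ Q := zero_le_one.trans h.1
    exact (h1 w hw).trans (pow_le_pow_left₀ (by positivity) (mul_le_mul_of_nonneg_right hQ h3) 2)
  · right
    exact ⟨mu, h1, h2.trans hQ⟩

/-- a subfamily of an orthonormal family -/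
lemma orth_sub [NeZero N] {S : Type} [DecidableEq S] {D : Set (V m)}
    {F : S → Mat m → VecMod m N → ℂ} (h : IsOrthonormal D F) (p : S → Prop)
    [DecidableEq {i // p i}] :
    Pool.Agent.H27.L1.H34.GM.Orthn D (fun i : {i // p i} => F i.1) := by
  refine ⟨fun i j x => h.1 i.1 j.1 x, fun i j => ?_⟩
  refine (h.2 i.1 j.1).trans ?_
  by_cases hij : i = j
  · rw [if_pos hij, if_pos (congrArg Subtype.val hij)]
  · rw [if_neg hij, if_neg (fun h2 => hij (Subtype.ext h2))]

/-- an orthonormal form is not identically zero -/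
lemma cv_nz [NeZero N] {S : Type} [DecidableEq S] {D : Set (V m)} (hD : IsDomain m D)
    (hm1 : 1 ≤ m) {F : S → Mat m → VecMod m N → ℂ} (h : IsOrthonormal D F) (i : S) :
    Pool.Agent.H27.L1.H34.GM.NZ (F i) := by
  by_contra hc
  have h0 : ∀ g : Mat m, g.det ≠ 0 → ∀ x, F i g x = 0 := by
    intro g hg x
    by_contra hx
    exact hc ⟨g, x, hg, hx⟩
  have h1 := h.2 i i
  rw [if_pos rfl] at h1
  have h2 : ∑ x : VecMod m N, ∫ z in D, F i (mt z) x * (starRingEnd ℂ) (F i (mt z) x) ∂(hm m) =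
      0 := by
    refine Finset.sum_eq_zero (fun x _ => ?_)
    refine setIntegral_eq_zero_of_forall_eq_zero (fun z hz => ?_)
    have hz1 := (hD.shell z hz).1
    have hdet : (mt z).det ≠ 0 := by
      intro h0
      unfold aN at hz1
      rw [h0, abs_zero, Real.zero_rpow (by positivity)] at hz1
      linarith
    rw [h0 _ hdet x, zero_mul]
  rw [h2] at h1
  exact zero_ne_one h1

end conversions

/-- the Lipschitz constants of the spherical forms -/
theorem c_SPL : Pool.Agent.H27.L1.H68.GHY.T_SPL :=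
  Pool.Agent.H27.L1.H62.GHY.pf_SPL (Pool.Agent.H27.L1.H46.GHY.pf_DBK Pool.Agent.H27.L1.H34.GZ.g_HAR)
    Pool.Agent.H27.L1.H34.GM.pf_PRF Pool.Agent.H27.L1.H34.GZ.g_BMP Pool.Agent.H27.L1.H34.GZ.g_PWN
    Pool.Agent.H27.L1.H34.GZ.g_PWC Pool.Agent.H27.L1.H34.GZ.g_HAR Pool.Agent.H27.L1.H34.GZ.g_HAC
    Pool.Agent.H27.L1.H34.GZ.a_RTI Pool.Agent.H27.L1.H34.GZ.a_VLM Pool.Agent.H27.L1.H34.GU.b_ALU
    Pool.Agent.H27.L1.H34.GZ.g_MSR

open Classical in
/-- one level -/
theorem one_level (m : ℕ) (hm2 : 2 ≤ m) (ε : ℝ) (hε : 0 < ε) : ∃ C : ℝ, 0 < C ∧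
    ∀ (N : ℕ) [NeZero N] (T : ℕ → Finset (ZM m)) (D : Set (V m)), 1 ≤ N → IsReps m T →
      IsDomain m D → ∀ P : ℝ, 1 ≤ P → ∀ (S : Type) [Fintype S] [DecidableEq S]
        (F : S → Mat m → VecMod m N → ℂ) (lam : S → ℕ → ℂ) (W : S → ℝ),
        (∀ i, IsForm m N T (F i) (lam i) ∧ IsSize D (F i) P ∧ IsWeight D F i (W i)) →
        IsOrthonormal D F → ∃ L : S → ℂ → ℂ, (∀ i, Pool.Agent.H27.L1.H34.GM.IsL m 1 (lam i) (L i)) ∧
          ∀ J : S → Finset ℝ, (∀ i, IsSpaced (J i)) → (∀ i, ∀ t ∈ J i, |t| ≤ P) →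
            ∑ i, W i * ∑ t ∈ J i, ‖L i (1 / 2 + t * Complex.I)‖ ^ 4 ≤
              C * ((N : ℝ) * P) ^ ε * ((N : ℝ) ^ m * P ^ (m ^ 2)) := by
  have hm1 : 1 ≤ m := by omega
  obtain ⟨CS, hCS, hSPL⟩ := c_SPL m hm1
  obtain ⟨C, hC, h⟩ := Pool.Agent.H27.L1.H34.GHK.c_ALL m hm1 ε hε
  have hCS0 : 0 < CS := by linarith
  refine ⟨C * CS ^ ε * CS ^ (m ^ 2), by positivity, ?_⟩
  intro N _ T D hN hT hD P hP S _ _ F lam W hF ho
  have hS : Pool.Agent.H27.L1.H34.GZ.SysZ m N T D := ⟨hm1, hN, Or.inr hm2, cv_reps hT, cv_dom hD⟩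
  have hP0 : 0 < P := by linarith
  have hPP : P ≤ CS * P := le_mul_of_one_le_left hP0.le hCS
  have hN0 : (0 : ℝ) < N := by
    have : 0 < N := by omega
    exact_mod_cast this
  -- the size
  have hlip : ∀ i, Pool.Agent.H27.L1.H34.GA.Lip D (F i) (CS * P) := by
    intro i
    rcases (hF i).2.1.2 with h1 | ⟨mu, h1, h2⟩
    · exact lip_mono h1 hP0.le hPP
    · exact hSPL N T D hS (F i) (lam i) mu (cv_sph (hF i).1 h1).toEigU
        (Pool.Agent.H27.L1.H34.GU.mou_nU F ho i) P h2
  obtain ⟨L, hL, hb⟩ := h N T D hS (CS * P) (hP.trans hPP) S F lam W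
    (fun i => ⟨cv_form (hF i).1, hlip i⟩) ho (fun i => (hF i).2.2.1) (fun i => by
      rcases (hF i).2.2.2 with h1 | ⟨mu, h1, h2⟩ | h1
      · exact Or.inl h1
      · exact Or.inr (Or.inl ⟨mu, (cv_sph (hF i).1 h1).toEigU, h2⟩)
      · exact Or.inr (Or.inr h1))
  refine ⟨L, hL, ?_⟩
  intro J hJ hJP
  refine (hb J hJ (fun i t ht => (hJP i t ht).trans hPP)).trans (le_of_eq ?_)
  rw [show (N : ℝ) * (CS * P) = CS * (N * P) by ring, Real.mul_rpow hCS0.le (by positivity),
    mul_pow]
  ring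

open Classical in
/-- one level, the moments of order `2` and `4` in a window -/
theorem one_window (m : ℕ) (hm2 : 2 ≤ m) (ε : ℝ) (hε : 0 < ε) : ∃ C : ℝ, 0 < C ∧
    ∀ (N : ℕ) [NeZero N] (T : ℕ → Finset (ZM m)) (D : Set (V m)), 1 ≤ N → IsReps m T →
      IsDomain m D → ∀ H : ℝ, 1 ≤ H → ∀ (S : Type) [Fintype S] [DecidableEq S]
        (F : S → Mat m → VecMod m N → ℂ) (lam : S → ℕ → ℂ) (W : S → ℝ),
        (∀ i, IsForm m N T (F i) (lam i) ∧ IsSize D (F i) H ∧ IsWeight D F i (W i)) →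
        IsOrthonormal D F → ∃ L : S → ℂ → ℂ, (∀ i, Pool.Agent.H27.L1.H34.GM.IsL m 1 (lam i) (L i)) ∧
          ∀ k : ℕ, 1 ≤ k → k ≤ 2 → ∀ (t₀ : ℝ) (J : S → Finset ℝ), (∀ i, IsSpaced (J i)) →
            (∀ i, ∀ t ∈ J i, |t - t₀| ≤ H) →
            ∑ i, W i * ∑ t ∈ J i, ‖L i (1 / 2 + t * Complex.I)‖ ^ (2 * k) ≤
              C * (((N : ℝ) * (H + |t₀|)) ^ ε * windowSize m k N H t₀) := by
  have hm1 : 1 ≤ m := by omega
  obtain ⟨CS, hCS, hSPL⟩ := c_SPL m hm1
  obtain ⟨C, hC, h⟩ := Pool.Agent.H47.THN.un_level Pool.Agent.H47.THN.c_LV1 m hm1 ε hε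
  have hCS0 : 0 < CS := by linarith
  refine ⟨C * (CS ^ ε * CS ^ (m ^ 2)), by positivity, ?_⟩
  intro N _ T D hN hT hD H hH S _ _ F lam W hF ho
  have hS : Pool.Agent.H27.L1.H34.GZ.SysZ m N T D := ⟨hm1, hN, Or.inr hm2, cv_reps hT, cv_dom hD⟩
  have hH0 : 0 < H := by linarith
  have hHH : H ≤ CS * H := le_mul_of_one_le_left hH0.le hCS
  -- the size
  have hlip : ∀ i, Pool.Agent.H27.L1.H34.GA.Lip D (F i) (CS * H) := by
    intro i
    rcases (hF i).2.1.2 with h1 | ⟨mu, h1, h2⟩
    · exact lip_mono h1 hH0.le hHH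
    · exact hSPL N T D hS (F i) (lam i) mu (cv_sph (hF i).1 h1).toEigU
        (Pool.Agent.H27.L1.H34.GU.mou_nU F ho i) H h2
  obtain ⟨L, hL, hb⟩ := h N T D hS (CS * H) (hH.trans hHH) S F lam W
    (fun i => ⟨cv_form (hF i).1, hlip i⟩) ho (fun i => (hF i).2.2.1) (fun i => by
      rcases (hF i).2.2.2 with h1 | ⟨mu, h1, h2⟩ | h1
      · exact Or.inl h1
      · exact Or.inr (Or.inl ⟨mu, (cv_sph (hF i).1 h1).toEigU, h2⟩)
      · exact Or.inr (Or.inr h1))
  refine ⟨L, hL, ?_⟩
  intro k hk1 hk2 t₀ J hJ hJH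
  refine (hb k hk1 hk2 t₀ J hJ (fun i t ht => (hJH i t ht).trans hHH)).trans ?_
  rw [mul_assoc C]
  exact mul_le_mul_of_nonneg_left (Pool.Agent.H47.THN.QK_scale hk2 hH hCS hε) hC.le

lemma weight_sub {m N : ℕ} [NeZero N] {S : Type} {D : Set (V m)}
    {F : S → Mat m → VecMod m N → ℂ} {i : S} {w : ℝ} (h : IsWeight D F i w) (p : S → Prop)
    (hi : p i) : IsWeight D (fun i : {i // p i} => F i.1) ⟨i, hi⟩ w := by
  refine ⟨h.1, ?_⟩
  rcases h.2 with h1 | h1 | h1
  · exact Or.inl h1
  · exact Or.inr (Or.inl h1)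
  · exact Or.inr (Or.inr ⟨fun j hj => h1.1 j.1 (fun h2 => hj (Subtype.ext h2)), h1.2⟩)

/-- size and conductor of the spherical forms for `m ≤ 3` -/
lemma size_order {m : ℕ} (hm1 : 1 ≤ m) (hm3 : m ≤ 3) (mu : Fin m → ℂ) (h0 : ∑ j, mu j = 0)
    (hre : m = 3 → ∀ j, |(mu j).re| ≤ 9) : (1 + ∑ j, ‖mu j‖) ^ (m ^ 2) ≤
      plancherel mu * (2 * 28 ^ 3 * ∏ j, (1 + ‖mu j‖)) ^ (m + 1) := by
  have h7 : 1 ≤ plancherel mu := Pool.Agent.H27.L1.H17.GHK.pl_ge mu
  have h8 : ∀ y : ℝ, 0 ≤ y → y ≤ plancherel mu * y := fun y hy => le_mul_of_one_le_left hy h7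
  interval_cases m
  · rw [Fin.sum_univ_one] at h0
    refine le_trans ?_ (h8 _ (by positivity))
    rw [Fin.sum_univ_one, Fin.prod_univ_one, h0, norm_zero]
    norm_num
  · rw [Fin.sum_univ_two] at h0
    refine le_trans ?_ (h8 _ (by positivity))
    have h1 : ‖mu 1‖ = ‖mu 0‖ := by
      rw [show mu 1 = -mu 0 by linear_combination h0, norm_neg]
    rw [Fin.sum_univ_two, Fin.prod_univ_two, h1]
    have ha := norm_nonneg (mu 0)
    generalize ‖mu 0‖ = a at ha
    calc (1 + (a + a)) ^ (2 ^ 2) ≤ (2 * (1 + a)) ^ 4 := by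
          norm_num
          refine pow_le_pow_left₀ (by positivity) ?_ 4
          linarith
      _ = 16 * (1 + a) ^ 4 := by ring
      _ ≤ 16 * (1 + a) ^ 6 := by
          refine mul_le_mul_of_nonneg_left ?_ (by norm_num)
          exact pow_le_pow_right₀ (by linarith) (by norm_num)
      _ ≤ (2 * 28 ^ 3) ^ 3 * (1 + a) ^ 6 :=
          mul_le_mul_of_nonneg_right (by norm_num) (by positivity)
      _ = (2 * 28 ^ 3 * ((1 + a) * (1 + a))) ^ (2 + 1) := by ring
  · have h6 := Pool.Agent.H27.L1.H17.GHK.m3_pow mu h0 (hre rfl)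
    norm_num at h6 ⊢
    exact h6

/-- the weights for the forms of order at most `X` -/
lemma order_weight : ∃ c : ℝ, 1 ≤ c ∧ ∀ (m N : ℕ) [NeZero N] (T : ℕ → Finset (ZM m))
    (F : Mat m → VecMod m N → ℂ) (lam : ℕ → ℂ) (Q w X : ℝ), 1 ≤ m → Pool.Agent.H27.L1.H34.GM.NZ F →
    IsForm m N T F lam → 1 ≤ Q → 1 ≤ X → OrderLe F Q w X →
      ∃ w' : ℝ, 1 ≤ w' ∧ w' ≤ Q ^ (m * (m - 1) / 2) ∧
        (w' = w ∨ ∃ mu : Fin m → ℂ, IsSpherical F mu ∧ w' = plancherel mu) ∧
        (N : ℝ) ^ (m + 1) * Q ^ (m ^ 2) ≤ w' * (c * X) ^ (m + 1) := by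
  refine ⟨2 * 28 ^ 3, by norm_num, ?_⟩
  intro m N _ T F lam Q w X hm1 hnz hF hQ hX hO
  rcases hO with ⟨h1, h2, h4⟩ | ⟨hm3, mu, hs, hQ3, hR⟩
  · refine ⟨w, h1, h2, Or.inl rfl, h4.trans ?_⟩
    have h5 : X ≤ 2 * 28 ^ 3 * X := by nlinarith
    gcongr
  · have hre : m = 3 → ∀ j, |(mu j).re| ≤ 9 := by
      intro h3
      subst h3
      intro j
      have h5 := Pool.Agent.H27.L1.H46.GHK.re_bd mu hs.sum_mu
        (fun j => Pool.Agent.H27.L1.H34.GU.b_APU 3 N T F lam mu (by norm_num) (cv_sph hF hs).toEigU hnz j) j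
      norm_num at h5
      exact h5
    have h6 := size_order hm1 hm3 mu hs.sum_mu hre
    have h7 : 1 ≤ plancherel mu := Pool.Agent.H27.L1.H17.GHK.pl_ge mu
    refine ⟨plancherel mu, h7, ?_, Or.inr ⟨mu, hs, rfl⟩, ?_⟩
    · rw [hQ3]
      exact Pool.Agent.H27.L1.H17.GHK.pl_le mu
    · have h8 : (0 : ℝ) ≤ ∏ j, (1 + ‖mu j‖) := Finset.prod_nonneg fun j _ => by positivity
      have hN : (0 : ℝ) ≤ N := Nat.cast_nonneg N
      have h9 : (0 : ℝ) ≤ plancherel mu := zero_le_one.trans h7
      calc (N : ℝ) ^ (m + 1) * Q ^ (m ^ 2) = N ^ (m + 1) * (1 + ∑ j, ‖mu j‖) ^ (m ^ 2) := by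
            rw [hQ3]
        _ ≤ N ^ (m + 1) * (plancherel mu * (2 * 28 ^ 3 * ∏ j, (1 + ‖mu j‖)) ^ (m + 1)) :=
            mul_le_mul_of_nonneg_left h6 (by positivity)
        _ = plancherel mu * (2 * 28 ^ 3 * (N * ∏ j, (1 + ‖mu j‖))) ^ (m + 1) := by
            rw [show (2 : ℝ) * 28 ^ 3 * (N * ∏ j, (1 + ‖mu j‖)) =
              N * (2 * 28 ^ 3 * ∏ j, (1 + ‖mu j‖)) by ring, mul_pow (N : ℝ)]
            ring
        _ ≤ plancherel mu * (2 * 28 ^ 3 * X) ^ (m + 1) := by gcongr

/-- a Lipschitz constant from the size -/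
theorem lip_size (m : ℕ) (hm1 : 1 ≤ m) : ∃ CS : ℝ, 1 ≤ CS ∧
    ∀ (N : ℕ) [NeZero N] (T : ℕ → Finset (ZM m)) (D : Set (V m)),
      Pool.Agent.H27.L1.H34.GZ.SysZ m N T D → ∀ (S : Type) [DecidableEq S]
      (F : S → Mat m → VecMod m N → ℂ) (lam : ℕ → ℂ), IsOrthonormal D F → ∀ (i : S) (P : ℝ),
      IsForm m N T (F i) lam → IsSize D (F i) P →
        Pool.Agent.H27.L1.H34.GA.Lip D (F i) (CS * P) := by
  obtain ⟨CS, hCS, hSPL⟩ := c_SPL m hm1
  refine ⟨CS, hCS, ?_⟩
  intro N _ T D hS S _ F lam ho i P hF hP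
  have hP0 : 0 < P := by linarith [hP.1]
  rcases hP.2 with h1 | ⟨mu, h1, h2⟩
  · exact lip_mono h1 hP0.le (le_mul_of_one_le_left hP0.le hCS)
  · exact hSPL N T D hS (F i) lam mu (cv_sph hF h1).toEigU
      (Pool.Agent.H27.L1.H34.GU.mou_nU F ho i) P h2

/-- few zeros near the points where the L-function is small on the critical line -/
theorem few_zeros (m K : ℕ) (hm2 : 2 ≤ m) (d : ℝ) (hd : 0 < d) : ∃ B : ℝ, 0 < B ∧
    ∀ (N : ℕ) [NeZero N] (T : ℕ → Finset (ZM m)) (D : Set (V m)), 1 ≤ N → IsReps m T →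
      IsDomain m D → ∀ (S : Type) [DecidableEq S]
      (F : S → Mat m → VecMod m N → ℂ) (lam : ℕ → ℂ), IsOrthonormal D F → ∀ (i : S) (P : ℝ),
      IsForm m N T (F i) lam → IsSize D (F i) P → ∀ L : ℂ → ℂ,
      Pool.Agent.H27.L1.H34.GM.IsL m 1 lam L → ∀ t A : ℝ, |t| ≤ P → 1 ≤ A →
      ManyZeros L d t (B * (1 + Real.log A)) →
        ∃ u : ℝ, A * (1 + |u - t|) ^ K < ‖L (1 / 2 + u * Complex.I)‖ := by
  have hm1 : 1 ≤ m := by omega
  obtain ⟨CS, hCS, hlip⟩ := lip_size m hm1
  obtain ⟨B, hB, hz⟩ := Pool.Agent.H34.ZN.c_ZRO m K hm1 d hd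
  refine ⟨B, hB, ?_⟩
  intro N _ T D hN hT hD S _ F lam ho i P hF hP L hL t A ht hA hM
  have hS : Pool.Agent.H27.L1.H34.GZ.SysZ m N T D := ⟨hm1, hN, Or.inr hm2, cv_reps hT, cv_dom hD⟩
  by_contra hc
  simp only [not_exists, not_lt] at hc
  obtain ⟨Z, hZ, hZ2⟩ := hM
  have hP1 : 1 ≤ P := hP.1
  have hPP : P ≤ CS * P := le_mul_of_one_le_left (by linarith) hCS
  have h1 := hz N T D hS (F i) lam (CS * P) (cv_form hF)
    (Pool.Agent.H27.L1.H34.GU.mou_nU F ho i) (hlip N T D hS S F lam ho i P hF hP)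
    (hP1.trans hPP) L hL t A (ht.trans hPP) hA hc Z hZ
  linarith

open Classical in
theorem result :
    ∀ m : ℕ, 2 ≤ m →
    (∃ (T : ℕ → Finset (ZM m)) (D : Set (V m)), IsReps m T ∧ IsDomain m D) ∧
    ∀ δ : ℝ, 0 < δ → ∃ B : ℝ, 0 < B ∧ ∀ ε : ℝ, 0 < ε → ∃ C : ℝ, 0 < C ∧
      ∀ (T : ℕ → Finset (ZM m)) (D : Set (V m)), IsReps m T → IsDomain m D →
      ∀ (S : ℕ → Type) [∀ N, Fintype (S N)] [∀ N, DecidableEq (S N)]
        (F : ∀ N : ℕ, S N → Mat m → VecMod m N → ℂ) (lam : ∀ N : ℕ, S N → ℕ → ℂ)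
        (Q w : ∀ N : ℕ, S N → ℝ),
        (∀ (N : ℕ) [NeZero N], 1 ≤ N →
          (∀ i, IsForm m N T (F N i) (lam N i) ∧ IsSize D (F N i) (Q N i) ∧
            IsWeight D (F N) i (w N i)) ∧ IsOrthonormal D (F N)) →
      ∃ L : ∀ N : ℕ, S N → ℂ → ℂ,
        (∀ N : ℕ, 1 ≤ N → ∀ i, IsLFunction m (lam N i) (L N i)) ∧
        (∀ N : ℕ, 1 ≤ N → ∀ k : ℕ, 1 ≤ k → k ≤ 2 → ∀ H t₀ : ℝ, 1 ≤ H →
          (∀ J : S N → Finset ℝ, (∀ i, IsSpaced (J i) ∧ ∀ t ∈ J i, |t - t₀| ≤ H) →
            ∑ i with Q N i ≤ H, w N i * ∑ t ∈ J i, ‖L N i (1 / 2 + t * Complex.I)‖ ^ (2 * k) ≤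
              C * (N * (H + |t₀|)) ^ ε * windowSize m k N H t₀) ∧
          ∑ i with Q N i ≤ H, ENNReal.ofReal (w N i) * ∫⁻ t in Set.Icc (t₀ - H) (t₀ + H),
            ENNReal.ofReal (‖L N i (1 / 2 + t * Complex.I)‖ ^ (2 * k)) ≤
              ENNReal.ofReal (C * (N * (H + |t₀|)) ^ ε * windowSize m k N H t₀)) ∧
        ∀ X : ℝ, 1 ≤ X →
          (∀ t : ∀ N : ℕ, S N → ℝ, (∀ N : ℕ, 1 ≤ N → ∀ i, |t N i| ≤ Q N i) →
            ∑ N ∈ Finset.Icc 1 ⌊X⌋₊, ∑ i with OrderLe (F N i) (Q N i) (w N i) X,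
              ‖L N i (1 / 2 + t N i * Complex.I)‖ ^ 4 ≤ C * X ^ ((m : ℝ) + 1 + ε)) ∧
          ∀ η : ℝ, 0 ≤ η → ((∑ N ∈ Finset.Icc 1 ⌊X⌋₊, (Finset.univ.filter fun i : S N =>
            OrderLe (F N i) (Q N i) (w N i) X ∧ ∃ t : ℝ, |t| ≤ Q N i ∧
              (X ^ η < ‖L N i (1 / 2 + t * Complex.I)‖ ∨
                ManyZeros (L N i) δ t (B * (1 + η * Real.log X)))).card : ℕ) : ℝ) ≤
                  C * X ^ ((m : ℝ) + 1 - 4 * η + ε) := by
  intro m hm2
  have hm1 : 1 ≤ m := by omega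
  refine ⟨?_, ?_⟩
  · obtain ⟨T, hT⟩ := Pool.Agent.H27.L1.H34.GZ.f_EXT m hm1
    obtain ⟨D, hD⟩ := Pool.Agent.H27.L1.H34.GZ.f_EXD m hm1
    exact ⟨T, D, ⟨hT.mem, hT.uniq⟩, ⟨hD.meas, hD.shell, hD.fund⟩⟩
  · intro δ hδ
    obtain ⟨B, hB, hfew⟩ := few_zeros m (m ^ 2 + 1) hm2 δ hδ
    refine ⟨B, hB, ?_⟩
    intro ε hε
    obtain ⟨e1, CU, he1, hCU, hU⟩ := Pool.Agent.H27.L1.H68.GHK.universal_sum_w m hm1 ε hε
    obtain ⟨e2, he2⟩ : ∃ e2 : ℝ, e2 = min e1 1 := ⟨_, rfl⟩
    have he20 : 0 < e2 := by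
      rw [he2]
      exact lt_min he1 one_pos
    have he21 : e2 ≤ 1 := by
      rw [he2]
      exact min_le_right _ _
    have he2e : e2 ≤ e1 := by
      rw [he2]
      exact min_le_left _ _
    obtain ⟨C1, hC1, h1⟩ := one_window m hm2 ε hε
    obtain ⟨C2, hC2, h2⟩ := one_level m hm2 e2 he20
    obtain ⟨c, hc1, hord⟩ := order_weight
    have hc0 : 0 < c := by linarith
    obtain ⟨CD, hCD⟩ : ∃ CD : ℝ, CD = CU * C2 * c ^ ((m : ℝ) + 1 + ε) := ⟨_, rfl⟩
    obtain ⟨CB, hCB⟩ : ∃ CB : ℝ,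
      CB = 2 ^ (2 * (m ^ 2 + 1) + 1) * (CU * C2 * c ^ ((m : ℝ) + 1 + ε)) := ⟨_, rfl⟩
    have hCD0 : 0 < CD := by
      rw [hCD]
      positivity
    have hCB0 : 0 < CB := by
      rw [hCB]
      positivity
    refine ⟨C1 + CD + CB, by positivity, ?_⟩
    intro T D hT hD S _ _ F lam Q w hF
    have hQ : ∀ N, 1 ≤ N → ∀ i : S N, 1 ≤ Q N i := by
      intro N h2 i
      have : NeZero N := ⟨by omega⟩
      exact ((hF N h2).1 i).2.1.1
    have hw : ∀ N, 1 ≤ N → ∀ i : S N, 0 ≤ w N i := by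
      intro N h2 i
      have : NeZero N := ⟨by omega⟩
      exact ((hF N h2).1 i).2.2.1
    -- the L-functions
    have hL : ∀ N, 1 ≤ N → ∃ L : S N → ℂ → ℂ, ∀ i, Pool.Agent.H27.L1.H34.GM.IsL m 1 (lam N i) (L i) := by
      intro N hN
      have : NeZero N := ⟨by omega⟩
      obtain ⟨hf, ho⟩ := hF N hN
      obtain ⟨L, hL, -⟩ := h1 N T D hN hT hD (1 + ∑ i, Q N i) (by
        have : 0 ≤ ∑ i, Q N i := Finset.sum_nonneg (fun i _ => by
          have := hQ N hN i
          linarith)
        linarith) (S N) (F N) (lam N) (w N) (fun i => ⟨(hf i).1, size_mono (hf i).2.1 (by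
          have h3 : Q N i ≤ ∑ j, Q N j := Finset.single_le_sum (f := fun j => Q N j)
            (fun j _ => by
              have := hQ N hN j
              linarith) (Finset.mem_univ i)
          linarith), (hf i).2.2⟩) ho
      exact ⟨L, hL⟩
    obtain ⟨L, hL1⟩ : ∃ L : ∀ N : ℕ, S N → ℂ → ℂ,
        ∀ N, 1 ≤ N → ∀ i : S N, Pool.Agent.H27.L1.H34.GM.IsL m 1 (lam N i) (L N i) := by
      refine ⟨fun N => if h : 1 ≤ N then (hL N h).choose else fun _ => 0, ?_⟩
      intro N h2 i
      simp only [dif_pos h2]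
      exact (hL N h2).choose_spec i
    -- one level, any exponent, any weights, all heights
    have key : ∀ (ε C : ℝ), (∀ (N : ℕ) [NeZero N] (T : ℕ → Finset (ZM m)) (D : Set (V m)), 1 ≤ N →
        IsReps m T → IsDomain m D → ∀ P : ℝ, 1 ≤ P → ∀ (S : Type) [Fintype S] [DecidableEq S]
        (F : S → Mat m → VecMod m N → ℂ) (lam : S → ℕ → ℂ) (W : S → ℝ),
        (∀ i, IsForm m N T (F i) (lam i) ∧ IsSize D (F i) P ∧ IsWeight D F i (W i)) →
        IsOrthonormal D F → ∃ L : S → ℂ → ℂ,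
          (∀ i, Pool.Agent.H27.L1.H34.GM.IsL m 1 (lam i) (L i)) ∧
          ∀ J : S → Finset ℝ, (∀ i, IsSpaced (J i)) → (∀ i, ∀ t ∈ J i, |t| ≤ P) →
            ∑ i, W i * ∑ t ∈ J i, ‖L i (1 / 2 + t * Complex.I)‖ ^ 4 ≤
              C * ((N : ℝ) * P) ^ ε * ((N : ℝ) ^ m * P ^ (m ^ 2))) → 0 < C → 0 < ε → ε ≤ 1 →
        ∀ w' : ∀ N : ℕ, S N → ℝ,
        (∀ (N : ℕ) [NeZero N], 1 ≤ N → ∀ i, IsWeight D (F N) i (w' N i)) →
        ∀ N : ℕ, 1 ≤ N → ∀ P : ℝ, 1 ≤ P → ∀ R : ℝ, 1 ≤ R →
        ∀ J : {i : S N // Q N i ≤ P} → Finset ℝ,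
          (∀ i, IsSpaced (J i)) → (∀ i, ∀ t ∈ J i, |t| ≤ R * P) →
            ∑ i, w' N i.1 * ∑ t ∈ J i, ‖L N i.1 (1 / 2 + t * Complex.I)‖ ^ 4 ≤
              C * ((N : ℝ) * P) ^ ε * ((N : ℝ) ^ m * P ^ (m ^ 2)) * R ^ (m ^ 2 + 1) := by
      intro ε C h hC hε hε1 w' hw' N hN P hP R hR J hJ hJP
      have : NeZero N := ⟨by omega⟩
      have hR0 : 0 < R := by linarith
      have hP0 : 0 < P := by linarith
      have hN0 : (0 : ℝ) < N := by
        have : 0 < N := by omega
        exact_mod_cast this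
      have hPR : P ≤ R * P := le_mul_of_one_le_left hP0.le hR
      obtain ⟨hf, ho⟩ := hF N hN
      obtain ⟨L', hL', hb⟩ := h N T D hN hT hD (R * P) (hP.trans hPR) {i : S N // Q N i ≤ P}
        (fun i => F N i.1) (fun i => lam N i.1) (fun i => w' N i.1)
        (fun i => ⟨(hf i.1).1, size_mono (hf i.1).2.1 (i.2.trans hPR),
          weight_sub (hw' N hN i.1) (fun i => Q N i ≤ P) i.2⟩)
        (orth_sub ho (fun i => Q N i ≤ P))
      have e : ∀ i : {i : S N // Q N i ≤ P}, L' i = L N i.1 := fun i =>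
        l_uniq (hL' i) (hL1 N hN i.1)
      simp only [← e]
      refine (hb J hJ hJP).trans ?_
      have h5 : R ^ ε ≤ R := by
        calc R ^ ε ≤ R ^ (1 : ℝ) := Real.rpow_le_rpow_of_exponent_le hR hε1
          _ = R := Real.rpow_one R
      calc C * ((N : ℝ) * (R * P)) ^ ε * ((N : ℝ) ^ m * (R * P) ^ (m ^ 2)) =
          C * (((N : ℝ) * P) ^ ε * R ^ ε) * ((N : ℝ) ^ m * (R * P) ^ (m ^ 2)) := by
            rw [← Real.mul_rpow (by positivity) hR0.le]
            congr 3
            ring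
        _ ≤ C * (((N : ℝ) * P) ^ ε * R) * ((N : ℝ) ^ m * (R * P) ^ (m ^ 2)) := by gcongr
        _ = _ := by
            rw [mul_pow, pow_succ]
            ring
    -- one level, the windows
    have keyW : ∀ N : ℕ, 1 ≤ N → ∀ k : ℕ, 1 ≤ k → k ≤ 2 → ∀ H t₀ : ℝ, 1 ≤ H →
        ∀ J : {i : S N // Q N i ≤ H} → Finset ℝ,
          (∀ i, IsSpaced (J i)) → (∀ i, ∀ t ∈ J i, |t - t₀| ≤ H) →
            ∑ i, w N i.1 * ∑ t ∈ J i, ‖L N i.1 (1 / 2 + t * Complex.I)‖ ^ (2 * k) ≤
              C1 * (((N : ℝ) * (H + |t₀|)) ^ ε * windowSize m k N H t₀) := by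
      intro N hN k hk1 hk2 H t₀ hH J hJ hJH
      have : NeZero N := ⟨by omega⟩
      obtain ⟨hf, ho⟩ := hF N hN
      obtain ⟨L', hL', hb⟩ := h1 N T D hN hT hD H hH {i : S N // Q N i ≤ H} (fun i => F N i.1)
        (fun i => lam N i.1) (fun i => w N i.1)
        (fun i => ⟨(hf i.1).1, size_mono (hf i.1).2.1 i.2,
          weight_sub (hf i.1).2.2 (fun i => Q N i ≤ H) i.2⟩)
        (orth_sub ho (fun i => Q N i ≤ H))
      have e : ∀ i : {i : S N // Q N i ≤ H}, L' i = L N i.1 := fun i =>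
        l_uniq (hL' i) (hL1 N hN i.1)
      simp only [← e]
      exact hb k hk1 hk2 t₀ J hJ hJH
    refine ⟨L, fun N h2 i => cv_l (hL1 N h2 i), ?_, ?_⟩
    · -- one level
      intro N hN k hk1 hk2 H t₀ hH
      have hW0 : 0 ≤ windowSize m k N H t₀ := by
        unfold windowSize
        positivity
      have hle : C1 * (((N : ℝ) * (H + |t₀|)) ^ ε * windowSize m k N H t₀) ≤
          (C1 + CD + CB) * (N * (H + |t₀|)) ^ ε * windowSize m k N H t₀ := by
        have : C1 ≤ C1 + CD + CB := by linarith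
        rw [← mul_assoc]
        gcongr
      refine ⟨?_, ?_⟩
      · intro J hJ
        refine le_trans (le_of_eq ?_) ((keyW N hN k hk1 hk2 H t₀ hH (fun i => J i.1)
          (fun i => (hJ i.1).1) (fun i => (hJ i.1).2)).trans hle)
        exact (Finset.sum_subtype (Finset.univ.filter fun i : S N => Q N i ≤ H)
          (fun i => by simp) (fun i => w N i * ∑ t ∈ J i,
            ‖L N i (1 / 2 + t * Complex.I)‖ ^ (2 * k)))
      · have h3 := Pool.Agent.H47.THN.spaced_win (ι := {i : S N // Q N i ≤ H}) H t₀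
          (g := fun i t => w N i.1 * ‖L N i.1 (1 / 2 + t * Complex.I)‖ ^ (2 * k))
          (Q := (C1 + CD + CB) * (N * (H + |t₀|)) ^ ε *
            windowSize m k N H t₀) (by
            intro i t
            exact mul_nonneg (hw N hN i.1) (by positivity)) (by
            intro i
            have h3 : Continuous (L N i.1) := (hL1 N hN i.1).1.continuous
            exact continuous_const.mul ((h3.comp (by fun_prop)).norm.pow (2 * k))) (by positivity) (by
            intro J hJ hJH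
            simp only [← Finset.mul_sum]
            exact (keyW N hN k hk1 hk2 H t₀ hH J hJ hJH).trans hle)
        refine le_trans (le_of_eq ?_) h3
        rw [Finset.sum_subtype (Finset.univ.filter fun i : S N => Q N i ≤ H)
          (p := fun i => Q N i ≤ H) (fun i => by simp) (fun i => ENNReal.ofReal (w N i) *
            ∫⁻ t in Set.Icc (t₀ - H) (t₀ + H),
              ENNReal.ofReal (‖L N i (1 / 2 + t * Complex.I)‖ ^ (2 * k)))]
        refine Finset.sum_congr rfl (fun i _ => ?_)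
        rw [← lintegral_const_mul']
        · refine lintegral_congr (fun t => ?_)
          rw [ENNReal.ofReal_mul (hw N hN i.1)]
        · exact ENNReal.ofReal_ne_top
    · -- all levels
      intro X hX
      have hX0 : 0 < X := by linarith
      -- the weights of the orders
      have hex : ∀ N, 1 ≤ N → ∀ i : S N, ∃ w' : ℝ, 1 ≤ w' ∧ w' ≤ Q N i ^ (m * (m - 1) / 2) ∧
          (w' = 1 ∨ w' = w N i ∨ ∃ mu : Fin m → ℂ, IsSpherical (F N i) mu ∧ w' = plancherel mu) ∧
          (OrderLe (F N i) (Q N i) (w N i) X →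
            (N : ℝ) ^ (m + 1) * Q N i ^ (m ^ 2) ≤ w' * (c * X) ^ (m + 1)) := by
        intro N hN i
        have : NeZero N := ⟨by omega⟩
        obtain ⟨hf, ho⟩ := hF N hN
        by_cases hO : OrderLe (F N i) (Q N i) (w N i) X
        · obtain ⟨w', h3, h4, h5, h6⟩ := hord m N T (F N i) (lam N i) (Q N i) (w N i) X hm1
            (cv_nz hD hm1 ho i) (hf i).1 (hQ N hN i) hX hO
          exact ⟨w', h3, h4, Or.inr h5, fun _ => h6⟩
        · exact ⟨1, le_rfl, one_le_pow₀ (hQ N hN i), Or.inl rfl, fun h => absurd h hO⟩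
      obtain ⟨w', hw1, hw2, hw3, hw4⟩ : ∃ w' : ∀ N : ℕ, S N → ℝ,
          (∀ N, 1 ≤ N → ∀ i, 1 ≤ w' N i) ∧
          (∀ N, 1 ≤ N → ∀ i, w' N i ≤ Q N i ^ (m * (m - 1) / 2)) ∧
          (∀ N, 1 ≤ N → ∀ i, w' N i = 1 ∨ w' N i = w N i ∨
            ∃ mu : Fin m → ℂ, IsSpherical (F N i) mu ∧ w' N i = plancherel mu) ∧
          ∀ N, 1 ≤ N → ∀ i, OrderLe (F N i) (Q N i) (w N i) X →
            (N : ℝ) ^ (m + 1) * Q N i ^ (m ^ 2) ≤ w' N i * (c * X) ^ (m + 1) := by
        refine ⟨fun N i => if h : 1 ≤ N then (hex N h i).choose else 1, ?_, ?_, ?_, ?_⟩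
        · intro N hN i
          simp only [dif_pos hN]
          exact (hex N hN i).choose_spec.1
        · intro N hN i
          simp only [dif_pos hN]
          exact (hex N hN i).choose_spec.2.1
        · intro N hN i
          simp only [dif_pos hN]
          exact (hex N hN i).choose_spec.2.2.1
        · intro N hN i
          simp only [dif_pos hN]
          exact (hex N hN i).choose_spec.2.2.2
      have hwt' : ∀ (N : ℕ) [NeZero N], 1 ≤ N → ∀ i, IsWeight D (F N) i (w' N i) := by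
        intro N _ hN i
        rcases hw3 N hN i with h3 | h3 | ⟨mu, h3, h4⟩
        · rw [h3]
          exact ⟨zero_le_one, Or.inl le_rfl⟩
        · rw [h3]
          exact ((hF N hN).1 i).2.2
        · exact ⟨by linarith [hw1 N hN i], Or.inr (Or.inl ⟨mu, h3, h4.le⟩)⟩
      have hall : ∀ R : ℝ, 1 ≤ R → ∀ t : ∀ N : ℕ, S N → ℝ,
          (∀ N : ℕ, 1 ≤ N → ∀ i, |t N i| ≤ R * Q N i) →
          ∑ N ∈ Finset.Icc 1 ⌊X⌋₊, ∑ i with OrderLe (F N i) (Q N i) (w N i) X,
            ‖L N i (1 / 2 + t N i * Complex.I)‖ ^ 4 ≤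
              CU * C2 * c ^ ((m : ℝ) + 1 + ε) * X ^ ((m : ℝ) + 1 + ε) * R ^ (m ^ 2 + 1) := by
        intro R hR t ht
        have hR0 : 0 < R := by linarith
        have hcX : 1 ≤ c * X := by nlinarith
        have h5 := hU (C2 * R ^ (m ^ 2 + 1)) (by positivity) 1 le_rfl S Q w'
          (fun N i => ‖L N i (1 / 2 + t N i * Complex.I)‖ ^ 4)
          (fun N hN i => ⟨hQ N hN i, hw1 N hN i, hw2 N hN i, by positivity⟩) (by
          intro N hN P hP
          have hN0 : (0 : ℝ) < N := by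
            have : 0 < N := by omega
            exact_mod_cast this
          have hN1 : (1 : ℝ) ≤ N := by exact_mod_cast hN
          have hNP : 1 ≤ (N : ℝ) * P := by nlinarith
          have h3 := key e2 C2 h2 hC2 he20 he21 w' hwt' N hN P hP R hR (fun i => {t N i.1})
            (fun i => by
            intro a ha b hb hab
            rw [Finset.mem_singleton] at ha hb
            exact absurd (ha.trans hb.symm) hab) (fun i a ha => by
            rw [Finset.mem_singleton] at ha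
            rw [ha]
            exact (ht N hN i.1).trans (mul_le_mul_of_nonneg_left i.2 hR0.le))
          simp only [Finset.sum_singleton] at h3
          calc ∑ i ∈ Finset.univ.filter (fun i : S N => Q N i ≤ P),
                w' N i * ‖L N i (1 / 2 + t N i * Complex.I)‖ ^ 4 =
              ∑ i : {i : S N // Q N i ≤ P},
                w' N i.1 * ‖L N i.1 (1 / 2 + t N i.1 * Complex.I)‖ ^ 4 :=
                Finset.sum_subtype (Finset.univ.filter fun i : S N => Q N i ≤ P)
                  (fun i => by simp) (fun i => w' N i * ‖L N i (1 / 2 + t N i * Complex.I)‖ ^ 4)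
            _ ≤ _ := h3
            _ ≤ C2 * ((N : ℝ) * P) ^ e1 * ((N : ℝ) ^ m * P ^ (m ^ 2)) * R ^ (m ^ 2 + 1) := by
                have h6 : ((N : ℝ) * P) ^ e2 ≤ ((N : ℝ) * P) ^ e1 :=
                  Real.rpow_le_rpow_of_exponent_le hNP he2e
                gcongr
            _ = C2 * R ^ (m ^ 2 + 1) * ((N : ℝ) * P) ^ e1 * ((N : ℝ) ^ m * P ^ (m ^ 2)) := by
                ring) (c * X) hcX
        calc ∑ N ∈ Finset.Icc 1 ⌊X⌋₊, ∑ i with OrderLe (F N i) (Q N i) (w N i) X,
              ‖L N i (1 / 2 + t N i * Complex.I)‖ ^ 4 ≤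
            ∑ N ∈ Finset.Icc 1 ⌊c * X⌋₊, ∑ i ∈ Finset.univ.filter (fun i : S N =>
              (N : ℝ) ^ (m + 1) * Q N i ^ (m ^ 2) ≤ w' N i * (c * X) ^ (m + 1)),
              ‖L N i (1 / 2 + t N i * Complex.I)‖ ^ 4 := by
              refine (Finset.sum_le_sum fun N hN => ?_).trans
                (Finset.sum_le_sum_of_subset_of_nonneg (Finset.Icc_subset_Icc_right
                  (Nat.floor_mono (le_mul_of_one_le_left hX0.le hc1)))
                  (fun N _ _ => Finset.sum_nonneg fun i _ => by positivity))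
              refine Finset.sum_le_sum_of_subset_of_nonneg ?_ (fun i _ _ => by positivity)
              intro i hi
              rw [Finset.mem_filter] at hi ⊢
              exact ⟨hi.1, hw4 N (Finset.mem_Icc.1 hN).1 i hi.2⟩
          _ ≤ CU * (C2 * R ^ (m ^ 2 + 1)) * (c * X) ^ ((m : ℝ) + 1 + ε) := h5
          _ = _ := by
              rw [Real.mul_rpow hc0.le hX0.le]
              ring
      refine ⟨?_, ?_⟩
      · intro t ht
        refine (hall 1 le_rfl t (fun N hN i => by
          rw [one_mul]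
          exact ht N hN i)).trans ?_
        rw [one_pow, mul_one, ← hCD]
        have h7 : CD ≤ C1 + CD + CB := by linarith
        gcongr
      intro η hη
      obtain ⟨A, hA⟩ : ∃ A : ℝ, A = X ^ η := ⟨_, rfl⟩
      have hA1 : 1 ≤ A := by
        rw [hA]
        exact Real.one_le_rpow hX hη
      have hlog : Real.log A = η * Real.log X := by
        rw [hA, Real.log_rpow hX0]
      have hA4 : A ^ 4 = X ^ (4 * η) := by
        rw [hA, ← Real.rpow_natCast, ← Real.rpow_mul hX0.le]
        congr 1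
        push_cast
        ring
      -- the index set
      have hmem : ∀ x : (Σ N : {N : ℕ // N ∈ Finset.Icc 1 ⌊X⌋₊}, {i : S N.1 //
          OrderLe (F N.1 i) (Q N.1 i) (w N.1 i) X}), 1 ≤ x.1.1 := fun x =>
        (Finset.mem_Icc.1 x.1.2).1
      have hsig : ∀ f : ∀ N : ℕ, S N → ℝ,
          ∑ x : (Σ N : {N : ℕ // N ∈ Finset.Icc 1 ⌊X⌋₊}, {i : S N.1 //
            OrderLe (F N.1 i) (Q N.1 i) (w N.1 i) X}), f x.1.1 x.2.1 =
          ∑ N ∈ Finset.Icc 1 ⌊X⌋₊, ∑ i with OrderLe (F N i) (Q N i) (w N i) X, f N i := by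
        intro f
        rw [Fintype.sum_sigma]
        rw [← Finset.sum_coe_sort (Finset.Icc 1 ⌊X⌋₊)
          (fun N => ∑ i with OrderLe (F N i) (Q N i) (w N i) X, f N i)]
        refine Finset.sum_congr rfl fun N _ => ?_
        exact (Finset.sum_subtype (Finset.univ.filter fun i : S N.1 =>
          OrderLe (F N.1 i) (Q N.1 i) (w N.1 i) X) (fun i => by simp) (fun i => f N.1 i)).symm
      have hdya := Pool.Agent.H12.ZN.dya (ι := (Σ N : {N : ℕ // N ∈ Finset.Icc 1 ⌊X⌋₊},
          {i : S N.1 // OrderLe (F N.1 i) (Q N.1 i) (w N.1 i) X})) (m ^ 2 + 1) (m ^ 2 + 1)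
        (by omega) (fun x u => ‖L x.1.1 x.2.1 (1 / 2 + u * Complex.I)‖)
        (fun x u => norm_nonneg _) (fun x => Q x.1.1 x.2.1) (fun _ => 1)
        (fun x => hQ x.1.1 (hmem x) x.2.1) (fun _ => zero_le_one)
        (CU * C2 * c ^ ((m : ℝ) + 1 + ε) * X ^ ((m : ℝ) + 1 + ε)) A (by positivity)
        (by linarith) (by
          intro R hR u hu
          have hR0 : 0 < R := by linarith
          have h6 := hall R hR (fun N i => if h : ∃ (hN : N ∈ Finset.Icc 1 ⌊X⌋₊),
              OrderLe (F N i) (Q N i) (w N i) X then u ⟨⟨N, h.choose⟩, ⟨i, h.choose_spec⟩⟩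
              else 0) (by
            intro N hN i
            simp only
            split_ifs with h
            · exact hu ⟨⟨N, h.choose⟩, ⟨i, h.choose_spec⟩⟩
            · rw [abs_zero]
              have := hQ N hN i
              positivity)
          rw [← hsig (fun N i => ‖L N i (1 / 2 + ((if h : ∃ (hN : N ∈ Finset.Icc 1 ⌊X⌋₊),
              OrderLe (F N i) (Q N i) (w N i) X then u ⟨⟨N, h.choose⟩, ⟨i, h.choose_spec⟩⟩
              else 0 : ℝ) : ℂ) * Complex.I)‖ ^ 4)] at h6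
          refine le_trans (le_of_eq ?_) h6
          refine Finset.sum_congr rfl fun x _ => ?_
          have h7 : ∃ (hN : x.1.1 ∈ Finset.Icc 1 ⌊X⌋₊),
            OrderLe (F x.1.1 x.2.1) (Q x.1.1 x.2.1) (w x.1.1 x.2.1) X := ⟨x.1.2, x.2.2⟩
          rw [one_mul, dif_pos h7])
      have hcard : ((∑ N ∈ Finset.Icc 1 ⌊X⌋₊, (Finset.univ.filter fun i : S N =>
              OrderLe (F N i) (Q N i) (w N i) X ∧ ∃ t : ℝ, |t| ≤ Q N i ∧
                (X ^ η < ‖L N i (1 / 2 + t * Complex.I)‖ ∨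
                  ManyZeros (L N i) δ t (B * (1 + η * Real.log X)))).card : ℕ) : ℝ) ≤
          ∑ x : (Σ N : {N : ℕ // N ∈ Finset.Icc 1 ⌊X⌋₊}, {i : S N.1 //
            OrderLe (F N.1 i) (Q N.1 i) (w N.1 i) X}),
              (if ∃ t : ℝ, |t| ≤ Q x.1.1 x.2.1 ∧ ∃ u : ℝ, A * (1 + |u - t|) ^ (m ^ 2 + 1) <
                ‖L x.1.1 x.2.1 (1 / 2 + u * Complex.I)‖ then (1 : ℝ) else 0) := by
        rw [hsig (fun N i => if ∃ t : ℝ, |t| ≤ Q N i ∧ ∃ u : ℝ,
          A * (1 + |u - t|) ^ (m ^ 2 + 1) < ‖L N i (1 / 2 + u * Complex.I)‖ then (1 : ℝ) else 0),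
          Nat.cast_sum]
        refine Finset.sum_le_sum fun N hN => ?_
        have hN1 := (Finset.mem_Icc.1 hN).1
        have : NeZero N := ⟨by omega⟩
        rw [Finset.card_eq_sum_ones, Nat.cast_sum, Finset.sum_filter, Finset.sum_filter]
        refine Finset.sum_le_sum fun i _ => ?_
        by_cases hO : OrderLe (F N i) (Q N i) (w N i) X
        · rw [if_pos hO]
          by_cases hM : ∃ t : ℝ, |t| ≤ Q N i ∧ (X ^ η < ‖L N i (1 / 2 + t * Complex.I)‖ ∨
            ManyZeros (L N i) δ t (B * (1 + η * Real.log X)))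
          · rw [if_pos ⟨hO, hM⟩]
            obtain ⟨t, ht, hMZ⟩ := hM
            have h8 : ∃ u : ℝ, A * (1 + |u - t|) ^ (m ^ 2 + 1) <
                ‖L N i (1 / 2 + u * Complex.I)‖ := by
              rcases hMZ with hbig | hMZ
              · refine ⟨t, ?_⟩
                rw [sub_self, abs_zero, add_zero, one_pow, mul_one, hA]
                exact hbig
              · rw [← hlog] at hMZ
                exact hfew N T D hN1 hT hD (S N) (F N) (lam N i) (hF N hN1).2 i (Q N i)
                  ((hF N hN1).1 i).1 ((hF N hN1).1 i).2.1 (L N i) (hL1 N hN1 i) t A ht hA1 hMZ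
            rw [if_pos ⟨t, ht, h8⟩, Nat.cast_one]
          · rw [if_neg (fun h => hM h.2)]
            split_ifs <;> norm_num
        · rw [if_neg hO, if_neg (fun h => hO h.1)]
      have hfil : ∑ x : (Σ N : {N : ℕ // N ∈ Finset.Icc 1 ⌊X⌋₊}, {i : S N.1 //
            OrderLe (F N.1 i) (Q N.1 i) (w N.1 i) X}),
              (if ∃ t : ℝ, |t| ≤ Q x.1.1 x.2.1 ∧ ∃ u : ℝ, A * (1 + |u - t|) ^ (m ^ 2 + 1) <
                ‖L x.1.1 x.2.1 (1 / 2 + u * Complex.I)‖ then (1 : ℝ) else 0) ≤
          2 ^ (2 * (m ^ 2 + 1) + 1) * (CU * C2 * c ^ ((m : ℝ) + 1 + ε) *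
            X ^ ((m : ℝ) + 1 + ε)) / A ^ 4 := by
        rw [← Finset.sum_filter]
        exact hdya
      refine hcard.trans (hfil.trans ?_)
      calc 2 ^ (2 * (m ^ 2 + 1) + 1) * (CU * C2 * c ^ ((m : ℝ) + 1 + ε) *
            X ^ ((m : ℝ) + 1 + ε)) / A ^ 4 =
          CB * (X ^ ((m : ℝ) + 1 + ε) * X ^ (-(4 * η))) := by
            rw [hA4, hCB, Real.rpow_neg hX0.le]
            ring
        _ = CB * X ^ ((m : ℝ) + 1 - 4 * η + ε) := by
            rw [← Real.rpow_add hX0]
            congr 2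
            ring
        _ ≤ _ := by
            have : CB ≤ C1 + CD + CB := by linarith
            gcongr

end Pool.Agent.Results.MP_52e316_nt.HybridFamilyFourthMoment
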