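import Pool.Agent.H27.L1.Fin2
import Pool.Agent.H27.L1.H46.GHY.DBK
import Pool.Agent.H27.L1.H62.GHY.SPL
import Pool.Agent.H27.L1.H68.GHK.UNW
import Pool.Agent.H27.L1.H17.GHK.M3
import Pool.Agent.H27.L1.H34.GHY.GBI
import Pool.Agent.H27.L1.H34.GHK.All
import Pool.Agent.H47.THN.WIN
import Pool.Agent.H31.CT.All
import Pool.Agent.H55.CT.UNT
import Pool.Agent.H34.ZF.BL
import Pool.Agent.H55.ZF.All
import Pool.Agent.H47.LX.All
import Pool.Agent.H55.CZ.UNZ

/-!
# The logarithms of the L-functions on GL(m) over the rationals to the right of the critical line, for almost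
all forms and all their twists at once, and their second moment on the line, for every `m ≥ 2` (MP_52e316_nt)

A form of level `N` is a bounded continuous function `F` on
`GL_m(ℤ) \ (GL_m(ℝ) × {primitive vectors modulo N})`, invariant under the positive scalars, an
eigenfunction of ALL Hecke operators, cuspidal, and primitive at `N` (its Fourier coefficients at the
vectors which are not primitive vanish); every cuspidal representation `π` of `GL_m` of conductor `N` with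
central character trivial on the positive reals has such a form, and `L(s, F) = L(s, π)`. There is no
condition on `F` at infinity except the size `P_F`, a Lipschitz constant of `F` in `L²` (for a spherical `F`
with parameters `μ_j` one can take `1 + ∑ |μ_j|`).

Let `S_N` be finite orthonormal sets of forms of conductor `N`, for all `N ≥ 1`, with sizes `P_F` and weights
`w_F ≥ 0` as in `IsWeight` (`w_F ≤ 1`; or `F` spherical and `w_F` at most the majorant of the density of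
Plancherel's measure; or all translates of `F` orthogonal to the other forms and `w_F ≤ 1 / H_F`). Let `K` be a
finite set, and for every `k` in `K` and every `N` let `c_(k,N)(n)` be ANY complex numbers with
`|c_(k,N)(n)| ≤ 1`, for instance a primitive Dirichlet character `χ` modulo `q`, prime to `N`, and let
`q_(k,N) ≥ 1`. Suppose that for every `F` in `S_N` there is a form `G_(k,F)` of conductor at most
`N q_(k,N) ^ m`, of norm `1` and size at most `b P_F`, with the Hecke eigenvalues `c_(k,N)(n) λ_F(n)`: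
`G_(k,F) = F ⊗ χ`. (The twist of a cuspidal representation of conductor `N` by a primitive character modulo
`q`, prime to `N`, is cuspidal of conductor `N q ^ m`, and has the same vectors at infinity, times the sign of
the determinant if `χ` is odd. There are no other hypotheses on `G_(k,F)`, and no multiplicativity of
`c_(k,N)` is used. For `c_(k,N) = 1` one takes `q = 1` and `G_(k,F) = F`; this is also the choice for the
characters which are not prime to `N`.)

For all `b ≥ 1`, `δ > 0` and `κ > 0` the theorem gives constants `a(m, b, δ, κ) > 0` and `A(m, b, δ, κ)`, and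
`C(m, b, δ, κ, ε)`, such that, with `f_Z(σ) = A (1 + log Z) ^ (max(1 - σ, 0) + κ)`, for every `k` in `K`,

* for all `H ≥ 1` and real `t₀`, with `V = q_(k,N) (H + |t₀|)`:
  `∑ over F in S_N with P_F ≤ H of w_F ∫ over |t - t₀| ≤ H of |L(1/2 + it, G_(k,F))|² ≤
  C (N V) ^ ε (N ^ m H ^ (m ^ 2) + (N V ^ m) ^ (m / 2))`, also for sums over `1`-spaced points;
* the same sum of `w_F` times the number of the integers `h` with `|h - t₀| ≤ H` near which
  `exp(-f_R(Re s)) ≤ |L(s, G_(k,F))| ≤ exp(f_R(Re s))` is false for some `s` with real part at least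
  `1/2 + δ`, `R = N H ^ m`, is at most the same bound times `R ^ (-a)`;
* let `X ≥ 1`, `Y ≥ 0`, and `τ_(k,N)` real with `(q_(k,N) (1 + |τ_(k,N)| + Y)) ^ m ≤ X` for all `k` and
  `N ≤ X`: the sum over all `F` of all levels with `N R_F ≤ X` (for `m ≤ 3` and spherical `F` this is the
  analytic conductor) of `|L(1/2 + i t_F, G_(k,F))|²` is at most `C X ^ (m + 1 + ε)`, for all real `t_F` with
  `|t_F - τ_(k,N)| ≤ P_F`;
* for the same `X`, `Y`, `τ`: all `F` of all levels with `N R_F ≤ X`, with at most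
  `C |K| (1 + Y) X ^ (m + 1 - 2 η + ε)` exceptions, satisfy `|L(1/2 + it, G_(k,F))| ≤ X ^ η` for ALL `k` in `K` and
  ALL `t` with `|t - τ_(k,N)| ≤ max(Y, P_F)`; and all `F` with `N R_F ≤ X`, with at most
  `C |K| (1 + Y) X ^ (m + 1 - a)` exceptions, satisfy
  `exp(-f_X(Re s)) ≤ |L(s, G_(k,F))| ≤ exp(f_X(Re s))` for ALL `k` in `K` and ALL `s` with real part at least
  `1/2 + δ` and `|Im s - τ_(k,N)| ≤ max(Y, P_F)`. In particular none of these L-functions has a zero there.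

For comparison: for one `G` of analytic conductor `X`, even the Riemann hypothesis and Ramanujan's conjecture for
`L(s, G)` are only known to give `|log L(s, G)| ≤ (log X) ^ (max(2 - 2 σ, 0) + κ)` for `σ ≥ 1/2 + δ`; the exponent
`1 - σ` is the one of Montgomery's conjecture on the maximal order of `log ζ(s)`. So, for almost all forms and
ALL their twists at once, the theorem gives more than GRH is known to give for each of them. For `κ < δ` the
function `f_X(σ)` is smaller than every multiple of `log X`, so `X ^ (-η) ≤ |L(s, G)| ≤ X ^ η` for large `X`.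

For example, let `τ = 0`, `Y = X ^ (a / 4)`, and let `K` be the set of the primitive characters of conductor at
most `X ^ (a / 8)` (we can assume that `a ≤ 1 / m` and `a ≤ η`, and `X` is large). There are about `X ^ (m + 1)`
forms with `N R_F ≤ X`, and for all but `C X ^ (m + 1 - a / 2)` of them, the L-functions of `F` AND OF ALL THE
TWISTS `F ⊗ χ`, `χ` in `K` prime to the level, are at most `X ^ η` on the critical line up to the height
`X ^ (a / 4)`, and satisfy the last bounds, and so have no zeros, with real part at least `1/2 + δ` up to this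
height. The other clauses are about larger `q` and `τ`: the L-functions have analytic conductors up to `X²`,
but the family has only `X ^ (m + 1)` members; the third clause is Lindelöf's bound on average, and the fourth
one (with `Y = 0`) is a power saving for the number of the forms with large values or zeros, uniformly for the
twists by all the characters with `q (1 + |τ|) ≤ X ^ (1 / m)`, and for the L-functions of the family themselves
at all heights up to `X ^ (1 / m)`. In the first clause, there are about `N ^ m H ^ (m ^ 2 - 1)` orthonormal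
forms of conductor `N` and size at most `H`, and the analytic conductor of `L(1/2 + it, F ⊗ χ)` is `N V ^ m` in
the window, so the bound is what the Lindelöf hypothesis gives on average whenever the number of the pairs
`(F, t)` is at least the power `m / 2` of the conductor, that is for `q U ≤ N ^ (1 / m) H ²`, `U = H + |t₀|`.
The twists by a fixed `χ` are a thin family in the set of the forms of conductor `N q ^ m`: the number of its
members is about the square root of the number of all the forms of this conductor if `q = N ^ (1 / m)` and `H`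
is bounded. (The remarks on numbers, conductors, `π`, and this paragraph are not part of the theorem.)

Idea of the proof. The large sieve for `∑ over n of b(n) λ_F(n) n ^ (-it)` over the pairs `(F, t)`, `P_F ≤ H`,
`|t - t₀| ≤ H`, holds with the constants of the level `N` for ALL bounded coefficients `b(n)`, so also for
`b(n) c(n)`: this is the sieve for the eigenvalues of the `G_F`, which belong to forms of larger level. The
approximate functional equation of `L(s, G_F)` is taken at the level of `G_F`, from Poisson summation over the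
integer matrices `α` with `α x = y`, with local factors at infinity given by coefficient functions of `G_F`.
For the values to the right of the line let `R = N H ^ m`, and let `z` be a small fixed power of `R`. The
product of `L(s, G_F)` and of the inverses of its local factors at the primes `p ≤ z`, which are polynomials
of degree at most `m` in `p ^ (-s)`, is `1 + O(1 / z)` far to the right; if it is at most `R ^ η` for real part at
least `1/2 + δ / 2`, `η` small, then it differs from `1` by at most `1/2` for real part at least `1/2 + δ`, by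
Hadamard's three circles. For `L(s, G_F)` the bound `R ^ η` comes, with few exceptions, from the second moment,
the principle of Phragmén and Lindelöf and the Mellin transform of a coefficient function of `G_F`. So the
logarithm of `L(s, G_F)` is the sum of the logarithms of the local factors at the primes `p ≤ z` up to `O(1)`.
The large sieve holds in the `l²` form: for ALL complex `v_n`, all `N` and `H ≥ 1`, real `t₀` and `y ≥ 1`,
`∑ over F in S_N with P_F ≤ H of w_F ∫ over |t - t₀| ≤ H of |∑ over n ≤ y of v_n λ_F(n) n ^ (-it)|² ≤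
C (N H y) ^ ε N ^ m H ^ (m ^ 2) (1 + y / (N H ^ m)) ^ m ∑ over n ≤ y of |v_n|²`
(the theorem `c_LXF` of the imported files), because the number of the lattices of index exactly `n` is small.
For ONE coefficient `n = p ^ J` about `R`, and with the recursion of order `m` for the `λ(p ^ k)`, it follows
that Ramanujan's conjecture `|λ(p ^ k)| ≤ C p ^ (k κ)` holds for all primes `p ≤ z`, with few exceptions. So
the primes up to `log R` contribute at most `(log R) ^ (max(1 - σ, 0) + κ)`, and the prime powers at most `O(1)`.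
For a dyadic interval `I` of larger primes the sum of the `λ(p) p ^ (-s)` over `p` in `I` is controlled by Newton's
identities and the large sieve for the products of `l` different primes of `I` with product about `R`: as the
products of `l` primes are rare among the integers, by the factor `l!`, the intervals above `log R` contribute at
most `(log R) ^ (1 - σ + κ)`. All this uses the eigenvalues of `G_F` only through Dirichlet polynomials of length
`R` whose coefficients are at most those of `F`, so the size of the conductor of `G_F` does not matter. The union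
over `k` and over the windows of length `1` is trivial, as the exceptional sets have a power saving.
-/

set_option autoImplicit false

namespace Pool.Agent.Results.MP_52e316_nt.OffTheLine

open MeasureTheory

/-- real `m × m` matrices -/
abbrev Mat (m : ℕ) := Matrix (Fin m) (Fin m) ℝ

/-- the same space, with Lebesgue measure and the maximum norm -/
abbrev V (m : ℕ) := Fin m → Fin m → ℝ

/-- integer `m × m` matrices -/
abbrev ZM (m : ℕ) := Matrix (Fin m) (Fin m) ℤ

/-- vectors modulo `N` -/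
abbrev VecMod (m N : ℕ) := Fin m → ZMod N

/-- the matrix of a point of `V m` -/
abbrev mt {m : ℕ} (z : V m) : Mat m := Matrix.of z

/-- the maximum of the absolute values of the entries -/
noncomputable def sz {m : ℕ} (z : Mat m) : ℝ := ‖((fun i j => z i j) : V m)‖

/-- the integer matrix `α` as a real matrix -/
noncomputable def toReal {m : ℕ} (α : ZM m) : Mat m := α.map (fun n : ℤ => (n : ℝ))

/-- the product of the integer matrix `α` and the column vector `x` modulo `N` -/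
def act {m : ℕ} (N : ℕ) (α : ZM m) (x : VecMod m N) : VecMod m N :=
  (α.map (fun n : ℤ => (n : ZMod N))).mulVec x

/-- the scalar product modulo `N` -/
def dot {m N : ℕ} (v y : VecMod m N) : ZMod N := ∑ i, v i * y i

/-- primitive vectors modulo `N` -/
def IsPrimitive {m N : ℕ} (x : VecMod m N) : Prop := ∃ u : VecMod m N, dot u x = 1

/-- `|det z| ^ (1 / m)` -/
noncomputable def aN {m : ℕ} (z : Mat m) : ℝ := |z.det| ^ (1 / (m : ℝ))

/-- the Haar measure `|det z| ^ (-m) dz` of `GL_m(ℝ)` -/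
noncomputable def hm (m : ℕ) : Measure (V m) :=
  (volume : Measure (V m)).withDensity (fun z => ENNReal.ofReal ((|(mt z).det| ^ m)⁻¹))

/-- `T n` is a set of representatives of the classes `GL_m(ℤ) α` of the integer matrices `α` with
`|det α| = n` -/
structure IsReps (m : ℕ) (T : ℕ → Finset (ZM m)) : Prop where
  mem : ∀ n : ℕ, 1 ≤ n → ∀ α ∈ T n, α.det.natAbs = n
  uniq : ∀ n : ℕ, 1 ≤ n → ∀ β : ZM m, β.det.natAbs = n →
    ∃! α, α ∈ T n ∧ ∃ γ : ZM m, IsUnit γ ∧ β = γ * α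

/-- `D` is a fundamental domain of `GL_m(ℤ)` (acting from the left) on the shell
`1 ≤ |det z| ^ (1 / m) < e` -/
structure IsDomain (m : ℕ) (D : Set (V m)) : Prop where
  meas : MeasurableSet D
  shell : ∀ z ∈ D, 1 ≤ aN (mt z) ∧ aN (mt z) < Real.exp 1
  fund : ∀ z : V m, 1 ≤ aN (mt z) → aN (mt z) < Real.exp 1 →
    ∃! γ : ZM m, IsUnit γ ∧ ((fun i j => (toReal γ * mt z) i j) : V m) ∈ D

/-- the leading principal minors of `zᵀ z` -/
noncomputable def mnr {m : ℕ} (z : Mat m) (j : ℕ) : ℝ :=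
  if h : j ≤ m then ((z.transpose * z).submatrix (Fin.castLE h) (Fin.castLE h)).det else 0

/-- the power function `∏_j a_j ^ (-μ_j + (2j - m - 1) / 2)` of `z = k a`, `k` orthogonal, `a` upper
triangular with positive diagonal `a_1, …, a_m`: `a_1² ⋯ a_j²` is the minor `mnr z j`. With this
normalisation the integral of `exp (-π ∑ z_ij²) |det z| ^ (s + (m - 1) / 2)` times the power function
is `∏_j Γ_ℝ(s - μ_j)` up to a constant. -/
noncomputable def pw {m : ℕ} (mu : Fin m → ℂ) (z : Mat m) : ℂ :=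
  ∏ j : Fin m, ((mnr z ((j : ℕ) + 1) / mnr z (j : ℕ) : ℝ) : ℂ) ^
    ((-(mu j) + (2 * ((j : ℕ) + 1 : ℂ) - m - 1) / 2) / 2)

/-- test functions: continuous, compactly supported in `GL_m(ℝ)`, bi-invariant under the orthogonal
group -/
structure IsTest (m : ℕ) (k : Mat m → ℂ) : Prop where
  cont : Continuous k
  supp : ∃ c : ℝ, 0 < c ∧ ∀ z, k z ≠ 0 → sz z ≤ c ∧ c⁻¹ ≤ |z.det|
  left : ∀ u : Mat m, u * u.transpose = 1 → ∀ z, k (u * z) = k z
  right : ∀ u : Mat m, u * u.transpose = 1 → ∀ z, k (z * u) = k z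

/-- the additive character `a ↦ e(a / N)` of `ℤ / N` -/
noncomputable def chr (N : ℕ) (a : ZMod N) : ℂ :=
  Complex.exp (2 * Real.pi * Complex.I * (((a.val : ℝ) / N : ℝ) : ℂ))

/-- the block of the rows `≥ k` and the columns `< k` of `u` (rows and columns are numbered from `0`),
the other entries are `0` -/
noncomputable def block {m : ℕ} (k : ℕ) (u : V m) : Mat m :=
  Matrix.of fun i j => if (j : ℕ) < k ∧ k ≤ (i : ℕ) then u i j else 0

/-- `F` is a form of conductor `N` with the Hecke eigenvalues `n ^ ((m - 1) / 2) λ(n)`: a bounded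
continuous function on `GL_m(ℤ) \ (GL_m(ℝ) × {primitive vectors modulo N})`, invariant under `ℝ_{>0}`, an
eigenfunction of all Hecke operators;
primitive at `N`: for every `g` the Fourier coefficients of `F g` at all vectors which are not primitive
vanish (`F` comes from no smaller level);
cuspidal: for `0 < k < m` its integral over the unipotent group of the matrices
`(1, 0; N u, 1)`, `u` a `(m - k) × k` matrix modulo `1`, vanishes at all `g`, `x`.
There is no condition at infinity. -/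
structure IsForm (m N : ℕ) [NeZero N] (T : ℕ → Finset (ZM m)) (F : Mat m → VecMod m N → ℂ)
    (lam : ℕ → ℂ) : Prop where
  cont : ∀ x, ContinuousOn (fun g => F g x) {g | g.det ≠ 0}
  supp : ∀ g x, ¬ IsPrimitive x → F g x = 0
  auto : ∀ γ : ZM m, IsUnit γ → ∀ g x, g.det ≠ 0 → F (toReal γ * g) (act N γ x) = F g x
  scal : ∀ r : ℝ, 0 < r → ∀ g x, g.det ≠ 0 → F (r • g) x = F g x
  hecke : ∀ n : ℕ, 1 ≤ n → ∀ g x, g.det ≠ 0 →
    ∑ α ∈ T n, F (toReal α * g) (act N α x) = (n : ℂ) ^ (((m : ℂ) - 1) / 2) * lam n * F g x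
  bdd : ∃ B : ℝ, ∀ g x, g.det ≠ 0 → ‖F g x‖ ≤ B
  prim : ∀ v : VecMod m N, ¬ IsPrimitive v → ∀ g, g.det ≠ 0 → ∑ y, chr N (dot v y) * F g y = 0
  cusp : ∀ k : ℕ, 0 < k → k < m → ∀ g x, g.det ≠ 0 →
    ∫ u in Set.Icc (0 : V m) 1, F ((1 + (N : ℝ) • block k u) * g) x = 0

/-- `F` is spherical at infinity with the parameters `μ_j`: invariant under the orthogonal group and an
eigenfunction of the convolutions with the test functions; `∏_j Γ_ℝ(s - μ_j)` is the factor at infinity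
of its L-function -/
structure IsSpherical {m N : ℕ} (F : Mat m → VecMod m N → ℂ) (mu : Fin m → ℂ) : Prop where
  orth : ∀ k : Mat m, k * k.transpose = 1 → ∀ g x, g.det ≠ 0 → F (g * k) x = F g x
  sum_mu : ∑ j, mu j = 0
  arch : ∀ k : Mat m → ℂ, IsTest m k → ∀ g x, g.det ≠ 0 →
    ∫ z, k (mt z) * F (g * (mt z)⁻¹) x ∂(hm m) = F g x * ∫ z, k (mt z) * pw mu (mt z) ∂(hm m)

/-- `Q` is a Lipschitz constant of `F` in `L²(D × {vectors modulo N})` for the right translations
near `1` -/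
def IsLipschitz {m N : ℕ} [NeZero N] (D : Set (V m)) (F : Mat m → VecMod m N → ℂ) (Q : ℝ) : Prop :=
  ∀ w : Mat m, 2 * m * sz (w - 1) ≤ 1 →
    ∑ x, ∫ (z : V m) in D, ‖F ((mt z : Mat m) * w) x - F (mt z) x‖ ^ 2 ∂(hm m) ≤
      (Q * sz (w - 1)) ^ 2

/-- `F` has size at most `Q`: `Q ≥ 1` is a Lipschitz constant of `F` in `L²`, or `F` is spherical with
parameters `μ_j` and `1 + ∑ |μ_j| ≤ Q` -/
def IsSize {m N : ℕ} [NeZero N] (D : Set (V m)) (F : Mat m → VecMod m N → ℂ) (Q : ℝ) : Prop :=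
  1 ≤ Q ∧ (IsLipschitz D F Q ∨ ∃ mu : Fin m → ℂ, IsSpherical F mu ∧ 1 + ∑ j, ‖mu j‖ ≤ Q)

/-- the scalar product of the right translate of `F` by `g` with `G`, over `D × {vectors modulo N}` -/
noncomputable def translateInner {m N : ℕ} [NeZero N] (D : Set (V m)) (F G : Mat m → VecMod m N → ℂ)
    (g : Mat m) : ℂ :=
  ∑ x, ∫ z in D, F (mt z * g) x * (starRingEnd ℂ) (G (mt z) x) ∂(hm m)

/-- `H_F`: the integral of `|⟨F(· g), F⟩|²` over the `g` with `|g - 1| ≤ 1 / (2 m)` (Lebesgue measure,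
maximum norm) -/
noncomputable def meanCoefficient {m N : ℕ} [NeZero N] (D : Set (V m))
    (F : Mat m → VecMod m N → ℂ) : ℝ :=
  ∫ g in {g : V m | sz (mt g - 1) ≤ 1 / (2 * (m : ℝ))}, ‖translateInner D F F (mt g)‖ ^ 2

/-- `∏_(i < j) (1 + |Im μ_i - Im μ_j|)`, up to a constant a majorant of the density of Plancherel's measure
at the tempered parameters `μ` -/
noncomputable def plancherel {m : ℕ} (mu : Fin m → ℂ) : ℝ :=
  ∏ i, ∏ j, (1 + max 0 ((mu i).im - (mu j).im))

/-- `w ≥ 0` is an admissible weight of the form `F i` of the family `F`: `w ≤ 1`; or `F i` is spherical with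
parameters `μ_j` and `w ≤ ∏_(i < j) (1 + |Im μ_i - Im μ_j|)`; or all translates of `F i` are orthogonal to the
other forms of the family (for instance because these belong to other representations) and
`w ≤ 1 / H_(F i)` -/
def IsWeight {m N : ℕ} [NeZero N] {S : Type} (D : Set (V m)) (F : S → Mat m → VecMod m N → ℂ) (i : S)
    (w : ℝ) : Prop :=
  0 ≤ w ∧ (w ≤ 1 ∨ (∃ mu : Fin m → ℂ, IsSpherical (F i) mu ∧ w ≤ plancherel mu) ∨
    ((∀ j, j ≠ i → ∀ g : Mat m, g.det ≠ 0 → translateInner D (F i) (F j) g = 0) ∧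
      w ≤ (meanCoefficient D (F i))⁻¹))

/-- the order `N R` of the form `F` of level `N`, size `Q` and weight `w` is at most `X`: either
`1 ≤ w ≤ Q ^ (m (m - 1) / 2)` and `N ^ (m + 1) Q ^ (m ^ 2) ≤ w X ^ (m + 1)`; or `m ≤ 3`, `F` is spherical with
parameters `μ_j`, `Q = 1 + ∑ |μ_j|`, and the analytic conductor `N ∏ (1 + |μ_j|)` is at most `X` (the weight
is not used in this case) -/
def OrderLe {m N : ℕ} (F : Mat m → VecMod m N → ℂ) (Q w X : ℝ) : Prop :=
  (1 ≤ w ∧ w ≤ Q ^ (m * (m - 1) / 2) ∧ (N : ℝ) ^ (m + 1) * Q ^ (m ^ 2) ≤ w * X ^ (m + 1)) ∨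
    (m ≤ 3 ∧ ∃ mu : Fin m → ℂ, IsSpherical F mu ∧ Q = 1 + ∑ j, ‖mu j‖ ∧
      N * ∏ j, (1 + ‖mu j‖) ≤ X)

/-- well spaced points -/
def IsSpaced (J : Finset ℝ) : Prop := ∀ t ∈ J, ∀ u ∈ J, t ≠ u → 1 ≤ |t - u|

/-- the bound for the second moment of the twists in the window `|t - t₀| ≤ H` over the forms of conductor
`N` and size at most `H`: there are about `N ^ m H ^ (m ^ 2 - 1)` orthonormal forms, and
`N (q (H + |t₀|)) ^ m` is the analytic conductor of the twisted L-functions in the window -/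
noncomputable def windowSize (m N : ℕ) (q H t₀ : ℝ) : ℝ :=
  N ^ m * H ^ (m ^ 2) + (N * (q * (H + |t₀|)) ^ m) ^ ((m : ℝ) / 2)

/-- the bound `A (1 + log Y) ^ (max(1 - σ, 0) + κ)` for the absolute value of the logarithm of an L-function
at real part `σ` -/
noncomputable def logBound (A κ Y σ : ℝ) : ℝ :=
  A * (1 + Real.log Y) ^ (max (1 - σ) 0 + κ)

/-- `L` has a value of absolute value smaller than `exp (-f(σ))` or larger than `exp (f(σ))` at a point with
real part `σ ≥ 1/2 + d` and with imaginary part within `r` of `t` -/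
def IsOutside (L : ℂ → ℂ) (d t r : ℝ) (f : ℝ → ℝ) : Prop :=
  ∃ s : ℂ, 1 / 2 + d ≤ s.re ∧ |s.im - t| ≤ r ∧
    (‖L s‖ < Real.exp (-f s.re) ∨ Real.exp (f s.re) < ‖L s‖)

/-- the `F i` are orthonormal in `L²(D × {vectors modulo N})` -/
def IsOrthonormal {m N : ℕ} [NeZero N] {S : Type} [DecidableEq S] (D : Set (V m))
    (F : S → Mat m → VecMod m N → ℂ) : Prop :=
  (∀ i j x, IntegrableOn (fun z => F i (mt z) x * (starRingEnd ℂ) (F j (mt z) x)) D (hm m)) ∧
  ∀ i j, ∑ x : VecMod m N, ∫ z in D, F i (mt z) x * (starRingEnd ℂ) (F j (mt z) x) ∂(hm m) =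
    if i = j then 1 else 0

/-- `L` is the L-function `∑ λ(n) n ^ (-s)`, and it is entire -/
def IsLFunction (m : ℕ) (lam : ℕ → ℂ) (L : ℂ → ℂ) : Prop :=
  Differentiable ℂ L ∧ ∀ s : ℂ, (m : ℝ) + 2 < s.re →
    HasSum (fun n : ℕ => if 1 ≤ n then lam n * (n : ℂ) ^ (-s) else 0) (L s)

/-- `G` is the twist of the form of conductor `N` with the eigenvalues `λ` by the coefficients `c`, of
conductor `M ≤ N q ^ m`: a form of conductor `M`, of norm `1` and of size at most `Q`, with the eigenvalues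
`c(n) λ(n)`. For a primitive character `c = χ` modulo `q`, prime to `N`, and the form `F` of a cuspidal
representation `π` this is the form of `π ⊗ χ`, which is cuspidal of conductor `N q ^ m`, with the same
vector at infinity (times the sign of `det` if `χ` is odd), so its size is at most a constant times the size
of `F`. -/
structure IsTwist (m N M : ℕ) [NeZero M] (T : ℕ → Finset (ZM m)) (D : Set (V m)) (c : ℕ → ℂ) (q : ℝ)
    (lam : ℕ → ℂ) (Q : ℝ) (G : Mat m → VecMod m M → ℂ) (lamG : ℕ → ℂ) : Prop where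
  form : IsForm m M T G lamG
  size : IsSize D G Q
  norm : ∑ x, ∫ z in D, ‖G (mt z) x‖ ^ 2 ∂(hm m) = 1
  cond : (M : ℝ) ≤ N * q ^ m
  coef : ∀ n : ℕ, 1 ≤ n → lamG n = c n * lam n

section conversions

variable {m N : ℕ}

lemma cv_reps {T : ℕ → Finset (ZM m)} (h : IsReps m T) : Pool.Agent.H27.L1.H34.GZ.RepsZ m T :=
  ⟨h.mem, h.uniq⟩

lemma cv_dom {D : Set (V m)} (h : IsDomain m D) : Pool.Agent.H27.L1.H34.GZ.DomZ m D :=
  ⟨h.meas, h.shell, h.fund⟩

lemma cv_tst {k : Mat m → ℂ} (h : Pool.Agent.H27.L1.H34.GM.Tst m k) : IsTest m k :=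
  ⟨h.cont, h.supp, h.left, h.right⟩

lemma cv_form [NeZero N] {T : ℕ → Finset (ZM m)} {F : Mat m → VecMod m N → ℂ} {lam : ℕ → ℂ}
    (h : IsForm m N T F lam) : Pool.Agent.H27.L1.H34.GA.CusB m N T F lam where
  cont := h.cont
  supp := h.supp
  auto := h.auto
  scal := h.scal
  hecke := h.hecke
  bdd := h.bdd
  prim := h.prim
  cusp := h.cusp

lemma cv_sph [NeZero N] {T : ℕ → Finset (ZM m)} {F : Mat m → VecMod m N → ℂ} {lam : ℕ → ℂ}
    {mu : Fin m → ℂ} (h : IsForm m N T F lam) (h' : IsSpherical F mu) :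
    Pool.Agent.H27.L1.H34.GU.CuspU m N T F lam mu where
  cont := h.cont
  supp := h.supp
  auto := h.auto
  scal := h.scal
  orth := h'.orth
  hecke := h.hecke
  tr0 := h'.sum_mu
  arch := fun k hk => h'.arch k (cv_tst hk)
  bdd := h.bdd
  prim := h.prim
  cusp := h.cusp

lemma cv_l {lam : ℕ → ℂ} {L : ℂ → ℂ} (h : Pool.Agent.H27.L1.H34.GM.IsL m 1 lam L) :
    IsLFunction m lam L := by
  refine ⟨h.1, fun s hs => ?_⟩
  have h1 := h.2 s hs
  simpa using h1

/-- the L-function is unique -/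
lemma l_uniq {lam : ℕ → ℂ} {L L' : ℂ → ℂ} (h : Pool.Agent.H27.L1.H34.GM.IsL m 1 lam L)
    (h' : Pool.Agent.H27.L1.H34.GM.IsL m 1 lam L') : L = L' := by
  have ha : AnalyticOnNhd ℂ L Set.univ := h.1.differentiableOn.analyticOnNhd isOpen_univ
  have ha' : AnalyticOnNhd ℂ L' Set.univ := h'.1.differentiableOn.analyticOnNhd isOpen_univ
  refine ha.eq_of_eventuallyEq ha' (z₀ := ((m : ℝ) + 3 : ℝ)) ?_
  have hO : IsOpen {s : ℂ | (m : ℝ) + 2 < s.re} := isOpen_lt continuous_const Complex.continuous_re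
  have hm : (((m : ℝ) + 3 : ℝ) : ℂ) ∈ {s : ℂ | (m : ℝ) + 2 < s.re} := by
    show (m : ℝ) + 2 < (((m : ℝ) + 3 : ℝ) : ℂ).re
    rw [Complex.ofReal_re]
    linarith
  filter_upwards [hO.mem_nhds hm] with s hs
  exact (h.2 s hs).unique (h'.2 s hs)

/-- larger Lipschitz constants are Lipschitz constants -/
lemma lip_mono [NeZero N] {D : Set (V m)} {F : Mat m → VecMod m N → ℂ} {Q Q' : ℝ}
    (h : IsLipschitz D F Q) (h0 : 0 ≤ Q) (hQ : Q ≤ Q') : Pool.Agent.H27.L1.H34.GA.Lip D F Q' := by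
  intro w hw
  have h1 : 0 ≤ sz (w - 1) := norm_nonneg _
  exact (h w hw).trans (pow_le_pow_left₀ (by positivity) (mul_le_mul_of_nonneg_right hQ h1) 2)

/-- larger sizes -/
lemma size_mono [NeZero N] {D : Set (V m)} {F : Mat m → VecMod m N → ℂ} {Q Q' : ℝ}
    (h : IsSize D F Q) (hQ : Q ≤ Q') : IsSize D F Q' := by
  refine ⟨h.1.trans hQ, ?_⟩
  rcases h.2 with h1 | ⟨mu, h1, h2⟩
  · left
    intro w hw
    have h3 : 0 ≤ sz (w - 1) := norm_nonneg _
    have h4 : 0 ≤ Q := zero_le_one.trans h.1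
    exact (h1 w hw).trans (pow_le_pow_left₀ (by positivity) (mul_le_mul_of_nonneg_right hQ h3) 2)
  · right
    exact ⟨mu, h1, h2.trans hQ⟩

/-- a subfamily of an orthonormal family -/
lemma orth_sub [NeZero N] {S : Type} [DecidableEq S] {D : Set (V m)}
    {F : S → Mat m → VecMod m N → ℂ} (h : IsOrthonormal D F) (p : S → Prop)
    [DecidableEq {i // p i}] :
    Pool.Agent.H27.L1.H34.GM.Orthn D (fun i : {i // p i} => F i.1) := by
  refine ⟨fun i j x => h.1 i.1 j.1 x, fun i j => ?_⟩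
  refine (h.2 i.1 j.1).trans ?_
  by_cases hij : i = j
  · rw [if_pos hij, if_pos (congrArg Subtype.val hij)]
  · rw [if_neg hij, if_neg (fun h2 => hij (Subtype.ext h2))]

/-- an orthonormal form is not identically zero -/
lemma cv_nz [NeZero N] {S : Type} [DecidableEq S] {D : Set (V m)} (hD : IsDomain m D)
    (hm1 : 1 ≤ m) {F : S → Mat m → VecMod m N → ℂ} (h : IsOrthonormal D F) (i : S) :
    Pool.Agent.H27.L1.H34.GM.NZ (F i) := by
  by_contra hc
  have h0 : ∀ g : Mat m, g.det ≠ 0 → ∀ x, F i g x = 0 := by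
    intro g hg x
    by_contra hx
    exact hc ⟨g, x, hg, hx⟩
  have h1 := h.2 i i
  rw [if_pos rfl] at h1
  have h2 : ∑ x : VecMod m N, ∫ z in D, F i (mt z) x * (starRingEnd ℂ) (F i (mt z) x) ∂(hm m) =
      0 := by
    refine Finset.sum_eq_zero (fun x _ => ?_)
    refine setIntegral_eq_zero_of_forall_eq_zero (fun z hz => ?_)
    have hz1 := (hD.shell z hz).1
    have hdet : (mt z).det ≠ 0 := by
      intro h0
      unfold aN at hz1
      rw [h0, abs_zero, Real.zero_rpow (by positivity)] at hz1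
      linarith
    rw [h0 _ hdet x, zero_mul]
  rw [h2] at h1
  exact zero_ne_one h1

end conversions

/-- the Lipschitz constants of the spherical forms -/
theorem c_SPL : Pool.Agent.H27.L1.H68.GHY.T_SPL :=
  Pool.Agent.H27.L1.H62.GHY.pf_SPL (Pool.Agent.H27.L1.H46.GHY.pf_DBK Pool.Agent.H27.L1.H34.GZ.g_HAR)
    Pool.Agent.H27.L1.H34.GM.pf_PRF Pool.Agent.H27.L1.H34.GZ.g_BMP Pool.Agent.H27.L1.H34.GZ.g_PWN
    Pool.Agent.H27.L1.H34.GZ.g_PWC Pool.Agent.H27.L1.H34.GZ.g_HAR Pool.Agent.H27.L1.H34.GZ.g_HAC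
    Pool.Agent.H27.L1.H34.GZ.a_RTI Pool.Agent.H27.L1.H34.GZ.a_VLM Pool.Agent.H27.L1.H34.GU.b_ALU
    Pool.Agent.H27.L1.H34.GZ.g_MSR

/-- larger sizes -/
lemma IsTwist.mono {m N M : ℕ} [NeZero M] {T : ℕ → Finset (ZM m)} {D : Set (V m)} {c : ℕ → ℂ} {q : ℝ}
    {lam : ℕ → ℂ} {Q Q' : ℝ} {G : Mat m → VecMod m M → ℂ} {lamG : ℕ → ℂ}
    (h : IsTwist m N M T D c q lam Q G lamG) (hQ : Q ≤ Q') :
    IsTwist m N M T D c q lam Q' G lamG :=
  ⟨h.form, size_mono h.size hQ, h.norm, h.cond, h.coef⟩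

lemma weight_sub {m N : ℕ} [NeZero N] {S : Type} {D : Set (V m)}
    {F : S → Mat m → VecMod m N → ℂ} {i : S} {w : ℝ} (h : IsWeight D F i w) (p : S → Prop)
    (hi : p i) : IsWeight D (fun i : {i // p i} => F i.1) ⟨i, hi⟩ w := by
  refine ⟨h.1, ?_⟩
  rcases h.2 with h1 | h1 | h1
  · exact Or.inl h1
  · exact Or.inr (Or.inl h1)
  · exact Or.inr (Or.inr ⟨fun j hj => h1.1 j.1 (fun h2 => hj (Subtype.ext h2)), h1.2⟩)

/-- size and conductor of the spherical forms for `m ≤ 3` -/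
lemma size_order {m : ℕ} (hm1 : 1 ≤ m) (hm3 : m ≤ 3) (mu : Fin m → ℂ) (h0 : ∑ j, mu j = 0)
    (hre : m = 3 → ∀ j, |(mu j).re| ≤ 9) : (1 + ∑ j, ‖mu j‖) ^ (m ^ 2) ≤
      plancherel mu * (2 * 28 ^ 3 * ∏ j, (1 + ‖mu j‖)) ^ (m + 1) := by
  have h7 : 1 ≤ plancherel mu := Pool.Agent.H27.L1.H17.GHK.pl_ge mu
  have h8 : ∀ y : ℝ, 0 ≤ y → y ≤ plancherel mu * y := fun y hy => le_mul_of_one_le_left hy h7
  interval_cases m
  · rw [Fin.sum_univ_one] at h0
    refine le_trans ?_ (h8 _ (by positivity))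
    rw [Fin.sum_univ_one, Fin.prod_univ_one, h0, norm_zero]
    norm_num
  · rw [Fin.sum_univ_two] at h0
    refine le_trans ?_ (h8 _ (by positivity))
    have h1 : ‖mu 1‖ = ‖mu 0‖ := by
      rw [show mu 1 = -mu 0 by linear_combination h0, norm_neg]
    rw [Fin.sum_univ_two, Fin.prod_univ_two, h1]
    have ha := norm_nonneg (mu 0)
    generalize ‖mu 0‖ = a at ha
    calc (1 + (a + a)) ^ (2 ^ 2) ≤ (2 * (1 + a)) ^ 4 := by
          norm_num
          refine pow_le_pow_left₀ (by positivity) ?_ 4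
          linarith
      _ = 16 * (1 + a) ^ 4 := by ring
      _ ≤ 16 * (1 + a) ^ 6 := by
          refine mul_le_mul_of_nonneg_left ?_ (by norm_num)
          exact pow_le_pow_right₀ (by linarith) (by norm_num)
      _ ≤ (2 * 28 ^ 3) ^ 3 * (1 + a) ^ 6 :=
          mul_le_mul_of_nonneg_right (by norm_num) (by positivity)
      _ = (2 * 28 ^ 3 * ((1 + a) * (1 + a))) ^ (2 + 1) := by ring
  · have h6 := Pool.Agent.H27.L1.H17.GHK.m3_pow mu h0 (hre rfl)
    norm_num at h6 ⊢
    exact h6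

/-- the weights for the forms of order at most `X` -/
lemma order_weight : ∃ c : ℝ, 1 ≤ c ∧ ∀ (m N : ℕ) [NeZero N] (T : ℕ → Finset (ZM m))
    (F : Mat m → VecMod m N → ℂ) (lam : ℕ → ℂ) (Q w X : ℝ), 1 ≤ m → Pool.Agent.H27.L1.H34.GM.NZ F →
    IsForm m N T F lam → 1 ≤ Q → 1 ≤ X → OrderLe F Q w X →
      ∃ w' : ℝ, 1 ≤ w' ∧ w' ≤ Q ^ (m * (m - 1) / 2) ∧
        (w' = w ∨ ∃ mu : Fin m → ℂ, IsSpherical F mu ∧ w' = plancherel mu) ∧
        (N : ℝ) ^ (m + 1) * Q ^ (m ^ 2) ≤ w' * (c * X) ^ (m + 1) := by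
  refine ⟨2 * 28 ^ 3, by norm_num, ?_⟩
  intro m N _ T F lam Q w X hm1 hnz hF hQ hX hO
  rcases hO with ⟨h1, h2, h4⟩ | ⟨hm3, mu, hs, hQ3, hR⟩
  · refine ⟨w, h1, h2, Or.inl rfl, h4.trans ?_⟩
    have h5 : X ≤ 2 * 28 ^ 3 * X := by nlinarith
    gcongr
  · have hre : m = 3 → ∀ j, |(mu j).re| ≤ 9 := by
      intro h3
      subst h3
      intro j
      have h5 := Pool.Agent.H27.L1.H46.GHK.re_bd mu hs.sum_mu
        (fun j => Pool.Agent.H27.L1.H34.GU.b_APU 3 N T F lam mu (by norm_num) (cv_sph hF hs).toEigU hnz j) j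
      norm_num at h5
      exact h5
    have h6 := size_order hm1 hm3 mu hs.sum_mu hre
    have h7 : 1 ≤ plancherel mu := Pool.Agent.H27.L1.H17.GHK.pl_ge mu
    refine ⟨plancherel mu, h7, ?_, Or.inr ⟨mu, hs, rfl⟩, ?_⟩
    · rw [hQ3]
      exact Pool.Agent.H27.L1.H17.GHK.pl_le mu
    · have h8 : (0 : ℝ) ≤ ∏ j, (1 + ‖mu j‖) := Finset.prod_nonneg fun j _ => by positivity
      have hN : (0 : ℝ) ≤ N := Nat.cast_nonneg N
      have h9 : (0 : ℝ) ≤ plancherel mu := zero_le_one.trans h7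
      calc (N : ℝ) ^ (m + 1) * Q ^ (m ^ 2) = N ^ (m + 1) * (1 + ∑ j, ‖mu j‖) ^ (m ^ 2) := by
            rw [hQ3]
        _ ≤ N ^ (m + 1) * (plancherel mu * (2 * 28 ^ 3 * ∏ j, (1 + ‖mu j‖)) ^ (m + 1)) :=
            mul_le_mul_of_nonneg_left h6 (by positivity)
        _ = plancherel mu * (2 * 28 ^ 3 * (N * ∏ j, (1 + ‖mu j‖))) ^ (m + 1) := by
            rw [show (2 : ℝ) * 28 ^ 3 * (N * ∏ j, (1 + ‖mu j‖)) =
              N * (2 * 28 ^ 3 * ∏ j, (1 + ‖mu j‖)) by ring, mul_pow (N : ℝ)]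
            ring
        _ ≤ plancherel mu * (2 * 28 ^ 3 * X) ^ (m + 1) := by gcongr

/-- a Lipschitz constant from the size -/
theorem lip_size0 (m : ℕ) (hm1 : 1 ≤ m) : ∃ CS : ℝ, 1 ≤ CS ∧
    ∀ (N : ℕ) [NeZero N] (T : ℕ → Finset (ZM m)) (D : Set (V m)),
      Pool.Agent.H27.L1.H34.GZ.SysZ m N T D → ∀ (F : Mat m → VecMod m N → ℂ) (lam : ℕ → ℂ),
      Pool.Agent.H27.L1.H34.GU.nU D F = 1 → ∀ P : ℝ,
      IsForm m N T F lam → IsSize D F P → Pool.Agent.H27.L1.H34.GA.Lip D F (CS * P) := by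
  obtain ⟨CS, hCS, hSPL⟩ := c_SPL m hm1
  refine ⟨CS, hCS, ?_⟩
  intro N _ T D hS F lam hn P hF hP
  have hP0 : 0 < P := by linarith [hP.1]
  rcases hP.2 with h1 | ⟨mu, h1, h2⟩
  · exact lip_mono h1 hP0.le (le_mul_of_one_le_left hP0.le hCS)
  · exact hSPL N T D hS F lam mu (cv_sph hF h1).toEigU hn P h2

/-- a Lipschitz constant from the size `P` and also from the size `b P` -/
theorem lip_size (m : ℕ) (hm1 : 1 ≤ m) (b : ℝ) (hb : 1 ≤ b) : ∃ CS : ℝ, 1 ≤ CS ∧
    ∀ (N : ℕ) [NeZero N] (T : ℕ → Finset (ZM m)) (D : Set (V m)),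
      Pool.Agent.H27.L1.H34.GZ.SysZ m N T D → ∀ (F : Mat m → VecMod m N → ℂ) (lam : ℕ → ℂ),
      Pool.Agent.H27.L1.H34.GU.nU D F = 1 → ∀ P : ℝ, 0 ≤ P →
      IsForm m N T F lam → IsSize D F P ∨ IsSize D F (b * P) →
        Pool.Agent.H27.L1.H34.GA.Lip D F (CS * P) := by
  obtain ⟨CS, hCS, h⟩ := lip_size0 m hm1
  refine ⟨CS * b, one_le_mul_of_one_le_of_one_le hCS hb, ?_⟩
  intro N _ T D hS F lam hn P hP0 hF hP
  have hCS0 : 0 < CS := by linarith
  rcases hP with h1 | h1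
  · refine lip_mono (h N T D hS F lam hn P hF h1) (by positivity) ?_
    exact mul_le_mul_of_nonneg_right (le_mul_of_one_le_right hCS0.le hb) hP0
  · have h2 := h N T D hS F lam hn (b * P) hF h1
    rwa [← mul_assoc] at h2

/-- a family of forms -/
lemma cv_fam {m N : ℕ} [NeZero N] {T : ℕ → Finset (ZM m)} {D : Set (V m)} {CS H : ℝ} {S : Type}
    [Fintype S] [DecidableEq S] {F : S → Mat m → VecMod m N → ℂ} {lam : S → ℕ → ℂ} {W : S → ℝ}
    {b : ℝ} (hlip : ∀ (F : Mat m → VecMod m N → ℂ) (lam : ℕ → ℂ),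
      Pool.Agent.H27.L1.H34.GU.nU D F = 1 → ∀ P : ℝ, 0 ≤ P → IsForm m N T F lam →
      IsSize D F P ∨ IsSize D F (b * P) → Pool.Agent.H27.L1.H34.GA.Lip D F (CS * P))
    (hF : ∀ i, IsForm m N T (F i) (lam i) ∧ IsSize D (F i) H ∧ IsWeight D F i (W i))
    (ho : IsOrthonormal D F) : Pool.Agent.H27.ZF.Fam T D (CS * H) F lam W where
  cus := fun i => ⟨cv_form (hF i).1, hlip (F i) (lam i) (Pool.Agent.H27.L1.H34.GU.mou_nU F ho i) H
    (zero_le_one.trans (hF i).2.1.1) (hF i).1 (Or.inl (hF i).2.1)⟩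
  orth := ho
  nn := fun i => (hF i).2.2.1
  wt := fun i => by
    rcases (hF i).2.2.2 with h1 | ⟨mu, h1, h2⟩ | h1
    · exact Or.inl h1
    · exact Or.inr (Or.inl ⟨mu, (cv_sph (hF i).1 h1).toEigU, h2⟩)
    · exact Or.inr (Or.inr h1)

/-- a family of twists -/
lemma cv_tw {m N : ℕ} {T : ℕ → Finset (ZM m)} {D : Set (V m)} {CS b H U q : ℝ} {S : Type}
    {c : ℕ → ℂ} {lam : S → ℕ → ℂ} {M : S → ℕ} [∀ i, NeZero (M i)]
    {G : ∀ i : S, Mat m → VecMod m (M i) → ℂ} {lamG : S → ℕ → ℂ}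
    (hSM : ∀ i, Pool.Agent.H27.L1.H34.GZ.SysZ m (M i) T D)
    (hlip : ∀ i, ∀ (F : Mat m → VecMod m (M i) → ℂ) (lam : ℕ → ℂ),
      Pool.Agent.H27.L1.H34.GU.nU D F = 1 → ∀ P : ℝ, 0 ≤ P → IsForm m (M i) T F lam →
      IsSize D F P ∨ IsSize D F (b * P) → Pool.Agent.H27.L1.H34.GA.Lip D F (CS * P))
    (hH : 0 ≤ H) (hCS : 0 ≤ CS * H) (hHU : CS * H ≤ U)
    (hG : ∀ i, IsTwist m N (M i) T D c q (lam i) (b * H) (G i) (lamG i)) :
    Pool.Agent.H31.CT.Tw m T D (N * q ^ m) U c lam M G lamG :=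
  ⟨fun i => ⟨hSM i, (hG i).cond⟩, fun i => ⟨cv_form (hG i).form,
    lip_mono (hlip i (G i) (lamG i) (hG i).norm H hH (hG i).form (Or.inr (hG i).size)) hCS hHU,
    (hG i).norm⟩,
    fun i => (hG i).coef⟩

/-- the change of the constants -/
lemma size_scale (m : ℕ) {CS ε : ℝ} (hCS : 1 ≤ CS) (hε : 0 < ε) {N : ℕ} (hN : 1 ≤ N) {H q : ℝ}
    (hH : 1 ≤ H) (hq : 1 ≤ q) (t₀ : ℝ) :
    ((N : ℝ) * (N * q ^ m) * (CS * (H + |t₀|))) ^ (ε / (m + 2)) *
        Pool.Agent.H31.CT.Q3 m N (N * q ^ m) (CS * H) (CS * (H + |t₀|)) ≤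
      (CS ^ (ε / (m + 2)) * CS ^ (m ^ 2)) *
        (((N : ℝ) * (q * (H + |t₀|))) ^ ε * windowSize m N q H t₀) := by
  have hCS0 : 0 < CS := by linarith
  have hq0 : 0 < q := by linarith
  have hN1 : (1 : ℝ) ≤ N := by exact_mod_cast hN
  have hN0 : (0 : ℝ) < N := by linarith
  have ht : 0 ≤ |t₀| := abs_nonneg _
  obtain ⟨U, hU⟩ : ∃ U : ℝ, U = H + |t₀| := ⟨_, rfl⟩
  have hHU : H ≤ U := by rw [hU]; linarith
  have hU1 : 1 ≤ U := hH.trans hHU
  have hU0 : 0 < U := by linarith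
  have hmm : (0 : ℝ) ≤ m := Nat.cast_nonneg m
  -- the epsilon factor
  have f1 : ((N : ℝ) * (N * q ^ m) * (CS * U)) ^ (ε / (m + 2)) ≤
      CS ^ (ε / (m + 2)) * ((N : ℝ) * (q * U)) ^ ε := by
    have g1 : (N : ℝ) * (N * q ^ m) * (CS * U) ≤ CS * ((N : ℝ) * (q * U)) ^ (m + 2) := by
      have g2 : (N : ℝ) * N ≤ (N : ℝ) ^ (m + 2) := by
        calc (N : ℝ) * N = (N : ℝ) ^ 2 := by ring
          _ ≤ (N : ℝ) ^ (m + 2) := pow_le_pow_right₀ hN1 (by omega)
      have g3 : q ^ m ≤ q ^ (m + 2) := pow_le_pow_right₀ hq (by omega)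
      have g4 : U ≤ U ^ (m + 2) := le_self_pow₀ hU1 (by omega)
      calc (N : ℝ) * (N * q ^ m) * (CS * U) = CS * (((N : ℝ) * N) * (q ^ m * U)) := by ring
        _ ≤ CS * ((N : ℝ) ^ (m + 2) * (q ^ (m + 2) * U ^ (m + 2))) := by gcongr
        _ = _ := by
            rw [mul_pow, mul_pow]
    calc ((N : ℝ) * (N * q ^ m) * (CS * U)) ^ (ε / (m + 2)) ≤
        (CS * ((N : ℝ) * (q * U)) ^ (m + 2)) ^ (ε / (m + 2)) :=
          Real.rpow_le_rpow (by positivity) g1 (by positivity)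
      _ = _ := by
          rw [Real.mul_rpow hCS0.le (by positivity)]
          congr 1
          rw [← Real.rpow_natCast ((N : ℝ) * (q * U)) (m + 2), ← Real.rpow_mul (by positivity)]
          congr 1
          push_cast
          field_simp
  -- the size
  have f2 : Pool.Agent.H31.CT.Q3 m N (N * q ^ m) (CS * H) (CS * U) ≤
      CS ^ (m ^ 2) * windowSize m N q H t₀ := by
    unfold Pool.Agent.H31.CT.Q3 windowSize
    rw [mul_add, ← hU]
    refine add_le_add (le_of_eq (by rw [mul_pow]; ring)) ?_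
    have g1 : ((N : ℝ) * (q * U) ^ m) ^ ((m : ℝ) / 2) =
        ((N : ℝ) * q ^ m) ^ ((m : ℝ) / 2) * U ^ ((m : ℝ) ^ 2 / 2) := by
      rw [mul_pow, ← mul_assoc, Real.mul_rpow (by positivity) (by positivity),
        ← Real.rpow_natCast U m, ← Real.rpow_mul hU0.le]
      congr 2
      ring
    have g2 : (CS * U) ^ ((m : ℝ) ^ 2 / 2) ≤ CS ^ (m ^ 2) * U ^ ((m : ℝ) ^ 2 / 2) := by
      rw [Real.mul_rpow hCS0.le hU0.le]
      refine mul_le_mul_of_nonneg_right ?_ (by positivity)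
      rw [← Real.rpow_natCast CS (m ^ 2)]
      refine Real.rpow_le_rpow_of_exponent_le hCS ?_
      push_cast
      nlinarith [sq_nonneg (m : ℝ)]
    rw [g1]
    calc ((N : ℝ) * q ^ m) ^ ((m : ℝ) / 2) * (CS * U) ^ ((m : ℝ) ^ 2 / 2) ≤
        ((N : ℝ) * q ^ m) ^ ((m : ℝ) / 2) * (CS ^ (m ^ 2) * U ^ ((m : ℝ) ^ 2 / 2)) := by gcongr
      _ = _ := by ring
  have f3 : 0 ≤ Pool.Agent.H31.CT.Q3 m N (N * q ^ m) (CS * H) (CS * U) := by
    unfold Pool.Agent.H31.CT.Q3
    positivity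
  rw [← hU]
  calc ((N : ℝ) * (N * q ^ m) * (CS * U)) ^ (ε / (m + 2)) *
        Pool.Agent.H31.CT.Q3 m N (N * q ^ m) (CS * H) (CS * U) ≤
      (CS ^ (ε / (m + 2)) * ((N : ℝ) * (q * U)) ^ ε) * (CS ^ (m ^ 2) * windowSize m N q H t₀) := by
        gcongr
    _ = _ := by ring

/-- the sum of the weights -/
theorem wsum (m : ℕ) (hm2 : 2 ≤ m) (ε : ℝ) (hε : 0 < ε) : ∃ C : ℝ, 0 < C ∧
    ∀ (N : ℕ) [NeZero N] (T : ℕ → Finset (ZM m)) (D : Set (V m)), 1 ≤ N → IsReps m T →
      IsDomain m D → ∀ H : ℝ, 1 ≤ H → ∀ (S : Type) [Fintype S] [DecidableEq S]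
        (F : S → Mat m → VecMod m N → ℂ) (lam : S → ℕ → ℂ) (W : S → ℝ),
        (∀ i, IsForm m N T (F i) (lam i) ∧ IsSize D (F i) H ∧ IsWeight D F i (W i)) →
        IsOrthonormal D F → (∑ i, W i) * H ≤ C * (((N : ℝ) * H) ^ ε * ((N : ℝ) ^ m * H ^ (m ^ 2))) := by
  have hm1 : 1 ≤ m := by omega
  obtain ⟨CS, hCS, hlip⟩ := lip_size m hm1 1 le_rfl
  obtain ⟨C, hC, h⟩ := Pool.Agent.H34.ZF.wt_sum Pool.Agent.H55.ZF.c_LSF m ε hm1 hε
  have hCS0 : 0 < CS := by linarith
  refine ⟨C * (CS ^ ε * CS ^ (m ^ 2)), by positivity, ?_⟩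
  intro N _ T D hN hT hD H hH S _ _ F lam W hF ho
  have hS : Pool.Agent.H27.L1.H34.GZ.SysZ m N T D := ⟨hm1, hN, Or.inr hm2, cv_reps hT, cv_dom hD⟩
  have hH0 : 0 < H := by linarith
  have hN0 : (0 : ℝ) ≤ N := Nat.cast_nonneg N
  have hHH : H ≤ CS * H := le_mul_of_one_le_left hH0.le hCS
  have h1 := h N T D hS (CS * H) (hH.trans hHH) S F lam W (cv_fam (hlip N T D hS) hF ho)
  rw [← Finset.sum_mul] at h1
  have h2 : 0 ≤ ∑ i, W i := Finset.sum_nonneg fun i _ => (hF i).2.2.1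
  calc (∑ i, W i) * H ≤ (∑ i, W i) * (2 * (CS * H)) :=
        mul_le_mul_of_nonneg_left (by linarith) h2
    _ ≤ C * ((N : ℝ) * (CS * H)) ^ ε * ((N : ℝ) ^ m * (CS * H) ^ (m ^ 2)) := h1
    _ = _ := by
        rw [show (N : ℝ) * (CS * H) = CS * (N * H) by ring, Real.mul_rpow hCS0.le (by positivity),
          mul_pow CS H]
        ring

open Classical in
/-- one level, the second moment of the twists in a window -/
theorem one_window (m : ℕ) (hm2 : 2 ≤ m) (b : ℝ) (hb : 1 ≤ b) (ε : ℝ) (hε : 0 < ε) :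
    ∃ C : ℝ, 0 < C ∧
    ∀ (N : ℕ) [NeZero N] (T : ℕ → Finset (ZM m)) (D : Set (V m)), 1 ≤ N → IsReps m T →
      IsDomain m D → ∀ H q : ℝ, 1 ≤ H → 1 ≤ q → ∀ (S : Type) [Fintype S] [DecidableEq S]
        (F : S → Mat m → VecMod m N → ℂ) (lam : S → ℕ → ℂ) (W : S → ℝ),
        (∀ i, IsForm m N T (F i) (lam i) ∧ IsSize D (F i) H ∧ IsWeight D F i (W i)) →
        IsOrthonormal D F → ∀ (c : ℕ → ℂ) (M : S → ℕ) [∀ i, NeZero (M i)]
        (G : ∀ i : S, Mat m → VecMod m (M i) → ℂ) (lamG : S → ℕ → ℂ), (∀ n, ‖c n‖ ≤ 1) →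
        (∀ i, IsTwist m N (M i) T D c q (lam i) (b * H) (G i) (lamG i)) → ∀ t₀ : ℝ,
        ∃ L : S → ℂ → ℂ, (∀ i, Pool.Agent.H27.L1.H34.GM.IsL m 1 (lamG i) (L i)) ∧
          ∀ J : S → Finset ℝ, (∀ i, IsSpaced (J i)) → (∀ i, ∀ t ∈ J i, |t - t₀| ≤ H) →
            ∑ i, W i * ∑ t ∈ J i, ‖L i (1 / 2 + t * Complex.I)‖ ^ 2 ≤
              C * (((N : ℝ) * (q * (H + |t₀|))) ^ ε * windowSize m N q H t₀) := by
  have hm1 : 1 ≤ m := by omega
  obtain ⟨CS, hCS, hlip⟩ := lip_size m hm1 b hb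
  obtain ⟨C, hC, h⟩ := Pool.Agent.H31.CT.c_LVT m hm1 (ε / (m + 2)) (by positivity)
  have hCS0 : 0 < CS := by linarith
  refine ⟨C * (CS ^ (ε / (m + 2)) * CS ^ (m ^ 2)), by positivity, ?_⟩
  intro N _ T D hN hT hD H q hH hq S _ _ F lam W hF ho c M _ G lamG hc hG t₀
  have hS : Pool.Agent.H27.L1.H34.GZ.SysZ m N T D := ⟨hm1, hN, Or.inr hm2, cv_reps hT, cv_dom hD⟩
  have hSM : ∀ i, Pool.Agent.H27.L1.H34.GZ.SysZ m (M i) T D := fun i =>
    ⟨hm1, NeZero.one_le, Or.inr hm2, cv_reps hT, cv_dom hD⟩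
  have hH0 : 0 < H := by linarith
  have hN1 : (1 : ℝ) ≤ N := by exact_mod_cast hN
  have ht : 0 ≤ |t₀| := abs_nonneg _
  have hqm : 1 ≤ q ^ m := one_le_pow₀ hq
  have hB : 1 ≤ (N : ℝ) * q ^ m := by nlinarith
  have hHH : H ≤ CS * H := le_mul_of_one_le_left hH0.le hCS
  have hHU : CS * H ≤ CS * (H + |t₀|) := mul_le_mul_of_nonneg_left (by linarith) hCS0.le
  have hUt : CS * H + |t₀| ≤ CS * (H + |t₀|) := by
    rw [mul_add]
    have : |t₀| ≤ CS * |t₀| := le_mul_of_one_le_left ht hCS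
    linarith
  have hFam := cv_fam (hlip N T D hS) hF ho
  obtain ⟨L, hL, hbd⟩ := h N T D hS (N * q ^ m) (CS * H) (CS * (H + |t₀|)) hB (hH.trans hHH) hHU S F
    lam W hFam.cus hFam.orth hFam.nn hFam.wt c M G lamG hc
    (cv_tw hSM (fun i => hlip (M i) T D (hSM i)) hH0.le (by positivity) hHU hG)
  refine ⟨L, hL, fun J hJ hJH => ?_⟩
  refine (hbd t₀ J hUt hJ (fun i t ht => (hJH i t ht).trans hHH)).trans ?_
  rw [mul_assoc]
  exact (mul_le_mul_of_nonneg_left (size_scale m hCS hε hN hH hq t₀) hC.le).trans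
    (le_of_eq (by ring))

/-- the bound for the logarithm in a larger scale -/
lemma logBound_le {A κ K Y Y' σ : ℝ} (hA : 0 ≤ A) (hκ : 0 ≤ κ) (hK : 1 ≤ K) (hY : 1 ≤ Y) (hY' : 1 ≤ Y')
    (h : 1 + Real.log Y ≤ K * (1 + Real.log Y')) (hσ : 1 / 2 ≤ σ) :
    logBound A κ Y σ ≤ logBound (A * K ^ (1 + κ)) κ Y' σ := by
  have h1 : 0 ≤ Real.log Y := Real.log_nonneg hY
  have h2 : 0 ≤ Real.log Y' := Real.log_nonneg hY'
  have h3 : 0 ≤ max (1 - σ) 0 + κ := add_nonneg (le_max_right _ _) hκ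
  have h4 : max (1 - σ) 0 + κ ≤ 1 + κ := by
    have : max (1 - σ) 0 ≤ 1 := max_le (by linarith) (by norm_num)
    linarith
  unfold logBound
  rw [mul_assoc]
  refine mul_le_mul_of_nonneg_left ?_ hA
  calc (1 + Real.log Y) ^ (max (1 - σ) 0 + κ) ≤
      (K * (1 + Real.log Y')) ^ (max (1 - σ) 0 + κ) :=
        Real.rpow_le_rpow (by linarith) h h3
    _ = K ^ (max (1 - σ) 0 + κ) * (1 + Real.log Y') ^ (max (1 - σ) 0 + κ) :=
        Real.mul_rpow (by linarith) (by linarith)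
    _ ≤ K ^ (1 + κ) * (1 + Real.log Y') ^ (max (1 - σ) 0 + κ) := by
        refine mul_le_mul_of_nonneg_right (Real.rpow_le_rpow_of_exponent_le hK h4) ?_
        exact Real.rpow_nonneg (by linarith) _

/-- a point outside of a larger interval is outside of a smaller one -/
lemma out_mono {L : ℂ → ℂ} {d t r : ℝ} {f g : ℝ → ℝ} (hfg : ∀ σ, 1 / 2 + d ≤ σ → f σ ≤ g σ)
    (h : IsOutside L d t r g) : IsOutside L d t r f := by
  obtain ⟨s, h1, h2, h3⟩ := h
  refine ⟨s, h1, h2, ?_⟩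
  have h4 := hfg s.re h1
  rcases h3 with h3 | h3
  · exact Or.inl (h3.trans_le (Real.exp_le_exp.2 (by linarith)))
  · exact Or.inr ((Real.exp_le_exp.2 h4).trans_lt h3)

open Classical in
/-- one level, few large or small values to the right of the critical line -/
theorem one_out (m : ℕ) (hm2 : 2 ≤ m) (b : ℝ) (hb : 1 ≤ b) (d e : ℝ) (hd : 0 < d) (he : 0 < e) :
    ∃ a A : ℝ, 0 < a ∧ 0 < A ∧
    ∀ ε : ℝ, 0 < ε → ∃ C : ℝ, 0 < C ∧
    ∀ (N : ℕ) [NeZero N] (T : ℕ → Finset (ZM m)) (D : Set (V m)), 1 ≤ N → IsReps m T →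
      IsDomain m D → ∀ H q : ℝ, 1 ≤ H → 1 ≤ q → ∀ (S : Type) [Fintype S] [DecidableEq S]
        (F : S → Mat m → VecMod m N → ℂ) (lam : S → ℕ → ℂ) (W : S → ℝ),
        (∀ i, IsForm m N T (F i) (lam i) ∧ IsSize D (F i) H ∧ IsWeight D F i (W i)) →
        IsOrthonormal D F → ∀ (c : ℕ → ℂ) (M : S → ℕ) [∀ i, NeZero (M i)]
        (G : ∀ i : S, Mat m → VecMod m (M i) → ℂ) (lamG : S → ℕ → ℂ), (∀ n, ‖c n‖ ≤ 1) →
        (∀ i, IsTwist m N (M i) T D c q (lam i) (b * H) (G i) (lamG i)) →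
        ∀ L : S → ℂ → ℂ, (∀ i, Pool.Agent.H27.L1.H34.GM.IsL m 1 (lamG i) (L i)) → ∀ t₀ : ℝ,
          ∑ i, W i * (((Finset.Icc ⌈t₀ - H⌉ ⌊t₀ + H⌋ : Finset ℤ).filter
            (fun k : ℤ => IsOutside (L i) d k 1 (logBound A e ((N : ℝ) * H ^ m)))).card : ℝ) ≤
              C * (((N : ℝ) * (q * (H + |t₀|))) ^ ε * windowSize m N q H t₀) *
                ((N : ℝ) * H ^ m) ^ (-a) := by
  have hm1 : 1 ≤ m := by omega
  obtain ⟨CS, hCS, hlip⟩ := lip_size m hm1 b hb
  obtain ⟨a, A0, ha, hA0, hz⟩ := Pool.Agent.H47.LX.c_ZXT m d e hm1 hd he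
  have hCS0 : 0 < CS := by linarith
  have hCSm : 1 ≤ CS ^ m := one_le_pow₀ hCS
  obtain ⟨K, hK⟩ : ∃ K : ℝ, K = 1 + Real.log (CS ^ m) := ⟨_, rfl⟩
  have hK1 : 1 ≤ K := by
    rw [hK]
    linarith [Real.log_nonneg hCSm]
  refine ⟨a, A0 * K ^ (1 + e), ha, by positivity, ?_⟩
  intro ε hε
  obtain ⟨C, hC, h⟩ := hz (ε / (m + 2)) (by positivity)
  obtain ⟨C1, hC1⟩ : ∃ C1 : ℝ, C1 = C * (CS ^ (ε / (m + 2)) * CS ^ (m ^ 2)) := ⟨_, rfl⟩
  have hC10 : 0 < C1 := by
    rw [hC1]
    positivity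
  refine ⟨C1, by positivity, ?_⟩
  intro N _ T D hN hT hD H q hH hq S _ _ F lam W hF ho c M _ G lamG hc hG L hL t₀
  have hS : Pool.Agent.H27.L1.H34.GZ.SysZ m N T D := ⟨hm1, hN, Or.inr hm2, cv_reps hT, cv_dom hD⟩
  have hSM : ∀ i, Pool.Agent.H27.L1.H34.GZ.SysZ m (M i) T D := fun i =>
    ⟨hm1, NeZero.one_le, Or.inr hm2, cv_reps hT, cv_dom hD⟩
  have hH0 : 0 < H := by linarith
  have hN1 : (1 : ℝ) ≤ N := by exact_mod_cast hN
  have hN0 : (0 : ℝ) < N := by linarith
  have hq0 : 0 < q := by linarith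
  have ht : 0 ≤ |t₀| := abs_nonneg _
  have hqm : 1 ≤ q ^ m := one_le_pow₀ hq
  have hB : 1 ≤ (N : ℝ) * q ^ m := by nlinarith
  have hHH : H ≤ CS * H := le_mul_of_one_le_left hH0.le hCS
  have hHU : CS * H ≤ CS * (H + |t₀|) := mul_le_mul_of_nonneg_left (by linarith) hCS0.le
  have hUt : CS * H + |t₀| ≤ CS * (H + |t₀|) := by
    rw [mul_add]
    have : |t₀| ≤ CS * |t₀| := le_mul_of_one_le_left ht hCS
    linarith
  obtain ⟨R, hR⟩ : ∃ R : ℝ, R = (N : ℝ) * H ^ m := ⟨_, rfl⟩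
  have hHm : 1 ≤ H ^ m := one_le_pow₀ hH
  have hR1 : 1 ≤ R := by
    rw [hR]
    nlinarith
  have hR0 : 0 < R := by linarith
  obtain ⟨Y, hY⟩ : ∃ Y : ℝ, Y = ((N : ℝ) * (q * (H + |t₀|))) ^ ε * windowSize m N q H t₀ := ⟨_, rfl⟩
  have hW0 : (N : ℝ) ^ m * H ^ (m ^ 2) ≤ windowSize m N q H t₀ := by
    unfold windowSize
    have : 0 ≤ ((N : ℝ) * (q * (H + |t₀|)) ^ m) ^ ((m : ℝ) / 2) := by positivity
    linarith
  have hY0 : 0 ≤ Y := by
    rw [hY]
    have h1 : 0 ≤ (N : ℝ) ^ m * H ^ (m ^ 2) := by positivity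
    exact mul_nonneg (by positivity) (h1.trans hW0)
  have hRa : 0 < R ^ (-a) := Real.rpow_pos_of_pos hR0 _
  rw [← hR, ← hY]
  have h1 := h N T D hS (N * q ^ m) (CS * H) (CS * (H + |t₀|)) hB (hH.trans hHH) hHU S F
    lam W (cv_fam (hlip N T D hS) hF ho) c M G lamG hc
    (cv_tw hSM (fun i => hlip (M i) T D (hSM i)) hH0.le (by positivity) hHU hG) L hL t₀ hUt
  have hRR : (N : ℝ) * (CS * H) ^ m = CS ^ m * R := by
    rw [hR, mul_pow]
    ring
  rw [hRR] at h1
  have hCR1 : R ≤ CS ^ m * R := le_mul_of_one_le_left hR0.le hCSm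
  have hCR0 : 0 < CS ^ m * R := by positivity
  have hlog : 1 + Real.log (CS ^ m * R) ≤ K * (1 + Real.log R) := by
    rw [Real.log_mul (by positivity) hR0.ne', hK]
    have g1 := Real.log_nonneg hCSm
    have g2 := Real.log_nonneg hR1
    nlinarith [mul_nonneg g1 g2]
  have hthr : ∀ σ : ℝ, 1 / 2 + d ≤ σ →
      logBound A0 e (CS ^ m * R) σ ≤ logBound (A0 * K ^ (1 + e)) e R σ := fun σ hσ =>
    logBound_le hA0.le he.le hK1 (hR1.trans hCR1) hR1 hlog (by linarith)
  have h2 : C * ((N : ℝ) * (N * q ^ m) * (CS * (H + |t₀|))) ^ (ε / (m + 2)) *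
      Pool.Agent.H31.CT.Q3 m N (N * q ^ m) (CS * H) (CS * (H + |t₀|)) * (CS ^ m * R) ^ (-a) ≤
      C1 * Y * R ^ (-a) := by
    have g1 := mul_le_mul_of_nonneg_left (size_scale m hCS hε hN hH hq t₀) hC.le
    have g2 : (CS ^ m * R) ^ (-a) ≤ R ^ (-a) := by
      rw [Real.rpow_neg hCR0.le, Real.rpow_neg hR0.le]
      exact inv_anti₀ (by positivity) (Real.rpow_le_rpow hR0.le hCR1 ha.le)
    rw [← hY] at g1
    refine mul_le_mul ?_ g2 (by positivity) (by positivity)
    rw [mul_assoc]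
    exact g1.trans (le_of_eq (by rw [hC1]; ring))
  refine le_trans (Finset.sum_le_sum fun i _ => ?_) (h1.trans h2)
  refine mul_le_mul_of_nonneg_left ?_ (hF i).2.2.1
  refine Nat.cast_le.2 (Finset.card_le_card ?_)
  intro k hk
  rw [Finset.mem_filter, Finset.mem_Icc] at hk ⊢
  obtain ⟨⟨hk1, hk2⟩, hk3⟩ := hk
  rw [Int.ceil_le] at hk1
  rw [Int.le_floor] at hk2
  refine ⟨⟨?_, ?_⟩, out_mono hthr hk3⟩
  · rw [Int.ceil_le]
    linarith
  · rw [Int.le_floor]
    linarith

/-- an integer of the window near a point of the window -/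
lemma near_int {x τ P : ℝ} (hP : 1 ≤ P) (h : |x - τ| ≤ P) :
    ∃ k : ℤ, k ∈ (Finset.Icc ⌈τ - P⌉ ⌊τ + P⌋ : Finset ℤ) ∧ |x - k| ≤ 1 := by
  rw [abs_le] at h
  have h1 := Int.floor_le x
  have h2 := Int.lt_floor_add_one x
  by_cases hc : τ - P ≤ (⌊x⌋ : ℤ)
  · refine ⟨⌊x⌋, ?_, ?_⟩
    · rw [Finset.mem_Icc, Int.ceil_le, Int.le_floor]
      exact ⟨hc, by linarith⟩
    · rw [abs_le]
      constructor <;> linarith
  · push Not at hc
    refine ⟨⌊x⌋ + 1, ?_, ?_⟩
    · rw [Finset.mem_Icc, Int.ceil_le, Int.le_floor]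
      push_cast
      constructor <;> linarith
    · rw [abs_le]
      push_cast
      constructor <;> linarith

open Classical in
/-- one family of twists -/
theorem single (m : ℕ) (hm2 : 2 ≤ m) (b : ℝ) (hb : 1 ≤ b) (δ κ : ℝ) (hδ : 0 < δ) (hκ : 0 < κ) :
    ∃ a A : ℝ, 0 < a ∧ 0 < A ∧
    ∀ ε : ℝ, 0 < ε → ∃ C : ℝ, 0 < C ∧
      ∀ (T : ℕ → Finset (ZM m)) (D : Set (V m)), IsReps m T → IsDomain m D →
      ∀ (S : ℕ → Type) [∀ N, Fintype (S N)] [∀ N, DecidableEq (S N)]
        (F : ∀ N : ℕ, S N → Mat m → VecMod m N → ℂ) (lam : ∀ N : ℕ, S N → ℕ → ℂ)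
        (Q w : ∀ N : ℕ, S N → ℝ),
        (∀ (N : ℕ) [NeZero N], 1 ≤ N →
          (∀ i, IsForm m N T (F N i) (lam N i) ∧ IsSize D (F N i) (Q N i) ∧
            IsWeight D (F N) i (w N i)) ∧ IsOrthonormal D (F N)) →
      ∀ (c : ℕ → ℕ → ℂ) (q : ℕ → ℝ) (M : ∀ N : ℕ, S N → ℕ) [∀ N i, NeZero (M N i)]
        (G : ∀ (N : ℕ) (i : S N), Mat m → VecMod m (M N i) → ℂ) (lamG : ∀ N : ℕ, S N → ℕ → ℂ),
        (∀ N : ℕ, 1 ≤ N → 1 ≤ q N ∧ (∀ n, ‖c N n‖ ≤ 1) ∧
          ∀ i, IsTwist m N (M N i) T D (c N) (q N) (lam N i) (b * Q N i) (G N i) (lamG N i)) →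
      ∃ L : ∀ N : ℕ, S N → ℂ → ℂ,
        (∀ N : ℕ, 1 ≤ N → ∀ i, IsLFunction m (lamG N i) (L N i)) ∧
        (∀ N : ℕ, 1 ≤ N → ∀ H t₀ : ℝ, 1 ≤ H →
          (∀ J : S N → Finset ℝ, (∀ i, IsSpaced (J i) ∧ ∀ t ∈ J i, |t - t₀| ≤ H) →
            ∑ i with Q N i ≤ H, w N i * ∑ t ∈ J i, ‖L N i (1 / 2 + t * Complex.I)‖ ^ 2 ≤
              C * (N * (q N * (H + |t₀|))) ^ ε * windowSize m N (q N) H t₀) ∧
          ∑ i with Q N i ≤ H, ENNReal.ofReal (w N i) * ∫⁻ t in Set.Icc (t₀ - H) (t₀ + H),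
            ENNReal.ofReal (‖L N i (1 / 2 + t * Complex.I)‖ ^ 2) ≤
              ENNReal.ofReal (C * (N * (q N * (H + |t₀|))) ^ ε * windowSize m N (q N) H t₀) ∧
          ∑ i with Q N i ≤ H, w N i * (((Finset.Icc ⌈t₀ - H⌉ ⌊t₀ + H⌋ : Finset ℤ).filter
            fun k : ℤ => IsOutside (L N i) δ k 1 (logBound A κ (N * H ^ m))).card : ℝ) ≤
              C * (N * (q N * (H + |t₀|))) ^ ε * windowSize m N (q N) H t₀ *
                (N * H ^ m) ^ (-a)) ∧
        ∀ X : ℝ, 1 ≤ X → ∀ τ : ℕ → ℝ,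
          (∀ N : ℕ, 1 ≤ N → (N : ℝ) ≤ X → (q N * (1 + |τ N|)) ^ m ≤ X) →
          (∀ t : ∀ N : ℕ, S N → ℝ, (∀ N : ℕ, 1 ≤ N → ∀ i, |t N i - τ N| ≤ Q N i) →
            ∑ N ∈ Finset.Icc 1 ⌊X⌋₊, ∑ i with OrderLe (F N i) (Q N i) (w N i) X,
              ‖L N i (1 / 2 + t N i * Complex.I)‖ ^ 2 ≤ C * X ^ ((m : ℝ) + 1 + ε)) ∧
          (∀ η : ℝ, ((∑ N ∈ Finset.Icc 1 ⌊X⌋₊, (Finset.univ.filter fun i : S N =>
            OrderLe (F N i) (Q N i) (w N i) X ∧ ∃ t : ℝ, |t - τ N| ≤ Q N i ∧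
              X ^ η < ‖L N i (1 / 2 + t * Complex.I)‖).card : ℕ) : ℝ) ≤
                C * X ^ ((m : ℝ) + 1 - 2 * η + ε)) ∧
          ((∑ N ∈ Finset.Icc 1 ⌊X⌋₊, (Finset.univ.filter fun i : S N =>
            OrderLe (F N i) (Q N i) (w N i) X ∧
              IsOutside (L N i) δ (τ N) (Q N i) (logBound A κ X)).card : ℕ) : ℝ) ≤
                C * X ^ ((m : ℝ) + 1 - a) := by
  have hm1 : 1 ≤ m := by omega
  have hmR : (1 : ℝ) ≤ m := by exact_mod_cast hm1
  have hb0 : 0 < b := by linarith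
  obtain ⟨a1, A1, ha1, hA1, hout⟩ := one_out m hm2 b hb δ κ hδ hκ
  obtain ⟨a3, e3, C3, ha3, he3, hC3, hunz⟩ := Pool.Agent.H55.CZ.pf_UNZ m a1 hm1 ha1
  obtain ⟨cc, hc1, hord⟩ := order_weight
  have hc0 : 0 < cc := by linarith
  obtain ⟨K0, hK0⟩ : ∃ K0 : ℝ, K0 = cc ^ (2 * m) := ⟨_, rfl⟩
  have hK01 : 1 ≤ K0 := by
    rw [hK0]
    exact one_le_pow₀ hc1
  have hK00 : 0 < K0 := by linarith
  obtain ⟨K2, hK2⟩ : ∃ K2 : ℝ, K2 = 2 * m + 1 + Real.log K0 := ⟨_, rfl⟩
  have hK21 : 1 ≤ K2 := by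
    rw [hK2]
    linarith [Real.log_nonneg hK01]
  obtain ⟨A, hA⟩ : ∃ A : ℝ, A = A1 * K2 ^ (1 + κ) := ⟨_, rfl⟩
  have hA0 : 0 < A := by
    rw [hA]
    positivity
  obtain ⟨a, ha⟩ : ∃ a : ℝ, a = min a1 a3 := ⟨_, rfl⟩
  have ha0 : 0 < a := by
    rw [ha]
    exact lt_min ha1 ha3
  have haa1 : a ≤ a1 := by rw [ha]; exact min_le_left _ _
  have haa3 : a ≤ a3 := by rw [ha]; exact min_le_right _ _
  refine ⟨a, A, ha0, hA0, ?_⟩
  intro ε hε
  obtain ⟨e1, CU, he1, hCU, hU⟩ := Pool.Agent.H55.CT.universal_sum_t m hm1 ε hε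
  obtain ⟨e2, he20, he2e⟩ : ∃ e2 : ℝ, 0 < e2 ∧ 2 * e2 ≤ e1 :=
    ⟨e1 / 2, by positivity, by linarith⟩
  obtain ⟨C1, hC1, h1⟩ := one_window m hm2 b hb ε hε
  obtain ⟨C2, hC2, h2⟩ := one_window m hm2 b hb e2 he20
  obtain ⟨CO, hCO, hO⟩ := hout ε hε
  obtain ⟨e4, he4⟩ : ∃ e4 : ℝ, e4 = e3 / 4 := ⟨_, rfl⟩
  have he40 : 0 < e4 := by rw [he4]; positivity
  obtain ⟨CP, hCP, hP'⟩ := hout e4 he40
  obtain ⟨CW, hCW, hWs⟩ := wsum m hm2 e4 he40
  obtain ⟨CD, hCD⟩ : ∃ CD : ℝ, CD = CU * C2 * cc ^ ((m : ℝ) + 1 + ε) := ⟨_, rfl⟩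
  have hCD0 : 0 < CD := by
    rw [hCD]
    positivity
  obtain ⟨C5, hC5⟩ : ∃ C5 : ℝ, C5 = CP + CW := ⟨_, rfl⟩
  have hC50 : 0 < C5 := by
    rw [hC5]
    positivity
  obtain ⟨CE, hCE⟩ : ∃ CE : ℝ, CE = C3 * C5 * cc ^ ((m : ℝ) + 1 - a3) := ⟨_, rfl⟩
  have hCE0 : 0 < CE := by
    rw [hCE]
    positivity
  obtain ⟨CT, hCT⟩ : ∃ CT : ℝ, CT = C1 + CO + CD + CE := ⟨_, rfl⟩
  have hCT0 : 0 < CT := by
    rw [hCT]
    positivity
  have hC1T : C1 ≤ CT := by linarith
  have hCOT : CO ≤ CT := by linarith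
  have hCDT : CD ≤ CT := by linarith
  have hCET : CE ≤ CT := by linarith
  refine ⟨CT, hCT0, ?_⟩
  intro T D hT hD S _ _ F lam Q w hF c q M _ G lamG hG
  have hQ : ∀ N, 1 ≤ N → ∀ i : S N, 1 ≤ Q N i := by
    intro N h2 i
    have : NeZero N := ⟨by omega⟩
    exact ((hF N h2).1 i).2.1.1
  have hw : ∀ N, 1 ≤ N → ∀ i : S N, 0 ≤ w N i := by
    intro N h2 i
    have : NeZero N := ⟨by omega⟩
    exact ((hF N h2).1 i).2.2.1
  -- the L-functions
  have hL : ∀ N, 1 ≤ N → ∃ L : S N → ℂ → ℂ,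
      ∀ i, Pool.Agent.H27.L1.H34.GM.IsL m 1 (lamG N i) (L i) := by
    intro N hN
    have : NeZero N := ⟨by omega⟩
    obtain ⟨hf, ho⟩ := hF N hN
    have hle : ∀ i, Q N i ≤ 1 + ∑ i, Q N i := fun i => by
      have h3 : Q N i ≤ ∑ j, Q N j := Finset.single_le_sum (f := fun j => Q N j)
        (fun j _ => by
          have := hQ N hN j
          linarith) (Finset.mem_univ i)
      linarith
    obtain ⟨L, hL, -⟩ := h1 N T D hN hT hD (1 + ∑ i, Q N i) (q N) (by
      have : 0 ≤ ∑ i, Q N i := Finset.sum_nonneg (fun i _ => by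
        have := hQ N hN i
        linarith)
      linarith) (hG N hN).1 (S N) (F N) (lam N) (w N)
      (fun i => ⟨(hf i).1, size_mono (hf i).2.1 (hle i), (hf i).2.2⟩) ho (c N) (M N) (G N) (lamG N)
      (hG N hN).2.1 (fun i => ((hG N hN).2.2 i).mono (mul_le_mul_of_nonneg_left (hle i) hb0.le)) 0
    exact ⟨L, hL⟩
  obtain ⟨L, hL1⟩ : ∃ L : ∀ N : ℕ, S N → ℂ → ℂ,
      ∀ N, 1 ≤ N → ∀ i : S N, Pool.Agent.H27.L1.H34.GM.IsL m 1 (lamG N i) (L N i) := by
    refine ⟨fun N => if h : 1 ≤ N then (hL N h).choose else fun _ => 0, ?_⟩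
    intro N h2 i
    simp only [dif_pos h2]
    exact (hL N h2).choose_spec i
  -- one level, any exponent, any weights
  have key : ∀ (ε C : ℝ), (∀ (N : ℕ) [NeZero N] (T : ℕ → Finset (ZM m)) (D : Set (V m)), 1 ≤ N →
      IsReps m T → IsDomain m D → ∀ H q : ℝ, 1 ≤ H → 1 ≤ q →
      ∀ (S : Type) [Fintype S] [DecidableEq S]
      (F : S → Mat m → VecMod m N → ℂ) (lam : S → ℕ → ℂ) (W : S → ℝ),
      (∀ i, IsForm m N T (F i) (lam i) ∧ IsSize D (F i) H ∧ IsWeight D F i (W i)) →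
      IsOrthonormal D F → ∀ (c : ℕ → ℂ) (M : S → ℕ) [∀ i, NeZero (M i)]
      (G : ∀ i : S, Mat m → VecMod m (M i) → ℂ) (lamG : S → ℕ → ℂ), (∀ n, ‖c n‖ ≤ 1) →
      (∀ i, IsTwist m N (M i) T D c q (lam i) (b * H) (G i) (lamG i)) → ∀ t₀ : ℝ,
      ∃ L : S → ℂ → ℂ, (∀ i, Pool.Agent.H27.L1.H34.GM.IsL m 1 (lamG i) (L i)) ∧
        ∀ J : S → Finset ℝ, (∀ i, IsSpaced (J i)) → (∀ i, ∀ t ∈ J i, |t - t₀| ≤ H) →
          ∑ i, W i * ∑ t ∈ J i, ‖L i (1 / 2 + t * Complex.I)‖ ^ 2 ≤
            C * (((N : ℝ) * (q * (H + |t₀|))) ^ ε * windowSize m N q H t₀)) →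
      ∀ w' : ∀ N : ℕ, S N → ℝ,
      (∀ (N : ℕ) [NeZero N], 1 ≤ N → ∀ i, IsWeight D (F N) i (w' N i)) →
      ∀ N : ℕ, 1 ≤ N → ∀ P t₀ : ℝ, 1 ≤ P →
      ∀ J : {i : S N // Q N i ≤ P} → Finset ℝ,
        (∀ i, IsSpaced (J i)) → (∀ i, ∀ t ∈ J i, |t - t₀| ≤ P) →
          ∑ i, w' N i.1 * ∑ t ∈ J i, ‖L N i.1 (1 / 2 + t * Complex.I)‖ ^ 2 ≤
            C * (((N : ℝ) * (q N * (P + |t₀|))) ^ ε * windowSize m N (q N) P t₀) := by
    intro ε C h w' hw' N hN P t₀ hP J hJ hJP
    have : NeZero N := ⟨by omega⟩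
    obtain ⟨hf, ho⟩ := hF N hN
    obtain ⟨L', hL', hbd⟩ := h N T D hN hT hD P (q N) hP (hG N hN).1
      {i : S N // Q N i ≤ P} (fun i => F N i.1) (fun i => lam N i.1) (fun i => w' N i.1)
      (fun i => ⟨(hf i.1).1, size_mono (hf i.1).2.1 i.2,
        weight_sub (hw' N hN i.1) (fun i => Q N i ≤ P) i.2⟩)
      (orth_sub ho (fun i => Q N i ≤ P)) (c N) (fun i => M N i.1) (fun i => G N i.1)
      (fun i => lamG N i.1) (hG N hN).2.1 (fun i => ((hG N hN).2.2 i.1).mono (mul_le_mul_of_nonneg_left i.2 hb0.le)) t₀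
    have e : ∀ i : {i : S N // Q N i ≤ P}, L' i = L N i.1 := fun i =>
      l_uniq (hL' i) (hL1 N hN i.1)
    simp only [← e]
    exact hbd J hJ hJP
  refine ⟨L, fun N h2 i => cv_l (hL1 N h2 i), ?_, ?_⟩
  · -- one level
    intro N hN H t₀ hH
    have hq1 : 1 ≤ q N := (hG N hN).1
    have hW0 : 0 ≤ windowSize m N (q N) H t₀ := by
      unfold windowSize
      positivity
    have hle : C1 * (((N : ℝ) * (q N * (H + |t₀|))) ^ ε * windowSize m N (q N) H t₀) ≤
        CT * (N * (q N * (H + |t₀|))) ^ ε * windowSize m N (q N) H t₀ := by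
      rw [← mul_assoc]
      gcongr
    have : NeZero N := ⟨by omega⟩
    obtain ⟨hf, ho⟩ := hF N hN
    have keyW : ∀ J : {i : S N // Q N i ≤ H} → Finset ℝ, (∀ i, IsSpaced (J i)) →
        (∀ i, ∀ t ∈ J i, |t - t₀| ≤ H) →
        ∑ i, w N i.1 * ∑ t ∈ J i, ‖L N i.1 (1 / 2 + t * Complex.I)‖ ^ 2 ≤
          CT * (N * (q N * (H + |t₀|))) ^ ε * windowSize m N (q N) H t₀ :=
      fun J hJ hJH => (key ε C1 h1 w (fun N _ hN i => ((hF N hN).1 i).2.2) N hN H t₀ hH J hJ
        hJH).trans hle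
    refine ⟨?_, ?_, ?_⟩
    · intro J hJ
      refine le_trans (le_of_eq ?_) (keyW (fun i => J i.1)
        (fun i => (hJ i.1).1) (fun i => (hJ i.1).2))
      exact (Finset.sum_subtype (Finset.univ.filter fun i : S N => Q N i ≤ H)
        (fun i => by simp) (fun i => w N i * ∑ t ∈ J i,
          ‖L N i (1 / 2 + t * Complex.I)‖ ^ 2))
    · have h3 := Pool.Agent.H47.THN.spaced_win (ι := {i : S N // Q N i ≤ H}) H t₀
        (g := fun i t => w N i.1 * ‖L N i.1 (1 / 2 + t * Complex.I)‖ ^ 2)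
        (Q := CT * (N * (q N * (H + |t₀|))) ^ ε *
          windowSize m N (q N) H t₀) (by
          intro i t
          exact mul_nonneg (hw N hN i.1) (by positivity)) (by
          intro i
          have h3 : Continuous (L N i.1) := (hL1 N hN i.1).1.continuous
          exact continuous_const.mul ((h3.comp (by fun_prop)).norm.pow 2)) (by positivity) (by
          intro J hJ hJH
          simp only [← Finset.mul_sum]
          exact keyW J hJ hJH)
      refine le_trans (le_of_eq ?_) h3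
      rw [Finset.sum_subtype (Finset.univ.filter fun i : S N => Q N i ≤ H)
        (p := fun i => Q N i ≤ H) (fun i => by simp) (fun i => ENNReal.ofReal (w N i) *
          ∫⁻ t in Set.Icc (t₀ - H) (t₀ + H),
            ENNReal.ofReal (‖L N i (1 / 2 + t * Complex.I)‖ ^ 2))]
      refine Finset.sum_congr rfl (fun i _ => ?_)
      rw [← lintegral_const_mul']
      · refine lintegral_congr (fun t => ?_)
        rw [ENNReal.ofReal_mul (hw N hN i.1)]
      · exact ENNReal.ofReal_ne_top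
    · have h3 := hO N T D hN hT hD H (q N) hH hq1
        {i : S N // Q N i ≤ H} (fun i => F N i.1) (fun i => lam N i.1) (fun i => w N i.1)
        (fun i => ⟨(hf i.1).1, size_mono (hf i.1).2.1 i.2,
          weight_sub (hf i.1).2.2 (fun i => Q N i ≤ H) i.2⟩)
        (orth_sub ho (fun i => Q N i ≤ H)) (c N) (fun i => M N i.1) (fun i => G N i.1)
        (fun i => lamG N i.1) (hG N hN).2.1 (fun i => ((hG N hN).2.2 i.1).mono (mul_le_mul_of_nonneg_left i.2 hb0.le))
        (fun i => L N i.1) (fun i => hL1 N hN i.1) t₀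
      have hR1 : 1 ≤ (N : ℝ) * H ^ m := by
        have h4 : (1 : ℝ) ≤ N := by exact_mod_cast hN
        exact one_le_mul_of_one_le_of_one_le h4 (one_le_pow₀ hH)
      have hout' : ∀ i : {i : S N // Q N i ≤ H}, w N i.1 *
          (((Finset.Icc ⌈t₀ - H⌉ ⌊t₀ + H⌋ : Finset ℤ).filter
            fun k : ℤ => IsOutside (L N i.1) δ k 1 (logBound A κ (N * H ^ m))).card : ℝ) ≤
          w N i.1 * (((Finset.Icc ⌈t₀ - H⌉ ⌊t₀ + H⌋ : Finset ℤ).filter
            fun k : ℤ => IsOutside (L N i.1) δ k 1 (logBound A1 κ (N * H ^ m))).card : ℝ) := by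
        intro i
        refine mul_le_mul_of_nonneg_left ?_ (hw N hN i.1)
        refine Nat.cast_le.2 (Finset.card_le_card ?_)
        intro k hk
        rw [Finset.mem_filter] at hk ⊢
        refine ⟨hk.1, out_mono (fun σ hσ => ?_) hk.2⟩
        rw [hA]
        refine logBound_le hA1.le hκ.le hK21 hR1 hR1 ?_ (by linarith)
        exact le_mul_of_one_le_left (by linarith [Real.log_nonneg hR1]) hK21
      calc ∑ i with Q N i ≤ H, w N i * (((Finset.Icc ⌈t₀ - H⌉ ⌊t₀ + H⌋ : Finset ℤ).filter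
            fun k : ℤ => IsOutside (L N i) δ k 1 (logBound A κ (N * H ^ m))).card : ℝ) =
          ∑ i : {i : S N // Q N i ≤ H}, w N i.1 *
            (((Finset.Icc ⌈t₀ - H⌉ ⌊t₀ + H⌋ : Finset ℤ).filter
            fun k : ℤ => IsOutside (L N i.1) δ k 1 (logBound A κ (N * H ^ m))).card : ℝ) :=
            Finset.sum_subtype (Finset.univ.filter fun i : S N => Q N i ≤ H)
              (fun i => by simp) (fun i => w N i *
                (((Finset.Icc ⌈t₀ - H⌉ ⌊t₀ + H⌋ : Finset ℤ).filter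
                  fun k : ℤ => IsOutside (L N i) δ k 1 (logBound A κ (N * H ^ m))).card : ℝ))
        _ ≤ CO * (((N : ℝ) * (q N * (H + |t₀|))) ^ ε * windowSize m N (q N) H t₀) *
              ((N : ℝ) * H ^ m) ^ (-a1) := (Finset.sum_le_sum fun i _ => hout' i).trans h3
        _ ≤ CT * (((N : ℝ) * (q N * (H + |t₀|))) ^ ε * windowSize m N (q N) H t₀) *
              ((N : ℝ) * H ^ m) ^ (-a) := by
            have h5 : ((N : ℝ) * H ^ m) ^ (-a1) ≤ ((N : ℝ) * H ^ m) ^ (-a) :=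
              Real.rpow_le_rpow_of_exponent_le hR1 (by linarith)
            gcongr
        _ = _ := by ring
  · -- all levels
    intro X hX τ hτ
    have hX0 : 0 < X := by linarith
    have hcX : 1 ≤ cc * X := by nlinarith
    have hXc : X ≤ cc * X := le_mul_of_one_le_left hX0.le hc1
    -- the weights of the orders
    have hex : ∀ N, 1 ≤ N → ∀ i : S N, ∃ w' : ℝ, 1 ≤ w' ∧ w' ≤ Q N i ^ (m * (m - 1) / 2) ∧
        (w' = 1 ∨ w' = w N i ∨ ∃ mu : Fin m → ℂ, IsSpherical (F N i) mu ∧ w' = plancherel mu) ∧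
        (OrderLe (F N i) (Q N i) (w N i) X →
          (N : ℝ) ^ (m + 1) * Q N i ^ (m ^ 2) ≤ w' * (cc * X) ^ (m + 1)) := by
      intro N hN i
      have : NeZero N := ⟨by omega⟩
      obtain ⟨hf, ho⟩ := hF N hN
      by_cases hO : OrderLe (F N i) (Q N i) (w N i) X
      · obtain ⟨w', h3, h4, h5, h6⟩ := hord m N T (F N i) (lam N i) (Q N i) (w N i) X hm1
          (cv_nz hD hm1 ho i) (hf i).1 (hQ N hN i) hX hO
        exact ⟨w', h3, h4, Or.inr h5, fun _ => h6⟩
      · exact ⟨1, le_rfl, one_le_pow₀ (hQ N hN i), Or.inl rfl, fun h => absurd h hO⟩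
    obtain ⟨w', hw1, hw2, hw3, hw4⟩ : ∃ w' : ∀ N : ℕ, S N → ℝ,
        (∀ N, 1 ≤ N → ∀ i, 1 ≤ w' N i) ∧
        (∀ N, 1 ≤ N → ∀ i, w' N i ≤ Q N i ^ (m * (m - 1) / 2)) ∧
        (∀ N, 1 ≤ N → ∀ i, w' N i = 1 ∨ w' N i = w N i ∨
          ∃ mu : Fin m → ℂ, IsSpherical (F N i) mu ∧ w' N i = plancherel mu) ∧
        ∀ N, 1 ≤ N → ∀ i, OrderLe (F N i) (Q N i) (w N i) X →
          (N : ℝ) ^ (m + 1) * Q N i ^ (m ^ 2) ≤ w' N i * (cc * X) ^ (m + 1) := by
      refine ⟨fun N i => if h : 1 ≤ N then (hex N h i).choose else 1, ?_, ?_, ?_, ?_⟩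
      · intro N hN i
        simp only [dif_pos hN]
        exact (hex N hN i).choose_spec.1
      · intro N hN i
        simp only [dif_pos hN]
        exact (hex N hN i).choose_spec.2.1
      · intro N hN i
        simp only [dif_pos hN]
        exact (hex N hN i).choose_spec.2.2.1
      · intro N hN i
        simp only [dif_pos hN]
        exact (hex N hN i).choose_spec.2.2.2
    have hwt' : ∀ (N : ℕ) [NeZero N], 1 ≤ N → ∀ i, IsWeight D (F N) i (w' N i) := by
      intro N _ hN i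
      rcases hw3 N hN i with h3 | h3 | ⟨mu, h3, h4⟩
      · rw [h3]
        exact ⟨zero_le_one, Or.inl le_rfl⟩
      · rw [h3]
        exact ((hF N hN).1 i).2.2
      · exact ⟨by linarith [hw1 N hN i], Or.inr (Or.inl ⟨mu, h3, h4.le⟩)⟩
    -- the conductor in the windows
    have hYY : ∀ N : ℕ, 1 ≤ N → (N : ℝ) ≤ X → ∀ P : ℝ, 1 ≤ P →
        (N : ℝ) * (q N * (P + |τ N|)) ≤ X * (X * P) ∧
        windowSize m N (q N) P (τ N) ≤
          (N : ℝ) ^ m * P ^ (m ^ 2) + ((N : ℝ) * X * P ^ m) ^ ((m : ℝ) / 2) := by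
      intro N hN hNX P hP
      have hN1 : (1 : ℝ) ≤ N := by exact_mod_cast hN
      have hN0 : (0 : ℝ) < N := by linarith
      have hP0 : 0 < P := by linarith
      have hq1 : 1 ≤ q N := (hG N hN).1
      have hq0 : 0 < q N := by linarith
      have hτ1 : 0 ≤ |τ N| := abs_nonneg _
      obtain ⟨Y, hY⟩ : ∃ Y : ℝ, Y = q N * (1 + |τ N|) := ⟨_, rfl⟩
      have hY1 : 1 ≤ Y := by
        rw [hY]
        nlinarith
      have hYX : Y ^ m ≤ X := by
        rw [hY]
        exact hτ N hN hNX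
      have hYX' : Y ≤ X := (le_self_pow₀ hY1 (by omega)).trans hYX
      have hUY : q N * (P + |τ N|) ≤ Y * P := by
        rw [hY]
        nlinarith [mul_nonneg hτ1 (sub_nonneg.2 hP)]
      constructor
      · calc (N : ℝ) * (q N * (P + |τ N|)) ≤ X * (Y * P) := by gcongr
          _ ≤ X * (X * P) := by gcongr
      · unfold windowSize
        have g1 : (N : ℝ) * (q N * (P + |τ N|)) ^ m ≤ (N : ℝ) * X * P ^ m := by
          calc (N : ℝ) * (q N * (P + |τ N|)) ^ m ≤ (N : ℝ) * (Y * P) ^ m :=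
                mul_le_mul_of_nonneg_left (pow_le_pow_left₀ (by positivity) hUY m) hN0.le
            _ = (N : ℝ) * (Y ^ m * P ^ m) := by rw [mul_pow]
            _ ≤ (N : ℝ) * (X * P ^ m) := by gcongr
            _ = _ := by ring
        have g2 : ((N : ℝ) * (q N * (P + |τ N|)) ^ m) ^ ((m : ℝ) / 2) ≤
            ((N : ℝ) * X * P ^ m) ^ ((m : ℝ) / 2) :=
          Real.rpow_le_rpow (by positivity) g1 (by positivity)
        linarith
    have hall : ∀ t : ∀ N : ℕ, S N → ℝ, (∀ N : ℕ, 1 ≤ N → ∀ i, |t N i - τ N| ≤ Q N i) →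
        ∑ N ∈ Finset.Icc 1 ⌊X⌋₊, ∑ i with OrderLe (F N i) (Q N i) (w N i) X,
          ‖L N i (1 / 2 + t N i * Complex.I)‖ ^ 2 ≤ CD * X ^ ((m : ℝ) + 1 + ε) := by
      intro t ht
      have hnn : ∀ (N : ℕ) (i : S N), 0 ≤ (if (N : ℝ) ≤ X ∧
          OrderLe (F N i) (Q N i) (w N i) X then
          ‖L N i (1 / 2 + t N i * Complex.I)‖ ^ 2 else 0) := by
        intro N i
        split_ifs
        · positivity
        · exact le_rfl
      have h5 := hU C2 hC2.le S Q w'
        (fun N i => if (N : ℝ) ≤ X ∧ OrderLe (F N i) (Q N i) (w N i) X then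
          ‖L N i (1 / 2 + t N i * Complex.I)‖ ^ 2 else 0) (cc * X) hcX
        (fun N hN i => ⟨hQ N hN i, hw1 N hN i, hw2 N hN i, hnn N i⟩) (by
        intro N hN _ P hP
        have hN1 : (1 : ℝ) ≤ N := by exact_mod_cast hN
        have hN0 : (0 : ℝ) < N := by linarith
        have hP0 : 0 < P := by linarith
        by_cases hNX : (N : ℝ) ≤ X
        · have hq1 : 1 ≤ q N := (hG N hN).1
          have hτ1 : 0 ≤ |τ N| := abs_nonneg _
          obtain ⟨hy1, hy2⟩ := hYY N hN hNX P hP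
          have h3 := key e2 C2 h2 w' hwt' N hN P (τ N) hP (fun i => {t N i.1})
            (fun i => by
            intro a ha b hb hab
            rw [Finset.mem_singleton] at ha hb
            exact absurd (ha.trans hb.symm) hab) (fun i a ha => by
            rw [Finset.mem_singleton] at ha
            rw [ha]
            exact (ht N hN i.1).trans i.2)
          simp only [Finset.sum_singleton] at h3
          have h4 : ((N : ℝ) * (q N * (P + |τ N|))) ^ e2 ≤ (cc * X * P) ^ e1 := by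
            have g1 : (N : ℝ) * (q N * (P + |τ N|)) ≤ (cc * X * P) ^ (2 : ℝ) := by
              rw [show (2 : ℝ) = ((2 : ℕ) : ℝ) by norm_num, Real.rpow_natCast]
              calc (N : ℝ) * (q N * (P + |τ N|)) ≤ X * (X * P) := hy1
                _ ≤ (cc * X) * ((cc * X) * (P * P)) := by
                    have : P ≤ P * P := le_mul_of_one_le_left hP0.le hP
                    gcongr
                _ = _ := by ring
            have g5 : 1 ≤ cc * X * P := by nlinarith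
            calc ((N : ℝ) * (q N * (P + |τ N|))) ^ e2 ≤ ((cc * X * P) ^ (2 : ℝ)) ^ e2 :=
                  Real.rpow_le_rpow (by positivity) g1 he20.le
              _ = (cc * X * P) ^ (2 * e2) := by
                  rw [← Real.rpow_mul (by positivity)]
              _ ≤ (cc * X * P) ^ e1 := Real.rpow_le_rpow_of_exponent_le g5 he2e
          have h5 : windowSize m N (q N) P (τ N) ≤ (N : ℝ) ^ m * P ^ (m ^ 2) +
              ((N : ℝ) * (cc * X)) ^ ((m : ℝ) / 2) * P ^ ((m : ℝ) ^ 2 / 2) := by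
            refine hy2.trans ?_
            have g1 : ((N : ℝ) * X * P ^ m) ^ ((m : ℝ) / 2) ≤
                ((N : ℝ) * (cc * X)) ^ ((m : ℝ) / 2) * P ^ ((m : ℝ) ^ 2 / 2) := by
              calc ((N : ℝ) * X * P ^ m) ^ ((m : ℝ) / 2) ≤
                  ((N : ℝ) * (cc * X) * P ^ m) ^ ((m : ℝ) / 2) := by
                    refine Real.rpow_le_rpow (by positivity) ?_ (by positivity)
                    gcongr
                _ = _ := by
                    rw [Real.mul_rpow (by positivity) (by positivity),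
                      ← Real.rpow_natCast P m, ← Real.rpow_mul hP0.le]
                    congr 2
                    ring
            linarith
          have hW0 : 0 ≤ windowSize m N (q N) P (τ N) := by
            unfold windowSize
            positivity
          calc ∑ i ∈ Finset.univ.filter (fun i : S N => Q N i ≤ P),
                w' N i * (if (N : ℝ) ≤ X ∧ OrderLe (F N i) (Q N i) (w N i) X then
                  ‖L N i (1 / 2 + t N i * Complex.I)‖ ^ 2 else 0) ≤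
              ∑ i ∈ Finset.univ.filter (fun i : S N => Q N i ≤ P),
                w' N i * ‖L N i (1 / 2 + t N i * Complex.I)‖ ^ 2 := by
                refine Finset.sum_le_sum fun i _ => ?_
                have := hw1 N hN i
                refine mul_le_mul_of_nonneg_left ?_ (by linarith)
                split_ifs with h
                · exact le_rfl
                · positivity
            _ = ∑ i : {i : S N // Q N i ≤ P},
                w' N i.1 * ‖L N i.1 (1 / 2 + t N i.1 * Complex.I)‖ ^ 2 :=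
                Finset.sum_subtype (Finset.univ.filter fun i : S N => Q N i ≤ P)
                  (fun i => by simp) (fun i => w' N i * ‖L N i (1 / 2 + t N i * Complex.I)‖ ^ 2)
            _ ≤ _ := h3
            _ ≤ C2 * ((cc * X * P) ^ e1 * ((N : ℝ) ^ m * P ^ (m ^ 2) +
              ((N : ℝ) * (cc * X)) ^ ((m : ℝ) / 2) * P ^ ((m : ℝ) ^ 2 / 2))) := by
                gcongr
            _ = _ := by ring
        · have h6 : ∀ i, (if (N : ℝ) ≤ X ∧ OrderLe (F N i) (Q N i) (w N i) X then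
              ‖L N i (1 / 2 + t N i * Complex.I)‖ ^ 2 else 0) = 0 := fun i =>
            if_neg (fun h => hNX h.1)
          simp only [h6, mul_zero, Finset.sum_const_zero]
          positivity)
      calc ∑ N ∈ Finset.Icc 1 ⌊X⌋₊, ∑ i with OrderLe (F N i) (Q N i) (w N i) X,
            ‖L N i (1 / 2 + t N i * Complex.I)‖ ^ 2 ≤
          ∑ N ∈ Finset.Icc 1 ⌊cc * X⌋₊, ∑ i ∈ Finset.univ.filter (fun i : S N =>
            (N : ℝ) ^ (m + 1) * Q N i ^ (m ^ 2) ≤ w' N i * (cc * X) ^ (m + 1)),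
            (if (N : ℝ) ≤ X ∧ OrderLe (F N i) (Q N i) (w N i) X then
              ‖L N i (1 / 2 + t N i * Complex.I)‖ ^ 2 else 0) := by
            refine (Finset.sum_le_sum fun N hN => ?_).trans
              (Finset.sum_le_sum_of_subset_of_nonneg (Finset.Icc_subset_Icc_right
                (Nat.floor_mono hXc))
                (fun N _ _ => Finset.sum_nonneg fun i _ => hnn N i))
            have hN1 := (Finset.mem_Icc.1 hN).1
            have hN2 : (N : ℝ) ≤ X :=
              (Nat.cast_le.2 (Finset.mem_Icc.1 hN).2).trans (Nat.floor_le hX0.le)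
            calc ∑ i with OrderLe (F N i) (Q N i) (w N i) X,
                  ‖L N i (1 / 2 + t N i * Complex.I)‖ ^ 2 =
                ∑ i with OrderLe (F N i) (Q N i) (w N i) X,
                  (if (N : ℝ) ≤ X ∧ OrderLe (F N i) (Q N i) (w N i) X then
                    ‖L N i (1 / 2 + t N i * Complex.I)‖ ^ 2 else 0) := by
                  refine Finset.sum_congr rfl fun i hi => ?_
                  rw [if_pos ⟨hN2, (Finset.mem_filter.1 hi).2⟩]
              _ ≤ _ := by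
                  refine Finset.sum_le_sum_of_subset_of_nonneg ?_ (fun i _ _ => hnn N i)
                  intro i hi
                  rw [Finset.mem_filter] at hi ⊢
                  exact ⟨hi.1, hw4 N hN1 i hi.2⟩
        _ ≤ CU * C2 * (cc * X) ^ ((m : ℝ) + 1 + ε) := h5
        _ = _ := by
            rw [Real.mul_rpow hc0.le hX0.le, hCD]
            ring
    refine ⟨?_, ?_, ?_⟩
    · intro t ht
      refine (hall t ht).trans ?_
      gcongr
    · intro η
      obtain ⟨A, hA⟩ : ∃ A : ℝ, A = X ^ η := ⟨_, rfl⟩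
      have hA0 : 0 < A := by
        rw [hA]
        positivity
      have hA2 : A ^ 2 = X ^ (2 * η) := by
        rw [hA, ← Real.rpow_natCast, ← Real.rpow_mul hX0.le]
        congr 1
        push_cast
        ring
      obtain ⟨t, ht⟩ : ∃ t : ∀ N : ℕ, S N → ℝ, ∀ N, 1 ≤ N → ∀ i, |t N i - τ N| ≤ Q N i ∧
          ((∃ t : ℝ, |t - τ N| ≤ Q N i ∧ A < ‖L N i (1 / 2 + t * Complex.I)‖) →
            A < ‖L N i (1 / 2 + t N i * Complex.I)‖) := by
        refine ⟨fun N i => if h : ∃ t : ℝ, |t - τ N| ≤ Q N i ∧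
          A < ‖L N i (1 / 2 + t * Complex.I)‖ then h.choose else τ N, ?_⟩
        intro N hN i
        by_cases h : ∃ t : ℝ, |t - τ N| ≤ Q N i ∧ A < ‖L N i (1 / 2 + t * Complex.I)‖
        · simp only [dif_pos h]
          exact ⟨h.choose_spec.1, fun _ => h.choose_spec.2⟩
        · simp only [dif_neg h]
          refine ⟨?_, fun h2 => absurd h2 h⟩
          rw [sub_self, abs_zero]
          linarith [hQ N hN i]
      have h3 := hall t (fun N hN i => (ht N hN i).1)
      have h4 : ((∑ N ∈ Finset.Icc 1 ⌊X⌋₊, (Finset.univ.filter fun i : S N =>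
            OrderLe (F N i) (Q N i) (w N i) X ∧ ∃ t : ℝ, |t - τ N| ≤ Q N i ∧
              A < ‖L N i (1 / 2 + t * Complex.I)‖).card : ℕ) : ℝ) * A ^ 2 ≤
          ∑ N ∈ Finset.Icc 1 ⌊X⌋₊, ∑ i with OrderLe (F N i) (Q N i) (w N i) X,
            ‖L N i (1 / 2 + t N i * Complex.I)‖ ^ 2 := by
        rw [Nat.cast_sum, Finset.sum_mul]
        refine Finset.sum_le_sum fun N hN => ?_
        have hN1 := (Finset.mem_Icc.1 hN).1
        rw [← nsmul_eq_mul, ← Finset.sum_const]
        refine (Finset.sum_le_sum fun i hi => ?_).trans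
          (Finset.sum_le_sum_of_subset_of_nonneg (fun i hi => ?_) (fun i _ _ => by positivity))
        · have h5 := (ht N hN1 i).2 (Finset.mem_filter.1 hi).2.2
          exact pow_le_pow_left₀ hA0.le h5.le 2
        · rw [Finset.mem_filter] at hi ⊢
          exact ⟨hi.1, hi.2.1⟩
      have h5 := h4.trans h3
      rw [← le_div_iff₀ (by positivity)] at h5
      rw [← hA]
      refine h5.trans ?_
      rw [hA2]
      calc CD * X ^ ((m : ℝ) + 1 + ε) / X ^ (2 * η) = CD * X ^ ((m : ℝ) + 1 - 2 * η + ε) := by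
            rw [mul_div_assoc, ← Real.rpow_sub hX0]
            congr 2
            ring
        _ ≤ _ := by gcongr
    · -- the values to the right of the critical line
      obtain ⟨v, hv⟩ : ∃ v : ∀ N : ℕ, S N → ℝ, v = fun (N : ℕ) (i : S N) => if (N : ℝ) ≤ X ∧
          OrderLe (F N i) (Q N i) (w N i) X ∧ IsOutside (L N i) δ (τ N) (Q N i) (logBound A κ X) then
          (1 : ℝ) else 0 := ⟨_, rfl⟩
      have hv0 : ∀ N i, 0 ≤ v N i ∧ v N i ≤ 1 := by
        intro N i
        rw [hv]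
        simp only
        split_ifs <;> norm_num
      have hsum : ∀ N : ℕ, 1 ≤ N → ∀ P : ℝ, 1 ≤ P →
          ∑ i ∈ Finset.univ.filter (fun i : S N => Q N i ≤ P), w' N i ≤
            CW * (((N : ℝ) * P) ^ e4 * ((N : ℝ) ^ m * P ^ (m ^ 2))) := by
        intro N hN P hP
        have : NeZero N := ⟨by omega⟩
        obtain ⟨hf, ho⟩ := hF N hN
        have h3 := hWs N T D hN hT hD P hP {i : S N // Q N i ≤ P} (fun i => F N i.1)
          (fun i => lam N i.1) (fun i => w' N i.1) (fun i => ⟨(hf i.1).1,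
            size_mono (hf i.1).2.1 i.2, weight_sub (hwt' N hN i.1) (fun i => Q N i ≤ P) i.2⟩)
          (orth_sub ho (fun i => Q N i ≤ P))
        have h4 : ∑ i ∈ Finset.univ.filter (fun i : S N => Q N i ≤ P), w' N i =
            ∑ i : {i : S N // Q N i ≤ P}, w' N i.1 :=
          Finset.sum_subtype (Finset.univ.filter fun i : S N => Q N i ≤ P)
            (fun i => by simp) (fun i => w' N i)
        rw [h4]
        refine le_trans ?_ h3
        have h5 : 0 ≤ ∑ i : {i : S N // Q N i ≤ P}, w' N i.1 :=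
          Finset.sum_nonneg fun i _ => by linarith [hw1 N hN i.1]
        exact le_mul_of_one_le_right h5 hP
      have h3 := hunz C5 (cc * X) hC50.le hcX S Q w' v
        (fun N hN i => ⟨hQ N hN i, hw1 N hN i, hw2 N hN i, (hv0 N i).1, (hv0 N i).2⟩) (by
          intro N hN P hP
          have hN1 : (1 : ℝ) ≤ N := by exact_mod_cast hN
          have hNP : 1 ≤ (N : ℝ) * P := one_le_mul_of_one_le_of_one_le hN1 hP
          refine (hsum N hN P hP).trans ?_
          have g1 : ((N : ℝ) * P) ^ e4 ≤ ((N : ℝ) * P) ^ e3 :=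
            Real.rpow_le_rpow_of_exponent_le hNP (by linarith)
          have g2 : CW ≤ C5 := by
            rw [hC5]
            linarith
          calc CW * (((N : ℝ) * P) ^ e4 * ((N : ℝ) ^ m * P ^ (m ^ 2))) ≤
              C5 * (((N : ℝ) * P) ^ e3 * ((N : ℝ) ^ m * P ^ (m ^ 2))) := by gcongr
            _ = _ := by ring) (by
          intro N hN hNcX P hP hPX
          have hN1 : (1 : ℝ) ≤ N := by exact_mod_cast hN
          have hN0 : (0 : ℝ) < N := by linarith
          have hP0 : 0 < P := by linarith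
          by_cases hNX : (N : ℝ) ≤ X
          · obtain ⟨R, hR⟩ : ∃ R : ℝ, R = (N : ℝ) * P ^ m := ⟨_, rfl⟩
            have hR1 : 1 ≤ R := by
              rw [hR]
              exact one_le_mul_of_one_le_of_one_le hN1 (one_le_pow₀ hP)
            have hR0 : 0 < R := by linarith
            have hPX' : P ≤ (cc * X) ^ 2 := by
              rw [show (2 : ℝ) = ((2 : ℕ) : ℝ) by norm_num, Real.rpow_natCast] at hPX
              exact hPX
            have hRX : R ≤ K0 * X ^ (2 * m + 1) := by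
              rw [hR, hK0]
              calc (N : ℝ) * P ^ m ≤ X * ((cc * X) ^ 2) ^ m := by gcongr
                _ = _ := by
                    rw [← pow_mul, mul_pow, pow_succ X (2 * m)]
                    ring
            rw [← hR]
            obtain ⟨Z, hZ⟩ : ∃ Z : ℝ, Z = (N : ℝ) ^ m * P ^ (m ^ 2) +
              ((N : ℝ) * (cc * X) * P ^ m) ^ ((m : ℝ) / 2) := ⟨_, rfl⟩
            have hZ1 : (N : ℝ) ^ m * P ^ (m ^ 2) ≤ Z := by
              rw [hZ]
              have : 0 ≤ ((N : ℝ) * (cc * X) * P ^ m) ^ ((m : ℝ) / 2) := by positivity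
              linarith
            have hZ0 : 0 ≤ Z := le_trans (by positivity) hZ1
            have hRa : 0 < R ^ (-a1) := Real.rpow_pos_of_pos hR0 _
            rw [← hZ]
            have heps : ∀ y : ℝ, 0 ≤ y → y ≤ X * (X * P) → y ^ e4 ≤ (cc * X) ^ e3 := by
              intro y hy hy2
              have g1 : y ≤ (cc * X) ^ (4 : ℝ) := by
                rw [show (4 : ℝ) = ((4 : ℕ) : ℝ) by norm_num, Real.rpow_natCast]
                calc y ≤ X * (X * P) := hy2
                  _ ≤ (cc * X) * ((cc * X) * (cc * X) ^ 2) := by gcongr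
                  _ = _ := by ring
              calc y ^ e4 ≤ ((cc * X) ^ (4 : ℝ)) ^ e4 := Real.rpow_le_rpow hy g1 he40.le
                _ = (cc * X) ^ e3 := by
                    rw [← Real.rpow_mul (by positivity), he4]
                    congr 1
                    ring
            have : NeZero N := ⟨by omega⟩
            obtain ⟨hf, ho⟩ := hF N hN
            obtain ⟨hy1, hy2⟩ := hYY N hN hNX P hP
            have hlog : 1 + Real.log R ≤ K2 * (1 + Real.log X) := by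
              have g1 := Real.log_le_log hR0 hRX
              rw [Real.log_mul hK00.ne' (by positivity), Real.log_pow] at g1
              push_cast at g1
              have g2 := Real.log_nonneg hX
              have g3 := mul_nonneg (Real.log_nonneg hK01) g2
              rw [hK2]
              nlinarith
            have hthr : ∀ σ : ℝ, 1 / 2 + δ ≤ σ → logBound A1 κ R σ ≤ logBound A κ X σ := by
              intro σ hσ
              rw [hA]
              exact logBound_le hA1.le hκ.le hK21 hR1 hX hlog (by linarith)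
            have h4 := hP' N T D hN hT hD P (q N) hP (hG N hN).1
              {i : S N // Q N i ≤ P} (fun i => F N i.1) (fun i => lam N i.1)
              (fun i => w' N i.1) (fun i => ⟨(hf i.1).1, size_mono (hf i.1).2.1 i.2,
                weight_sub (hwt' N hN i.1) (fun i => Q N i ≤ P) i.2⟩)
              (orth_sub ho (fun i => Q N i ≤ P)) (c N) (fun i => M N i.1) (fun i => G N i.1)
              (fun i => lamG N i.1) (hG N hN).2.1 (fun i => ((hG N hN).2.2 i.1).mono (mul_le_mul_of_nonneg_left i.2 hb0.le))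
              (fun i => L N i.1) (fun i => hL1 N hN i.1) (τ N)
            rw [← hR] at h4
            have hq1 : 1 ≤ q N := (hG N hN).1
            have hτ1 : 0 ≤ |τ N| := abs_nonneg _
            have hW0 : 0 ≤ windowSize m N (q N) P (τ N) := by
              unfold windowSize
              positivity
            have hWZ : windowSize m N (q N) P (τ N) ≤ Z := by
              refine hy2.trans ?_
              rw [hZ]
              gcongr
            calc ∑ i ∈ Finset.univ.filter (fun i : S N => Q N i ≤ P), w' N i * v N i =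
                ∑ i : {i : S N // Q N i ≤ P}, w' N i.1 * v N i.1 :=
                  Finset.sum_subtype (Finset.univ.filter fun i : S N => Q N i ≤ P)
                    (fun i => by simp) (fun i => w' N i * v N i)
              _ ≤ ∑ i : {i : S N // Q N i ≤ P}, w' N i.1 *
                  (((Finset.Icc ⌈τ N - P⌉ ⌊τ N + P⌋ : Finset ℤ).filter
                  (fun k : ℤ => IsOutside (L N i.1) δ k 1 (logBound A1 κ R))).card : ℝ) := by
                  refine Finset.sum_le_sum fun i _ => ?_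
                  refine mul_le_mul_of_nonneg_left ?_ (by linarith [hw1 N hN i.1])
                  by_cases hbad : (N : ℝ) ≤ X ∧ OrderLe (F N i.1) (Q N i.1) (w N i.1) X ∧
                      IsOutside (L N i.1) δ (τ N) (Q N i.1) (logBound A κ X)
                  · have g1 : v N i.1 = 1 := by
                      rw [hv]
                      simp only [if_pos hbad]
                    rw [g1]
                    obtain ⟨s, hs1, hs2, hs3⟩ := hbad.2.2
                    obtain ⟨k, hk1, hk2⟩ := near_int hP (hs2.trans i.2)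
                    have g2 : 1 ≤ ((Finset.Icc ⌈τ N - P⌉ ⌊τ N + P⌋ : Finset ℤ).filter
                        (fun k : ℤ => IsOutside (L N i.1) δ k 1 (logBound A1 κ R))).card := by
                      rw [Nat.one_le_iff_ne_zero]
                      refine Finset.card_ne_zero_of_mem (a := k) ?_
                      rw [Finset.mem_filter]
                      exact ⟨hk1, out_mono hthr ⟨s, hs1, hk2, hs3⟩⟩
                    exact_mod_cast g2
                  · have g1 : v N i.1 = 0 := by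
                      rw [hv]
                      simp only [if_neg hbad]
                    rw [g1]
                    exact Nat.cast_nonneg _
              _ ≤ CP * (((N : ℝ) * (q N * (P + |τ N|))) ^ e4 *
                  windowSize m N (q N) P (τ N)) * R ^ (-a1) := h4
              _ ≤ C5 * ((cc * X) ^ e3 * Z) * R ^ (-a1) := by
                  have g1 := heps _ (by positivity) hy1
                  have g2 : CP ≤ C5 := by
                    rw [hC5]
                    linarith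
                  gcongr
              _ = _ := by ring
          · have h6 : ∀ i, v N i = 0 := by
              intro i
              rw [hv]
              simp only [if_neg (fun h : (N : ℝ) ≤ X ∧ OrderLe (F N i) (Q N i) (w N i) X ∧
                IsOutside (L N i) δ (τ N) (Q N i) (logBound A κ X) => hNX h.1)]
            simp only [h6, mul_zero, Finset.sum_const_zero]
            positivity)
      calc ((∑ N ∈ Finset.Icc 1 ⌊X⌋₊, (Finset.univ.filter fun i : S N =>
            OrderLe (F N i) (Q N i) (w N i) X ∧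
              IsOutside (L N i) δ (τ N) (Q N i) (logBound A κ X)).card : ℕ) : ℝ) ≤
          ∑ N ∈ Finset.Icc 1 ⌊cc * X⌋₊, ∑ i ∈ Finset.univ.filter (fun i : S N =>
            (N : ℝ) ^ (m + 1) * Q N i ^ (m ^ 2) ≤ w' N i * (cc * X) ^ (m + 1)), v N i := by
            rw [Nat.cast_sum]
            refine (Finset.sum_le_sum fun N hN => ?_).trans
              (Finset.sum_le_sum_of_subset_of_nonneg (Finset.Icc_subset_Icc_right
                (Nat.floor_mono hXc))
                (fun N _ _ => Finset.sum_nonneg fun i _ => (hv0 N i).1))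
            have hN1 := (Finset.mem_Icc.1 hN).1
            have hN2 : (N : ℝ) ≤ X :=
              (Nat.cast_le.2 (Finset.mem_Icc.1 hN).2).trans (Nat.floor_le hX0.le)
            rw [Finset.card_eq_sum_ones, Nat.cast_sum]
            refine (Finset.sum_le_sum fun i hi => ?_).trans
              (Finset.sum_le_sum_of_subset_of_nonneg (fun i hi => ?_) (fun i _ _ => (hv0 N i).1))
            · have g1 : v N i = 1 := by
                rw [hv]
                simp only [if_pos (⟨hN2, (Finset.mem_filter.1 hi).2⟩ : (N : ℝ) ≤ X ∧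
                  OrderLe (F N i) (Q N i) (w N i) X ∧
                  IsOutside (L N i) δ (τ N) (Q N i) (logBound A κ X))]
              rw [g1, Nat.cast_one]
            · rw [Finset.mem_filter] at hi ⊢
              exact ⟨hi.1, hw4 N hN1 i hi.2.1⟩
        _ ≤ C3 * C5 * (cc * X) ^ ((m : ℝ) + 1 - a3) := h3
        _ = CE * X ^ ((m : ℝ) + 1 - a3) := by
            rw [Real.mul_rpow hc0.le hX0.le, hCE]
            ring
        _ ≤ CT * X ^ ((m : ℝ) + 1 - a) := by
            have g1 : X ^ ((m : ℝ) + 1 - a3) ≤ X ^ ((m : ℝ) + 1 - a) :=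
              Real.rpow_le_rpow_of_exponent_le hX (by linarith)
            gcongr


/-- rounding to zero -/
lemma round_zero {x Y : ℝ} (h : |x| ≤ Y) : ∃ j : ℤ, j ∈ (Finset.Icc (-(⌊Y⌋₊ : ℤ)) ⌊Y⌋₊ : Finset ℤ) ∧
    |x - j| ≤ 1 ∧ |(j : ℝ)| ≤ Y := by
  have hY : 0 ≤ Y := (abs_nonneg x).trans h
  have hYf : ((⌊Y⌋₊ : ℕ) : ℤ) = ⌊Y⌋ := Int.natCast_floor_eq_floor hY
  rw [hYf]
  rw [abs_le] at h
  rcases le_or_gt 0 x with hx | hx
  · have h1 := Int.floor_le x
    have h2 := Int.lt_floor_add_one x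
    have h3 : 0 ≤ ⌊x⌋ := Int.floor_nonneg.2 hx
    have h4 : (0 : ℝ) ≤ (⌊x⌋ : ℤ) := by exact_mod_cast h3
    refine ⟨⌊x⌋, ?_, ?_, ?_⟩
    · rw [Finset.mem_Icc]
      have h5 : ⌊x⌋ ≤ ⌊Y⌋ := Int.floor_le_floor h.2
      constructor <;> omega
    · rw [abs_le]
      constructor <;> linarith
    · rw [abs_le]
      constructor <;> linarith
  · have h1 := Int.le_ceil x
    have h2 := Int.ceil_lt_add_one x
    have h3 : ⌈x⌉ ≤ 0 := Int.ceil_le.2 (by
      push_cast
      exact hx.le)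
    have h4 : ((⌈x⌉ : ℤ) : ℝ) ≤ 0 := by exact_mod_cast h3
    refine ⟨⌈x⌉, ?_, ?_, ?_⟩
    · rw [Finset.mem_Icc]
      have h5 : -⌊Y⌋ ≤ ⌈x⌉ := by
        rw [← Int.ceil_neg]
        exact Int.ceil_le_ceil h.1
      constructor <;> omega
    · rw [abs_le]
      constructor <;> linarith
    · rw [abs_le]
      constructor <;> linarith

open Classical in
/-- the union over finitely many events -/
lemma card_union {S K J : Type} [Fintype S] [Fintype K] (Z : Finset J) (p : S → Prop)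
    (b : K → J → S → Prop) :
    ((Finset.univ.filter fun i : S => p i ∧ ∃ k, ∃ j ∈ Z, b k j i).card : ℕ) ≤
      ∑ k, ∑ j ∈ Z, (Finset.univ.filter fun i : S => p i ∧ b k j i).card := by
  refine le_trans (Finset.card_le_card (t := Finset.univ.biUnion fun k => Z.biUnion fun j =>
    Finset.univ.filter fun i : S => p i ∧ b k j i) ?_) (Finset.card_biUnion_le.trans
      (Finset.sum_le_sum fun k _ => Finset.card_biUnion_le))
  intro i hi
  obtain ⟨h1, k, j, hj, h2⟩ := (Finset.mem_filter.1 hi).2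
  exact Finset.mem_biUnion.2 ⟨k, Finset.mem_univ k, Finset.mem_biUnion.2 ⟨j, hj,
    Finset.mem_filter.2 ⟨Finset.mem_univ i, h1, h2⟩⟩⟩

open Classical in
/-- the union over the twists and over the windows -/
lemma union_all {S : ℕ → Type} [∀ N, Fintype (S N)] {K : Type} [Fintype K] {Q : ∀ N : ℕ, S N → ℝ}
    (hQ : ∀ N : ℕ, 1 ≤ N → ∀ i, 1 ≤ Q N i) (O : ∀ N : ℕ, S N → Prop)
    (B : K → ∀ N : ℕ, S N → ℝ → Prop) (τ : K → ℕ → ℝ) {X Y M : ℝ} (hY : 0 ≤ Y) (hM : 0 ≤ M)
    (h : ∀ k, ∀ j : ℤ, |(j : ℝ)| ≤ Y → ((∑ N ∈ Finset.Icc 1 ⌊X⌋₊, (Finset.univ.filter fun i : S N =>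
      O N i ∧ ∃ x : ℝ, |x - (τ k N + j)| ≤ Q N i ∧ B k N i x).card : ℕ) : ℝ) ≤ M) :
    ((∑ N ∈ Finset.Icc 1 ⌊X⌋₊, (Finset.univ.filter fun i : S N =>
      O N i ∧ ∃ k, ∃ x : ℝ, |x - τ k N| ≤ max Y (Q N i) ∧ B k N i x).card : ℕ) : ℝ) ≤
      2 * (Fintype.card K * (1 + Y) * M) := by
  obtain ⟨Z, hZ⟩ : ∃ Z : Finset ℤ, Z = Finset.Icc (-(⌊Y⌋₊ : ℤ)) ⌊Y⌋₊ := ⟨_, rfl⟩
  have hZj : ∀ j ∈ Z, |(j : ℝ)| ≤ Y := by
    intro j hj
    rw [hZ, Finset.mem_Icc] at hj
    have h1 : ((⌊Y⌋₊ : ℕ) : ℝ) ≤ Y := Nat.floor_le hY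
    have h2 : (j : ℝ) ≤ ((⌊Y⌋₊ : ℕ) : ℝ) := by exact_mod_cast hj.2
    have h3 : -((⌊Y⌋₊ : ℕ) : ℝ) ≤ (j : ℝ) := by exact_mod_cast hj.1
    rw [abs_le]
    constructor <;> linarith
  have hZc : (Z.card : ℝ) ≤ 2 * (1 + Y) := by
    rw [hZ, Int.card_Icc]
    have h1 : ((⌊Y⌋₊ : ℤ) + 1 - -(⌊Y⌋₊ : ℤ)).toNat = 2 * ⌊Y⌋₊ + 1 := by omega
    have h2 : ((⌊Y⌋₊ : ℕ) : ℝ) ≤ Y := Nat.floor_le hY
    rw [h1]
    push_cast
    linarith
  have h1 : (∑ N ∈ Finset.Icc 1 ⌊X⌋₊, (Finset.univ.filter fun i : S N =>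
      O N i ∧ ∃ k, ∃ x : ℝ, |x - τ k N| ≤ max Y (Q N i) ∧ B k N i x).card : ℕ) ≤
      ∑ k, ∑ j ∈ Z, ∑ N ∈ Finset.Icc 1 ⌊X⌋₊, (Finset.univ.filter fun i : S N =>
        O N i ∧ ∃ x : ℝ, |x - (τ k N + j)| ≤ Q N i ∧ B k N i x).card := by
    have h2 : ∀ N ∈ Finset.Icc 1 ⌊X⌋₊, (Finset.univ.filter fun i : S N =>
        O N i ∧ ∃ k, ∃ x : ℝ, |x - τ k N| ≤ max Y (Q N i) ∧ B k N i x).card ≤
        ∑ k, ∑ j ∈ Z, (Finset.univ.filter fun i : S N =>
          O N i ∧ ∃ x : ℝ, |x - (τ k N + j)| ≤ Q N i ∧ B k N i x).card := by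
      intro N hN
      have hN1 := (Finset.mem_Icc.1 hN).1
      refine le_trans (Finset.card_le_card ?_) (card_union Z (O N)
        (fun k (j : ℤ) i => ∃ x : ℝ, |x - (τ k N + j)| ≤ Q N i ∧ B k N i x))
      intro i hi
      obtain ⟨h3, k, x, hx, hB⟩ := (Finset.mem_filter.1 hi).2
      rw [Finset.mem_filter]
      refine ⟨Finset.mem_univ i, h3, k, ?_⟩
      rcases le_total Y (Q N i) with h8 | h8
      · rw [max_eq_right h8] at hx
        refine ⟨0, ?_, x, ?_, hB⟩
        · rw [hZ, Finset.mem_Icc]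
          omega
        · simpa using hx
      · rw [max_eq_left h8] at hx
        obtain ⟨j, hj1, hj2, -⟩ := round_zero hx
        refine ⟨j, by rw [hZ]; exact hj1, x, ?_, hB⟩
        rw [← sub_sub]
        exact hj2.trans (hQ N hN1 i)
    refine (Finset.sum_le_sum h2).trans (le_of_eq ?_)
    rw [Finset.sum_comm]
    refine Finset.sum_congr rfl fun k _ => ?_
    rw [Finset.sum_comm]
  calc ((∑ N ∈ Finset.Icc 1 ⌊X⌋₊, (Finset.univ.filter fun i : S N =>
      O N i ∧ ∃ k, ∃ x : ℝ, |x - τ k N| ≤ max Y (Q N i) ∧ B k N i x).card : ℕ) : ℝ) ≤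
      ((∑ k, ∑ j ∈ Z, ∑ N ∈ Finset.Icc 1 ⌊X⌋₊, (Finset.univ.filter fun i : S N =>
        O N i ∧ ∃ x : ℝ, |x - (τ k N + j)| ≤ Q N i ∧ B k N i x).card : ℕ) : ℝ) := by
        exact_mod_cast h1
    _ = ∑ k : K, ∑ j ∈ Z, ((∑ N ∈ Finset.Icc 1 ⌊X⌋₊, (Finset.univ.filter fun i : S N =>
        O N i ∧ ∃ x : ℝ, |x - (τ k N + j)| ≤ Q N i ∧ B k N i x).card : ℕ) : ℝ) := by
        push_cast
        rfl
    _ ≤ ∑ _k : K, ∑ _j ∈ Z, M :=
        Finset.sum_le_sum fun k _ => Finset.sum_le_sum fun j hj => h k j (hZj j hj)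
    _ = Fintype.card K * (Z.card * M) := by
        rw [Finset.sum_const, Finset.sum_const, nsmul_eq_mul, nsmul_eq_mul, Finset.card_univ]
    _ ≤ Fintype.card K * ((2 * (1 + Y)) * M) := by gcongr
    _ = _ := by ring

/-- outside of an interval at a height -/
lemma out_iff (L : ℂ → ℂ) (d t r : ℝ) (f : ℝ → ℝ) : IsOutside L d t r f ↔
    ∃ x : ℝ, |x - t| ≤ r ∧ ∃ s : ℂ, s.im = x ∧ 1 / 2 + d ≤ s.re ∧
      (‖L s‖ < Real.exp (-f s.re) ∨ Real.exp (f s.re) < ‖L s‖) := by
  constructor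
  · rintro ⟨s, h1, h2, h3⟩
    exact ⟨s.im, h2, s, rfl, h1, h3⟩
  · rintro ⟨x, h2, s, h0, h1, h3⟩
    exact ⟨s, h1, by rw [h0]; exact h2, h3⟩

open Classical in
theorem result :
    ∀ m : ℕ, 2 ≤ m →
    (∃ (T : ℕ → Finset (ZM m)) (D : Set (V m)), IsReps m T ∧ IsDomain m D) ∧
    ∀ b δ κ : ℝ, 1 ≤ b → 0 < δ → 0 < κ → ∃ a A : ℝ, 0 < a ∧ 0 < A ∧
      ∀ ε : ℝ, 0 < ε → ∃ C : ℝ, 0 < C ∧
      ∀ (T : ℕ → Finset (ZM m)) (D : Set (V m)), IsReps m T → IsDomain m D →
      ∀ (S : ℕ → Type) [∀ N, Fintype (S N)] [∀ N, DecidableEq (S N)]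
        (F : ∀ N : ℕ, S N → Mat m → VecMod m N → ℂ) (lam : ∀ N : ℕ, S N → ℕ → ℂ)
        (Q w : ∀ N : ℕ, S N → ℝ),
        (∀ (N : ℕ) [NeZero N], 1 ≤ N →
          (∀ i, IsForm m N T (F N i) (lam N i) ∧ IsSize D (F N i) (Q N i) ∧
            IsWeight D (F N) i (w N i)) ∧ IsOrthonormal D (F N)) →
      ∀ (K : Type) [Fintype K] (c : K → ℕ → ℕ → ℂ) (q : K → ℕ → ℝ)
        (M : K → ∀ N : ℕ, S N → ℕ) [∀ k N i, NeZero (M k N i)]
        (G : ∀ (k : K) (N : ℕ) (i : S N), Mat m → VecMod m (M k N i) → ℂ)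
        (lamG : K → ∀ N : ℕ, S N → ℕ → ℂ),
        (∀ k, ∀ N : ℕ, 1 ≤ N → 1 ≤ q k N ∧ (∀ n, ‖c k N n‖ ≤ 1) ∧
          ∀ i, IsTwist m N (M k N i) T D (c k N) (q k N) (lam N i) (b * Q N i) (G k N i)
            (lamG k N i)) →
      ∃ L : K → ∀ N : ℕ, S N → ℂ → ℂ,
        (∀ k, ∀ N : ℕ, 1 ≤ N → ∀ i, IsLFunction m (lamG k N i) (L k N i)) ∧
        (∀ k, ∀ N : ℕ, 1 ≤ N → ∀ H t₀ : ℝ, 1 ≤ H →
          (∀ J : S N → Finset ℝ, (∀ i, IsSpaced (J i) ∧ ∀ t ∈ J i, |t - t₀| ≤ H) →
            ∑ i with Q N i ≤ H, w N i * ∑ t ∈ J i, ‖L k N i (1 / 2 + t * Complex.I)‖ ^ 2 ≤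
              C * (N * (q k N * (H + |t₀|))) ^ ε * windowSize m N (q k N) H t₀) ∧
          ∑ i with Q N i ≤ H, ENNReal.ofReal (w N i) * ∫⁻ t in Set.Icc (t₀ - H) (t₀ + H),
            ENNReal.ofReal (‖L k N i (1 / 2 + t * Complex.I)‖ ^ 2) ≤
              ENNReal.ofReal (C * (N * (q k N * (H + |t₀|))) ^ ε *
                windowSize m N (q k N) H t₀) ∧
          ∑ i with Q N i ≤ H, w N i * (((Finset.Icc ⌈t₀ - H⌉ ⌊t₀ + H⌋ : Finset ℤ).filter
            fun h : ℤ => IsOutside (L k N i) δ h 1 (logBound A κ (N * H ^ m))).card : ℝ) ≤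
              C * (N * (q k N * (H + |t₀|))) ^ ε * windowSize m N (q k N) H t₀ *
                (N * H ^ m) ^ (-a)) ∧
        ∀ X : ℝ, 1 ≤ X → ∀ (τ : K → ℕ → ℝ) (Y : ℝ), 0 ≤ Y →
          (∀ k, ∀ N : ℕ, 1 ≤ N → (N : ℝ) ≤ X → (q k N * (1 + |τ k N| + Y)) ^ m ≤ X) →
          (∀ k, ∀ t : ∀ N : ℕ, S N → ℝ, (∀ N : ℕ, 1 ≤ N → ∀ i, |t N i - τ k N| ≤ Q N i) →
            ∑ N ∈ Finset.Icc 1 ⌊X⌋₊, ∑ i with OrderLe (F N i) (Q N i) (w N i) X,
              ‖L k N i (1 / 2 + t N i * Complex.I)‖ ^ 2 ≤ C * X ^ ((m : ℝ) + 1 + ε)) ∧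
          (∀ η : ℝ, ((∑ N ∈ Finset.Icc 1 ⌊X⌋₊, (Finset.univ.filter fun i : S N =>
            OrderLe (F N i) (Q N i) (w N i) X ∧ ∃ k, ∃ t : ℝ, |t - τ k N| ≤ max Y (Q N i) ∧
              X ^ η < ‖L k N i (1 / 2 + t * Complex.I)‖).card : ℕ) : ℝ) ≤
                C * Fintype.card K * (1 + Y) * X ^ ((m : ℝ) + 1 - 2 * η + ε)) ∧
          ((∑ N ∈ Finset.Icc 1 ⌊X⌋₊, (Finset.univ.filter fun i : S N =>
            OrderLe (F N i) (Q N i) (w N i) X ∧
              ∃ k, IsOutside (L k N i) δ (τ k N) (max Y (Q N i)) (logBound A κ X)).card : ℕ) : ℝ) ≤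
                C * Fintype.card K * (1 + Y) * X ^ ((m : ℝ) + 1 - a) := by
  intro m hm2
  have hm1 : 1 ≤ m := by omega
  refine ⟨?_, ?_⟩
  · obtain ⟨T, hT⟩ := Pool.Agent.H27.L1.H34.GZ.f_EXT m hm1
    obtain ⟨D, hD⟩ := Pool.Agent.H27.L1.H34.GZ.f_EXD m hm1
    exact ⟨T, D, ⟨hT.mem, hT.uniq⟩, ⟨hD.meas, hD.shell, hD.fund⟩⟩
  · intro b δ κ hb hδ hκ
    obtain ⟨a, A, ha, hA, hs⟩ := single m hm2 b hb δ κ hδ hκ
    refine ⟨a, A, ha, hA, ?_⟩
    intro ε hε
    obtain ⟨C, hC, h⟩ := hs ε hε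
    refine ⟨2 * C, by positivity, ?_⟩
    intro T D hT hD S _ _ F lam Q w hF K _ c q M _ G lamG hG
    have hQ : ∀ N, 1 ≤ N → ∀ i : S N, 1 ≤ Q N i := by
      intro N h2 i
      have : NeZero N := ⟨by omega⟩
      exact ((hF N h2).1 i).2.1.1
    have hCC : C ≤ 2 * C := by linarith
    have hk := fun k => h T D hT hD S F lam Q w hF (c k) (q k) (M k) (G k) (lamG k) (hG k)
    refine ⟨fun k => (hk k).choose, fun k => (hk k).choose_spec.1, ?_, ?_⟩
    · intro k N hN H t₀ hH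
      obtain ⟨h1, h2, h3⟩ := (hk k).choose_spec.2.1 N hN H t₀ hH
      have hq1 : 1 ≤ q k N := (hG k N hN).1
      have hW0 : 0 ≤ windowSize m N (q k N) H t₀ := by
        unfold windowSize
        positivity
      have hle : C * (N * (q k N * (H + |t₀|))) ^ ε * windowSize m N (q k N) H t₀ ≤
          2 * C * (N * (q k N * (H + |t₀|))) ^ ε * windowSize m N (q k N) H t₀ := by
        gcongr
      refine ⟨fun J hJ => (h1 J hJ).trans hle, h2.trans (ENNReal.ofReal_le_ofReal hle),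
        h3.trans ?_⟩
      have : 0 ≤ ((N : ℝ) * H ^ m) ^ (-a) := by positivity
      exact mul_le_mul_of_nonneg_right hle this
    · intro X hX τ Y hY hτ
      have hX0 : 0 < X := by linarith
      -- all the centres
      have hcen : ∀ k, ∀ j : ℤ, |(j : ℝ)| ≤ Y → ∀ N : ℕ, 1 ≤ N → (N : ℝ) ≤ X →
          (q k N * (1 + |τ k N + j|)) ^ m ≤ X := by
        intro k j hj N hN hNX
        have hq1 : 1 ≤ q k N := (hG k N hN).1
        refine le_trans (pow_le_pow_left₀ (by positivity) ?_ m) (hτ k N hN hNX)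
        refine mul_le_mul_of_nonneg_left ?_ (by linarith)
        have := abs_add_le (τ k N) j
        linarith
      have hcen0 : ∀ k, ∀ N : ℕ, 1 ≤ N → (N : ℝ) ≤ X → (q k N * (1 + |τ k N|)) ^ m ≤ X := by
        intro k N hN hNX
        have h1 := hcen k 0 (by simpa using hY) N hN hNX
        simpa using h1
      refine ⟨?_, ?_, ?_⟩
      · intro k t ht
        refine (((hk k).choose_spec.2.2 X hX (τ k) (hcen0 k)).1 t ht).trans ?_
        gcongr
      · intro η
        have h1 := union_all hQ (fun N i => OrderLe (F N i) (Q N i) (w N i) X)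
          (fun k N i (t : ℝ) => X ^ η < ‖(hk k).choose N i (1 / 2 + t * Complex.I)‖) τ (X := X) hY
          (M := C * X ^ ((m : ℝ) + 1 - 2 * η + ε)) (by positivity) (fun k j hj =>
            ((hk k).choose_spec.2.2 X hX (fun N => τ k N + j) (hcen k j hj)).2.1 η)
        refine h1.trans (le_of_eq ?_)
        ring
      · have h1 := union_all hQ (fun N i => OrderLe (F N i) (Q N i) (w N i) X)
          (fun k N i (x : ℝ) => ∃ s : ℂ, s.im = x ∧ 1 / 2 + δ ≤ s.re ∧
            (‖(hk k).choose N i s‖ < Real.exp (-logBound A κ X s.re) ∨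
              Real.exp (logBound A κ X s.re) < ‖(hk k).choose N i s‖)) τ (X := X) hY
          (M := C * X ^ ((m : ℝ) + 1 - a)) (by positivity) (fun k j hj => by
            have h2 := ((hk k).choose_spec.2.2 X hX (fun N => τ k N + j) (hcen k j hj)).2.2
            simp only [out_iff] at h2
            exact h2)
        simp only [out_iff]
        refine h1.trans (le_of_eq ?_)
        ring

end Pool.Agent.Results.MP_52e316_nt.OffTheLine
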