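import Pool.Agent.H31.SWX.All
import Pool.Agent.H29.DW.Stmt

/-!
# A bound below Weyl's for the `L`-functions of Hecke characters of all number fields

Let `K` be a number field of degree `m`, let `l` and `k` be nonzero ideals of its ring of integers,
`k` prime to `210` and to `l`, and let `χ` be a unitary Hecke character modulo `l k`, with arbitrary
infinity type `∏_v (a_v / |a_v|)^(k_v) |a_v|^(i e_v ν_v)`, which is primitive at the primes of `k`.
The theorem gives for all real `t`

  `|L(1/2 + it, χ)| ≤ C |d_K|^(5/2) N(l)^2 N(rad k)^4 (N(k) C_∞)^(27/164 + ε)`,
  `C_∞ = ∏_v (1 + |t - ν_v| + |k_v|)^(e_v)`,

where `C` depends only on `m` and `ε`. Since `27/164 < 1/6`, this is below Weyl's exponent in the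
archimedean part `C_∞` of the analytic conductor (for `k = 1` the character `χ` is an arbitrary
Hecke character modulo `l`), in the depth aspect (`k` a product of high powers of fixed primes), and
in both aspects together, for every shape of the infinity type and of `k`: all the
`|t - ν_v| + |k_v|` and all the exponents of the primes in `k` may vary independently. For `m = 1` the
exponent is the one of Titchmarsh for the Riemann zeta function. For an imaginary quadratic field,
fixed `t` and the characters with `χ((a)) = (a/|a|)^j`, the functions `L(s, χ)` are those of
holomorphic cusp forms of weight `j + 1` with complex multiplication.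

Outline of the proof. The approximate functional equation gives two smooth sums over the ideals. They
are unfolded: multiplied by the Mellin transform of a bump function on `K_∞` they become integrals
over the positions of sums over the points `x` of a fractional ideal, with the phase
`∏_v |w_v|^(-i e_v t_v) (w_v / |w_v|)^(k_v)`, restricted to a box, and with a multiplicative character of
`O/k` evaluated at `x`. These sums are estimated pointwise, and only norms occur, no units. The
chain `A B A^3 B` of the theory of exponent pairs is carried out in `K_∞` for the product of all
archimedean places and in `O/k` for the product of all primes of `k` at once.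

One differencing step (van der Corput, over the points of the ideal in a box which are
divisible by an ideal `κ` with `κ^4 ⊆ k`) leads to a phase which is at each place the difference of
two values of `c_v log w`; in `O/k` it is the same, the character is on `1 + κ` a cubic polynomial
of the truncated logarithm. Poisson summation gives a dual sum, and a second derivative test in one
complex or real variable, which is proved by squaring the integral, localises the dual sum. The
amplitude of the dual sum is again a smooth function times the phase given by the Legendre
transform at each place: this is proved without stationary phase expansions, by partial integration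
along one vector field. In the finite ring the complete sums are evaluated exactly: the phase of
the dual sum is a power series in a square root of `1 + nilpotent`, whose fifth coefficient is
`28` times a unit, and the Gauss sums which occur do not depend on the dual variable. Then three
differencing steps and a second Poisson summation finish the proof. The number of points of a
lattice in a box, and sums of the reciprocals of norms over such points, are bounded uniformly
by means of `|N(x)| ≥ N(M)` for `x ∈ M`.
-/

set_option autoImplicit false

open NumberField NumberField.InfinitePlace Complex

namespace Pool.Agent.Results.MP_52e316_nt.SubWeyl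

open Pool.Agent.H23.LC Pool.Agent.H29.DW
open Pool.Agent.H31.SX (LK)

theorem result (m : ℕ) (hm : 1 ≤ m) (ε : ℝ) (hε : 0 < ε) :
    ∃ C : ℝ, ∀ (K : Type) [Field K] [NumberField K], Module.finrank ℚ K = m →
      ∀ l k : Ideal (𝓞 K), LK l k → ∀ χ : HG K (l * k), PrG k χ →
      ∃ L : ℂ → ℂ, IsCon χ L ∧ ∀ t : ℝ, ‖L (1 / 2 + t * I)‖ ≤
        C * |(discr K : ℝ)| ^ (5 / 2 : ℝ) * (Ideal.absNorm l : ℝ) ^ 2 *
          (Ideal.absNorm k.radical : ℝ) ^ 4 *
            (Ideal.absNorm k * Ci χ.k χ.ν t) ^ (27 / 164 + ε : ℝ) := by
  obtain ⟨C, hC⟩ := Pool.Agent.H31.SWX.All.x_SW m hm ε hε
  refine ⟨C, fun K _ _ hK l k hl χ hχ => ?_⟩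
  obtain ⟨L, h1, h2, h3, h4⟩ := hC K hK l k hl χ hχ
  exact ⟨L, ⟨h1, h2, h3⟩, h4⟩

end Pool.Agent.Results.MP_52e316_nt.SubWeyl
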