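import Pool.Agent.H27.DF.All
import Pool.Agent.H29.DW.Stmt
import Pool.Agent.H27.DF.Stmt

/-!
# Moments of the `L`-functions of all Hecke characters of all number fields

Let `K` be a number field of degree `m` and let `f = l s k` be an ideal of its ring of integers, where
`l`, `s`, `k` are nonzero and pairwise coprime, `s k` is prime to `210`, `s` is squarefree with prime
ideals of norm at most `y`, and all prime divisors of `k` have an exponent at least `3`. Every nonzero
ideal is of this form: the prime divisors of `210`, the primes with the exponent `2` and, if one
likes, some primes with the exponent `1` are put into `l`. We consider sets `S` of pairs of a unitary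
Hecke character `χ` modulo `f` (of any infinity type `∏_v (a_v / |a_v|)^(k_v) |a_v|^(i e_v ν_v)`)
which is primitive at the primes of `s k`, and a real number `t`, the `t` of the same character having
distance at least `1`, and with `1 + |t - ν_v| + |k_v| ≤ T_v` for all places `v` at infinity. The
number of all such pairs is about `X = N(s k) ∏ T_v^(e_v)`.

* `p = 12`: `∑_S |L(1/2 + it, χ)|^12 ≤ C (|d_K| N(l) N(rad k) y)^B X^(2 + ε)`, where `B` depends only on
  `m` and `C` on `m` and `ε`. This is the twelfth moment in the whole conductor (in the analytic
  conductor at the places at infinity and in the conductor), for all friable conductors: for `K = ℚ`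
  and `f = (1)` it is the theorem of Heath-Brown on the Riemann zeta function, for `s = (1)` and
  powers of a fixed prime it is in the depth aspect (Milićević-White over `ℚ`), for `k = (1)` in the
  aspect of smooth squarefree conductors (Nunes over `ℚ`), and all aspects are treated together. In
  particular Weyl's bound `X^(1/6 + ε)` holds in the whole conductor.
* For `2 ≤ p ≤ 12` suppose that `S` is divided into `R` classes, such that for pairs `(χ, t)`,
  `(χ', t')` in the same class `|(t - ν_v) - (t' - ν'_v)| + |k_v - k'_v| ≤ H_v` for all places `v` at
  infinity (`1 ≤ H_v ≤ T_v^(1/3)`) and the component of `χ / χ'` at `s k` is trivial on `1 + κ`, where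
  `κ` is a divisor of `s k` of norm about `N(s k)^θ`, `1/6 ≤ θ ≤ 1/3` (in the sense of `Div`; such `κ`
  exist for every `θ`, up to factors `y` and `N(rad k)` in the norm). Then with
  `Y = N(κ) ∏ H_v^(e_v)`

  `∑_S |L(1/2 + it, χ)|^p ≤ C (|d_K| N(l) N(rad k) y)^B X^((p - 2)/5 + ε) (R Y + R^(1/2) X Y^(-2))^((12 - p)/10)`.

  `p = 2` is the mean square over `R` boxes in the infinity types and the `t`, times cosets of thin
  groups of characters. For `R = 1` and `Y` of the size `X^(1/3)` it is `Y X^ε`, the mean value
  asserted by the Lindelöf hypothesis, for the length `X^(1/3)`.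

Outline of the proof (no formula of Atkinson).

* After the approximate functional equation and the unfolding over the positions in the
  multiplicative group at infinity, one has to bound, at every fixed position, sums
  `S(c, η) = ∑_x η(x) ∏_v exp(-i Re(c_v log w_v)) p(w_v - 1)`, `w = w(x)` the coordinates of the
  points `x` of a fractional ideal in a residue class modulo `l rad(k)`, `η` a primitive character of
  `(O/sk)^*`, over well spaced families `(c, η)`.
* The mean square over a box and a coset is a sum over the pairs of points with
  `|log w_v - log w'_v| ≤ 1 / H_v` and `x - x'` divisible by `κ`. Primes of `s` dividing the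
  difference are removed by Möbius inversion. For a fixed half difference `δ` Poisson summation in
  the midpoint gives a sum over `ξ` in a dual lattice, and the local transforms at infinity, at `k`
  and at `s` are functions of the product `ν = δ ξ` alone, up to a factor which does not depend on the
  character.
* By duality, the sums over `ν` are bounded by the correlations of these functions for two
  characters; Poisson summation in `ν`, the second derivative test at infinity, stationary phase in
  the finite ring `O/k` and the bound of Weil for two multiplicative characters at the primes of `s`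
  give their size. The part of the transform at the primes of `s` at which the characters of a cell
  agree is a common factor and is put into the coefficients.
* `p = 12` follows from the mean squares over the pairs with large values of the `L`-function, with
  classes of one element and `Y` about the square of the value.
-/

set_option autoImplicit false

open NumberField NumberField.InfinitePlace Complex

namespace Pool.Agent.Results.MP_52e316_nt.TwelfthMoment

open Pool.Agent.H23.LC Pool.Agent.H29.DW
open Pool.Agent.H27.DM (vol)
open Pool.Agent.H27.DF (Frb Fml Div Box)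

/-- Moments of the `L`-functions of all Hecke characters over boxes and cosets, friable conductors. -/
theorem result (m : ℕ) (hm : 1 ≤ m) :
    ∃ B : ℝ, ∀ ε : ℝ, 0 < ε → ∃ C : ℝ, ∀ (K : Type) [Field K] [NumberField K],
      Module.finrank ℚ K = m → ∀ (l s k c f : Ideal (𝓞 K)) (y : ℝ), Frb l s k c f y →
      ∃ L : HG K f → ℂ → ℂ, (∀ χ, IsCon χ (L χ)) ∧
      ∀ (p : ℝ) (T H : InfinitePlace K → ℝ) (κ : Ideal (𝓞 K)) (R : ℕ)
        (S : Finset (HG K f × ℝ)) (bl : HG K f × ℝ → ℕ),
        2 ≤ p → p ≤ 12 → Fml c T S → (p < 12 → Div s k κ ∧ Box (l * κ) T H R S bl) →
        ∑ q ∈ S, ‖L q.1 (1 / 2 + q.2 * I)‖ ^ p ≤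
          C * (|(discr K : ℝ)| * Ideal.absNorm l * Ideal.absNorm k.radical * y) ^ B *
            vol c T ^ ((p - 2) / 5 + ε) *
            (R * vol κ H + R ^ (1 / 2 : ℝ) * vol c T / vol κ H ^ 2) ^ ((12 - p) / 10) := by
  obtain ⟨B, h⟩ := Pool.Agent.H27.DF.All.f_FI m hm
  refine ⟨B, fun ε hε => ?_⟩
  obtain ⟨C, h⟩ := h ε hε
  refine ⟨C, fun K _ _ hK l s k c f y hf => ?_⟩
  obtain ⟨rfl, rfl, hlk, hcop, hsqf, hcub, hone, hfri⟩ := hf
  obtain ⟨L, hL, h⟩ := h K hK l s k y ⟨hlk, hcop, hsqf, hcub, hone, hfri⟩
  refine ⟨L, hL, fun p T H κ R S bl h2 h12 hF hB => ?_⟩
  exact h p T H κ R S bl h2 h12 hF.one hF.prim hF.sep hF.size fun hp =>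
    have hD := (hB hp).1
    have hX := (hB hp).2
    ⟨hX.radii, ⟨hD.le, hD.rad, hD.cub, hD.six, hD.nrm⟩, hX.cls, fun q hq q' hq' hb =>
      ⟨hX.near q hq q' hq' hb, hX.loc q hq q' hq' hb⟩⟩

end Pool.Agent.Results.MP_52e316_nt.TwelfthMoment
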